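import Pool.Agent.Lib_helper59.Gap59.Defs

set_option autoImplicit false

namespace Pool.Agent.Gap59

/-- Working form of admissibility. -/
def Adm (A : Set ℕ) : Prop :=
  ∀ X Y : Finset ℕ, (X : Set ℕ) ⊆ A → (Y : Set ℕ) ⊆ A → X.Nonempty → Y.Nonempty →
    ∑ x ∈ X, x = ∑ y ∈ Y, y → X.card = Y.card

/-- Working form of attainability. -/
def Att (c : ℝ) : Prop :=
  ∃ a : ℕ → ℕ, StrictMono a ∧ 0 < a 0 ∧ Adm (Set.range a) ∧
    ∃ n₀ : ℕ, ∀ n ≥ n₀, (a (n + 1) : ℝ) - (a n : ℝ) ≤ ((n : ℝ) + 1) ^ c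

lemma admissible_iff (A : Set ℕ) : Admissible A ↔ Adm A := by
  constructor
  · intro h X Y hX hY hXn hYn hsum
    have hX1 : 1 ≤ X.card := Finset.card_pos.mpr hXn
    have hY1 : 1 ≤ Y.card := Finset.card_pos.mpr hYn
    rcases lt_trichotomy X.card Y.card with h1 | h1 | h1
    · exfalso
      have h2 := h X.card Y.card hX1 h1
      have : (∑ x ∈ X, x) ∈ sumsOf X.card A ∩ sumsOf Y.card A :=
        ⟨⟨X, hX, rfl, rfl⟩, ⟨Y, hY, rfl, hsum.symm⟩⟩
      rw [h2] at this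
      exact this
    · exact h1
    · exfalso
      have h2 := h Y.card X.card hY1 h1
      have : (∑ x ∈ X, x) ∈ sumsOf Y.card A ∩ sumsOf X.card A :=
        ⟨⟨Y, hY, rfl, hsum.symm⟩, ⟨X, hX, rfl, rfl⟩⟩
      rw [h2] at this
      exact this
  · intro h r s hr hrs
    rw [Set.eq_empty_iff_forall_notMem]
    rintro y ⟨⟨X, hX, hXr, hXy⟩, ⟨Y, hY, hYs, hYy⟩⟩
    have hXn : X.Nonempty := by rw [← Finset.card_pos]; omega
    have hYn : Y.Nonempty := by rw [← Finset.card_pos]; omega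
    have := h X Y hX hY hXn hYn (by rw [hXy, hYy])
    omega

lemma attainable_iff (c : ℝ) : Attainable c ↔ Att c := by
  unfold Attainable Att
  simp only [admissible_iff]

end Pool.Agent.Gap59
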