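import Mathlib
import Pool.Agent.Lib_helper59.Gap59.Working

set_option autoImplicit false
set_option maxHeartbeats 1000000

namespace Pool.Agent.Gap59

open Finset

/-- Data of the construction. Phase `k` consists of three arithmetic progressions:
`b k + q k * j` (`1 ≤ j ≤ m k`), then `b k + q k * m k + Q k * j` (`1 ≤ j ≤ m k`), the last
element of which is `b (k + 1)`, then `b (k + 1) + q k * j` (`1 ≤ j ≤ n k`). -/
structure Data where
  m : ℕ → ℕ
  n : ℕ → ℕ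
  q : ℕ → ℕ
  Q : ℕ → ℕ
  b : ℕ → ℕ
  N : ℕ → ℕ
  b0 : b 0 = 1
  bs : ∀ k, b (k + 1) = b k + q k * m k + Q k * m k
  N0 : N 0 = 0
  Ns : ∀ k, N (k + 1) = N k + 2 * m k + n k
  qdvd : ∀ k, q k ∣ q (k + 1)
  Qdvd : ∀ k, q k ∣ Q k
  mpos : ∀ k, 1 ≤ m k
  npos : ∀ k, 1 ≤ n k
  qpos : ∀ k, 1 ≤ q k
  Qpos : ∀ k, 1 ≤ Q k
  hA : ∀ k, n k * (q k * n k) ≤ m k * b (k + 1)
  dec0 : 3 * m 0 < q 0
  dec : ∀ k, ((N (k + 1) + 3 * m (k + 1)) + (N k + 3 * m k)) * b (k + 1) < q (k + 1)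
  big : ∀ k, q k * n k < q (k + 1)

namespace Data

variable (D : Data)

/-- first progression -/
def ap1 (k : ℕ) : Finset ℕ := (Icc 1 (D.m k)).image (fun j => D.b k + D.q k * j)
/-- second progression -/
def ap2 (k : ℕ) : Finset ℕ := (Icc 1 (D.m k)).image (fun j => D.b k + D.q k * D.m k + D.Q k * j)
/-- third progression -/
def ap3 (k : ℕ) : Finset ℕ := (Icc 1 (D.n k)).image (fun j => D.b (k + 1) + D.q k * j)

/-- The elements of phase `k`. -/
def blk (k : ℕ) : Finset ℕ := D.ap1 k ∪ D.ap2 k ∪ D.ap3 k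

/-- The elements of phases below `k`. -/
def low : ℕ → Finset ℕ
  | 0 => ∅
  | k + 1 => low k ∪ D.blk k

/-- The whole set. -/
def A : Set ℕ := {x | ∃ k, x ∈ D.blk k}

lemma mem_ap1 {k x : ℕ} : x ∈ D.ap1 k ↔ ∃ j, 1 ≤ j ∧ j ≤ D.m k ∧ x = D.b k + D.q k * j := by
  unfold ap1
  simp only [mem_image, mem_Icc]
  constructor
  · rintro ⟨j, ⟨h1, h2⟩, h3⟩; exact ⟨j, h1, h2, h3.symm⟩
  · rintro ⟨j, h1, h2, h3⟩; exact ⟨j, ⟨h1, h2⟩, h3.symm⟩

lemma mem_ap2 {k x : ℕ} :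
    x ∈ D.ap2 k ↔ ∃ j, 1 ≤ j ∧ j ≤ D.m k ∧ x = D.b k + D.q k * D.m k + D.Q k * j := by
  unfold ap2
  simp only [mem_image, mem_Icc]
  constructor
  · rintro ⟨j, ⟨h1, h2⟩, h3⟩; exact ⟨j, h1, h2, h3.symm⟩
  · rintro ⟨j, h1, h2, h3⟩; exact ⟨j, ⟨h1, h2⟩, h3.symm⟩

lemma mem_ap3 {k x : ℕ} :
    x ∈ D.ap3 k ↔ ∃ j, 1 ≤ j ∧ j ≤ D.n k ∧ x = D.b (k + 1) + D.q k * j := by
  unfold ap3
  simp only [mem_image, mem_Icc]
  constructor
  · rintro ⟨j, ⟨h1, h2⟩, h3⟩; exact ⟨j, h1, h2, h3.symm⟩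
  · rintro ⟨j, h1, h2, h3⟩; exact ⟨j, ⟨h1, h2⟩, h3.symm⟩

lemma mem_blk {k x : ℕ} : x ∈ D.blk k ↔ x ∈ D.ap1 k ∨ x ∈ D.ap2 k ∨ x ∈ D.ap3 k := by
  unfold blk
  rw [mem_union, mem_union, or_assoc]

lemma mem_low {J x : ℕ} : x ∈ D.low J ↔ ∃ i < J, x ∈ D.blk i := by
  induction J with
  | zero => simp [low]
  | succ J ih =>
    simp only [low, mem_union, ih]
    constructor
    · rintro (⟨i, hi, hx⟩ | hx)
      · exact ⟨i, by omega, hx⟩
      · exact ⟨J, by omega, hx⟩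
    · rintro ⟨i, hi, hx⟩
      rcases Nat.lt_succ_iff_lt_or_eq.mp hi with h | h
      · exact Or.inl ⟨i, h, hx⟩
      · subst h; exact Or.inr hx

lemma b_mono {i J : ℕ} (h : i ≤ J) : D.b i ≤ D.b J := by
  induction J, h using Nat.le_induction with
  | base => exact le_rfl
  | succ J _ ih => rw [D.bs]; omega

lemma bpos (k : ℕ) : 1 ≤ D.b k := by
  have := D.b_mono (Nat.zero_le k)
  rw [D.b0] at this; exact this

lemma q_le_b (k : ℕ) : D.b k + D.q k ≤ D.b (k + 1) := by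
  rw [D.bs]
  have h1 : D.q k * 1 ≤ D.q k * D.m k := Nat.mul_le_mul_left _ (D.mpos k)
  omega

/-- bounds for elements of phase `k` -/
lemma blk_ge {k x : ℕ} (hx : x ∈ D.blk k) : D.b k + D.q k ≤ x := by
  rw [mem_blk] at hx
  rcases hx with hx | hx | hx
  · rw [mem_ap1] at hx
    obtain ⟨j, h1, h2, rfl⟩ := hx
    have h1 : D.q k * 1 ≤ D.q k * j := Nat.mul_le_mul_left _ h1
    omega
  · rw [mem_ap2] at hx
    obtain ⟨j, h1, h2, rfl⟩ := hx
    have h1 : D.q k * 1 ≤ D.q k * D.m k := Nat.mul_le_mul_left _ (D.mpos k)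
    omega
  · rw [mem_ap3] at hx
    obtain ⟨j, h1, h2, rfl⟩ := hx
    have h1 : D.q k * 1 ≤ D.q k * j := Nat.mul_le_mul_left _ h1
    have h3 := D.b_mono (Nat.le_succ k)
    simp only [Nat.succ_eq_add_one] at h3
    omega

lemma ap12_le {k x : ℕ} (hx : x ∈ D.ap1 k ∪ D.ap2 k) : x ≤ D.b (k + 1) := by
  rw [mem_union] at hx
  rw [D.bs]
  rcases hx with hx | hx
  · rw [mem_ap1] at hx
    obtain ⟨j, h1, h2, rfl⟩ := hx
    have h1 : D.q k * j ≤ D.q k * D.m k := Nat.mul_le_mul_left _ h2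
    omega
  · rw [mem_ap2] at hx
    obtain ⟨j, h1, h2, rfl⟩ := hx
    have h1 : D.Q k * j ≤ D.Q k * D.m k := Nat.mul_le_mul_left _ h2
    omega

lemma blk_lt {k x : ℕ} (hx : x ∈ D.blk k) : x < D.b (k + 1) + D.q (k + 1) := by
  rw [mem_blk] at hx
  have hqp := D.qpos (k + 1)
  rcases hx with hx | hx | hx
  · have := D.ap12_le (mem_union_left _ hx); omega
  · have := D.ap12_le (mem_union_right _ hx); omega
  · rw [mem_ap3] at hx
    obtain ⟨j, h1, h2, rfl⟩ := hx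
    have h1 : D.q k * j ≤ D.q k * D.n k := Nat.mul_le_mul_left _ h2
    have := D.big k
    omega

lemma low_le {J x : ℕ} (hx : x ∈ D.low J) : x ≤ D.b (J + 1) := by
  rw [mem_low] at hx
  obtain ⟨i, hi, hx⟩ := hx
  have h1 := D.blk_lt hx
  have h2 := D.q_le_b (i + 1)
  have h3 := D.b_mono (show i + 1 + 1 ≤ J + 1 by omega)
  omega

lemma ap1_card (k : ℕ) : (D.ap1 k).card = D.m k := by
  unfold ap1
  rw [card_image_of_injective]
  · simp
  · intro i j hij
    simp only [add_right_inj] at hij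
    exact Nat.eq_of_mul_eq_mul_left (D.qpos k) hij

lemma ap3_card (k : ℕ) : (D.ap3 k).card = D.n k := by
  unfold ap3
  rw [card_image_of_injective]
  · simp
  · intro i j hij
    simp only [add_right_inj] at hij
    exact Nat.eq_of_mul_eq_mul_left (D.qpos k) hij

lemma ap2_card_le (k : ℕ) : (D.ap2 k).card ≤ D.m k := by
  unfold ap2
  refine card_image_le.trans ?_
  simp

lemma low_card (J : ℕ) : (D.low J).card ≤ D.N J := by
  induction J with
  | zero => simp [low]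
  | succ J ih =>
    rw [D.Ns]
    refine (card_union_le _ _).trans ?_
    have h1 : (D.blk J).card ≤ (D.ap1 J).card + (D.ap2 J).card + (D.ap3 J).card := by
      unfold blk
      exact (card_union_le _ _).trans (Nat.add_le_add_right (card_union_le _ _) _)
    have h2 := D.ap1_card J
    have h3 := D.ap2_card_le J
    have h4 := D.ap3_card J
    omega

lemma q_dvd {i J : ℕ} (h : i ≤ J) : D.q i ∣ D.q J := by
  induction J, h using Nat.le_induction with
  | base => exact dvd_rfl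
  | succ J _ ih => exact ih.trans (D.qdvd J)

lemma b_succ_dvd (J : ℕ) : (D.q J : ℤ) ∣ (D.b (J + 1) : ℤ) - D.b J := by
  rw [D.bs]
  push_cast
  have h2 : (D.q J : ℤ) ∣ (D.Q J : ℤ) := by exact_mod_cast D.Qdvd J
  have : (D.b J : ℤ) + D.q J * D.m J + D.Q J * D.m J - D.b J = D.q J * D.m J + D.Q J * D.m J := by
    ring
  rw [this]
  exact dvd_add (Dvd.intro _ rfl) (Dvd.dvd.mul_right h2 _)

lemma b_modEq {i J : ℕ} (h : i ≤ J) : (D.q i : ℤ) ∣ (D.b J : ℤ) - D.b i := by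
  induction J, h using Nat.le_induction with
  | base => simp
  | succ J hJ ih =>
    have h1 : (D.q i : ℤ) ∣ (D.q J : ℤ) := by exact_mod_cast D.q_dvd hJ
    have h2 := h1.trans (D.b_succ_dvd J)
    have : (D.b (J + 1) : ℤ) - D.b i = (D.b (J + 1) - D.b J) + (D.b J - D.b i) := by ring
    rw [this]
    exact dvd_add h2 ih

lemma blk_dvd {i x : ℕ} (hx : x ∈ D.blk i) : (D.q i : ℤ) ∣ (x : ℤ) - D.b i := by
  rw [mem_blk] at hx
  rcases hx with hx | hx | hx
  · rw [mem_ap1] at hx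
    obtain ⟨j, h1, h2, rfl⟩ := hx
    push_cast
    exact ⟨j, by ring⟩
  · rw [mem_ap2] at hx
    obtain ⟨j, h1, h2, rfl⟩ := hx
    push_cast
    have h2 : (D.q i : ℤ) ∣ (D.Q i : ℤ) := by exact_mod_cast D.Qdvd i
    have : (D.b i : ℤ) + D.q i * D.m i + D.Q i * j - D.b i = D.q i * D.m i + D.Q i * j := by ring
    rw [this]
    exact dvd_add (Dvd.intro _ rfl) (Dvd.dvd.mul_right h2 _)
  · rw [mem_ap3] at hx
    obtain ⟨j, h1, h2, rfl⟩ := hx
    push_cast
    have : (D.b (i + 1) : ℤ) + D.q i * j - D.b i = (D.b (i + 1) - D.b i) + D.q i * j := by ring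
    rw [this]
    exact dvd_add (D.b_succ_dvd i) (Dvd.intro _ rfl)

lemma high_dvd {J x : ℕ} (hx : x ∈ D.A) (hxl : x ∉ D.low J) : (D.q J : ℤ) ∣ (x : ℤ) - D.b J := by
  obtain ⟨i, hi⟩ := hx
  have hJi : J ≤ i := by
    by_contra hlt
    exact hxl (D.mem_low.mpr ⟨i, by omega, hi⟩)
  have h1 := D.b_modEq hJi
  have h2 : (D.q J : ℤ) ∣ (D.q i : ℤ) := by exact_mod_cast D.q_dvd hJi
  have h3 := h2.trans (D.blk_dvd hi)
  have : (x : ℤ) - D.b J = (x - D.b i) + (D.b i - D.b J) := by ring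
  rw [this]
  exact dvd_add h3 h1

/-- The main decoding step. -/
lemma decode {X Y : Finset ℕ} (hX : (X : Set ℕ) ⊆ D.A) (hY : (Y : Set ℕ) ⊆ D.A)
    (hsum : ∑ x ∈ X, x = ∑ y ∈ Y, y) {d J : ℕ} (hd : X.card = Y.card + d) {R : ℤ}
    (hR : ∑ x ∈ D.low J, |(x : ℤ) - D.b J| ≤ R)
    (h1 : R < (d : ℤ) * D.b J) (h2 : (d : ℤ) * D.b J + R < D.q J) : False := by
  classical
  -- split sums
  have split : ∀ Z : Finset ℕ, (Z : Set ℕ) ⊆ D.A → ∃ z : ℤ,
      (∑ x ∈ Z, (x : ℤ)) = Z.card * D.b J +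
        (∑ x ∈ D.low J, if x ∈ Z then ((x : ℤ) - D.b J) else 0) + D.q J * z := by
    intro Z hZ
    have e1 : (∑ x ∈ Z, (x : ℤ)) = Z.card * D.b J + ∑ x ∈ Z, ((x : ℤ) - D.b J) := by
      rw [sum_sub_distrib]; simp
    have e2 : ∑ x ∈ Z, ((x : ℤ) - D.b J) =
        (∑ x ∈ Z.filter (fun x => x ∈ D.low J), ((x : ℤ) - D.b J)) +
        ∑ x ∈ Z.filter (fun x => ¬ x ∈ D.low J), ((x : ℤ) - D.b J) :=
      (sum_filter_add_sum_filter_not _ _ _).symm
    have e3 : (∑ x ∈ Z.filter (fun x => x ∈ D.low J), ((x : ℤ) - D.b J)) =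
        ∑ x ∈ D.low J, if x ∈ Z then ((x : ℤ) - D.b J) else 0 := by
      rw [← sum_filter]
      congr 1
      ext x
      simp [and_comm]
    have e4 : (D.q J : ℤ) ∣ ∑ x ∈ Z.filter (fun x => ¬ x ∈ D.low J), ((x : ℤ) - D.b J) := by
      apply dvd_sum
      intro x hx
      rw [mem_filter] at hx
      exact D.high_dvd (hZ hx.1) hx.2
    obtain ⟨z, hz⟩ := e4
    exact ⟨z, by rw [e1, e2, e3, hz]; ring⟩
  obtain ⟨z1, hz1⟩ := split X hX
  obtain ⟨z2, hz2⟩ := split Y hY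
  have hs : (∑ x ∈ X, (x : ℤ)) = ∑ y ∈ Y, (y : ℤ) := by
    have := congrArg (Nat.cast : ℕ → ℤ) hsum
    simpa [Nat.cast_sum] using this
  set U : ℤ := (∑ x ∈ D.low J, if x ∈ X then ((x : ℤ) - D.b J) else 0) -
    (∑ x ∈ D.low J, if x ∈ Y then ((x : ℤ) - D.b J) else 0) with hU
  have hkey : (d : ℤ) * D.b J + U = D.q J * (z2 - z1) := by
    have : (X.card : ℤ) = Y.card + d := by exact_mod_cast hd
    rw [hz1, hz2, this] at hs
    rw [hU]
    linarith
  have hUb : |U| ≤ R := by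
    refine le_trans ?_ hR
    rw [hU, ← sum_sub_distrib]
    refine (abs_sum_le_sum_abs _ _).trans ?_
    apply sum_le_sum
    intro x hx
    split_ifs
    · simp
    · simp
    · rw [zero_sub, abs_neg]
    · simp
  rw [abs_le] at hUb
  have hlow : 0 < (d : ℤ) * D.b J + U := by linarith
  have hhigh : (d : ℤ) * D.b J + U < D.q J := by linarith
  have hm0 : (0 : ℤ) < D.q J := by exact_mod_cast D.qpos J
  rw [hkey] at hlow hhigh
  have h3 : 0 < z2 - z1 := by
    by_contra hle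
    rw [not_lt] at hle
    nlinarith
  nlinarith

/-- the decoding thresholds -/
def KK (k : ℕ) : ℕ := D.N k + 3 * D.m k

lemma sum_low (k : ℕ) : ∑ x ∈ D.low (k + 1), |(x : ℤ) - D.b (k + 1)| ≤
    (D.KK k : ℤ) * D.b (k + 1) := by
  have hb0 : (0 : ℤ) ≤ D.b (k + 1) := Nat.cast_nonneg _
  have e1 : D.low (k + 1) = (D.low k ∪ (D.ap1 k ∪ D.ap2 k)) ∪ D.ap3 k := by
    show D.low k ∪ D.blk k = _
    unfold blk
    rw [← union_assoc]
  have hsub : ∀ (S T : Finset ℕ) (f : ℕ → ℤ), (∀ x, 0 ≤ f x) →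
      ∑ x ∈ S ∪ T, f x ≤ ∑ x ∈ S, f x + ∑ x ∈ T, f x := by
    intro S T f hf
    rw [← sum_union_inter]
    have : 0 ≤ ∑ x ∈ S ∩ T, f x := sum_nonneg (fun x _ => hf x)
    linarith
  have hbound1 : ∑ x ∈ D.low k ∪ (D.ap1 k ∪ D.ap2 k), |(x : ℤ) - D.b (k + 1)| ≤
      ((D.N k + 2 * D.m k : ℕ) : ℤ) * D.b (k + 1) := by
    have h1 : ∀ x ∈ D.low k ∪ (D.ap1 k ∪ D.ap2 k), |(x : ℤ) - D.b (k + 1)| ≤ D.b (k + 1) := by
      intro x hx
      have hxle : x ≤ D.b (k + 1) := by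
        rw [mem_union] at hx
        rcases hx with hx | hx
        · exact D.low_le hx
        · exact D.ap12_le hx
      have h2 : (x : ℤ) ≤ D.b (k + 1) := by exact_mod_cast hxle
      have h3 : (0 : ℤ) ≤ x := Nat.cast_nonneg _
      rw [abs_le]; constructor <;> linarith
    refine (sum_le_card_nsmul _ _ _ h1).trans ?_
    rw [nsmul_eq_mul]
    apply mul_le_mul_of_nonneg_right _ hb0
    have h2 := card_union_le (D.low k) (D.ap1 k ∪ D.ap2 k)
    have h3 := card_union_le (D.ap1 k) (D.ap2 k)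
    have h4 := D.low_card k
    have h5 := D.ap1_card k
    have h6 := D.ap2_card_le k
    exact_mod_cast (by omega : (D.low k ∪ (D.ap1 k ∪ D.ap2 k)).card ≤ D.N k + 2 * D.m k)
  have hbound2 : ∑ x ∈ D.ap3 k, |(x : ℤ) - D.b (k + 1)| ≤ (D.m k : ℤ) * D.b (k + 1) := by
    have h1 : ∀ x ∈ D.ap3 k, |(x : ℤ) - D.b (k + 1)| ≤ ((D.q k * D.n k : ℕ) : ℤ) := by
      intro x hx
      rw [mem_ap3] at hx
      obtain ⟨j, h2, h3, rfl⟩ := hx
      push_cast
      have h4 : (D.b (k + 1) : ℤ) + D.q k * j - D.b (k + 1) = D.q k * j := by ring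
      rw [h4, abs_of_nonneg (by positivity)]
      exact mul_le_mul_of_nonneg_left (by exact_mod_cast h3) (by positivity)
    refine (sum_le_card_nsmul _ _ _ h1).trans ?_
    rw [nsmul_eq_mul, D.ap3_card]
    exact_mod_cast D.hA k
  rw [e1]
  refine (hsub _ _ _ (fun x => abs_nonneg _)).trans ?_
  have : (D.KK k : ℤ) * D.b (k + 1) = ((D.N k + 2 * D.m k : ℕ) : ℤ) * D.b (k + 1) +
      (D.m k : ℤ) * D.b (k + 1) := by
    unfold KK; push_cast; ring
  rw [this]
  exact add_le_add hbound1 hbound2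

lemma KK_ge (k : ℕ) : k ≤ D.KK k := by
  have : ∀ k, k ≤ D.N k := by
    intro k
    induction k with
    | zero => omega
    | succ k ih => rw [D.Ns]; have := D.npos k; omega
  unfold KK
  have := this k
  omega

lemma card_eq_of_le {X Y : Finset ℕ} (hX : (X : Set ℕ) ⊆ D.A) (hY : (Y : Set ℕ) ⊆ D.A)
    (hsum : ∑ x ∈ X, x = ∑ y ∈ Y, y) (hle : Y.card ≤ X.card) : X.card = Y.card := by
  by_contra hne
  obtain ⟨d, hd⟩ := Nat.exists_eq_add_of_le hle
  have hd1 : 1 ≤ d := by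
    rcases Nat.eq_zero_or_pos d with h | h
    · subst h; exact absurd hd hne
    · exact h
  have hex : ∃ J, d ≤ D.KK J := ⟨d, D.KK_ge d⟩
  classical
  have hJ1 : d ≤ D.KK (Nat.find hex) := Nat.find_spec hex
  rcases Nat.eq_zero_or_pos (Nat.find hex) with h0 | h0
  · -- level 0
    rw [h0] at hJ1
    refine D.decode hX hY hsum (J := 0) (R := 0) hd ?_ ?_ ?_
    · simp [low]
    · rw [D.b0]; push_cast; omega
    · rw [D.b0]
      have h1 := D.dec0
      unfold KK at hJ1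
      rw [D.N0] at hJ1
      push_cast
      have : (d : ℤ) < D.q 0 := by exact_mod_cast (by omega : d < D.q 0)
      linarith
  · obtain ⟨k, hk⟩ : ∃ k, Nat.find hex = k + 1 := ⟨Nat.find hex - 1, by omega⟩
    rw [hk] at hJ1
    have h2 := Nat.find_min hex (m := k) (by omega)
    rw [not_le] at h2
    have hb : (0 : ℤ) < D.b (k + 1) := by exact_mod_cast D.bpos (k + 1)
    refine D.decode hX hY hsum (J := k + 1) hd (D.sum_low k) ?_ ?_
    · apply mul_lt_mul_of_pos_right _ hb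
      exact_mod_cast h2
    · have h3 := D.dec k
      have h4 : ((D.KK (k + 1) + D.KK k : ℕ) : ℤ) * D.b (k + 1) < D.q (k + 1) := by
        unfold KK; exact_mod_cast h3
      have h5 : (d : ℤ) * D.b (k + 1) ≤ (D.KK (k + 1) : ℤ) * D.b (k + 1) :=
        mul_le_mul_of_nonneg_right (by exact_mod_cast hJ1) hb.le
      push_cast at h4
      linarith

lemma admissible : Adm D.A := by
  intro X Y hX hY _ _ hsum
  rcases le_total Y.card X.card with h | h
  · exact D.card_eq_of_le hX hY hsum h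
  · exact (D.card_eq_of_le hY hX hsum.symm h).symm

lemma first_mem (k : ℕ) : D.b k + D.q k ∈ D.blk k := by
  rw [mem_blk, mem_ap1]
  exact Or.inl ⟨1, le_rfl, D.mpos k, by ring⟩

lemma le_b (k : ℕ) : k ≤ D.b k := by
  induction k with
  | zero => omega
  | succ k ih =>
    have h1 := D.q_le_b k
    have h2 := D.qpos k
    omega

lemma infinite : D.A.Infinite := by
  rw [Set.infinite_iff_exists_gt]
  intro N
  refine ⟨D.b (N + 1) + D.q (N + 1), ⟨_, D.first_mem _⟩, ?_⟩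
  have := D.le_b (N + 1)
  omega

/-- the enumeration -/
noncomputable def a (i : ℕ) : ℕ := Nat.nth (fun x => x ∈ D.A) i

lemma inf' : {x | x ∈ D.A}.Infinite := D.infinite

lemma a_mono : StrictMono D.a := Nat.nth_strictMono D.inf'

lemma a_mem (i : ℕ) : D.a i ∈ D.A := Nat.nth_mem_of_infinite D.inf' i

lemma range_a : Set.range D.a = D.A := Nat.range_nth_of_infinite D.inf'

lemma A_pos {x : ℕ} (hx : x ∈ D.A) : 0 < x := by
  obtain ⟨k, hk⟩ := hx
  have h1 := D.blk_ge hk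
  have h2 := D.bpos k
  omega

/-- consecutive elements -/
lemma next_le {i y : ℕ} (hy : y ∈ D.A) (hlt : D.a i < y) : D.a (i + 1) ≤ y := by
  rw [← D.range_a] at hy
  obtain ⟨k, rfl⟩ := hy
  have := D.a_mono.lt_iff_lt.mp hlt
  exact D.a_mono.monotone this

lemma card_le_index {i : ℕ} {S : Finset ℕ} (hS : (S : Set ℕ) ⊆ D.A) (hle : ∀ x ∈ S, x ≤ D.a i) :
    S.card ≤ i + 1 := by
  have : S ⊆ (range (i + 1)).image D.a := by
    intro x hx
    have h1 := hS hx
    rw [← D.range_a] at h1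
    obtain ⟨k, rfl⟩ := h1
    have := D.a_mono.le_iff_le.mp (hle _ hx)
    rw [mem_image]
    exact ⟨k, by rw [mem_range]; omega, rfl⟩
  refine (card_le_card this).trans (card_image_le.trans ?_)
  simp

/-- The gap bound. -/
lemma gap (g : ℕ → ℝ) (hg : Monotone g)
    (hq : ∀ k, (D.q (k + 1) : ℝ) ≤ g (D.n k)) (hQ : ∀ k, (D.Q k : ℝ) ≤ g (D.m k)) {i : ℕ}
    (hi : D.b 1 + D.q 1 < i) :
    (D.a (i + 1) : ℝ) - D.a i ≤ g (i + 1) := by
  obtain ⟨k, hk⟩ := D.a_mem i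
  -- `k ≥ 1`
  have hk1 : 1 ≤ k := by
    rcases Nat.eq_zero_or_pos k with h | h
    · exfalso
      subst h
      have h1 := D.blk_lt hk
      have h2 : i ≤ D.a i := D.a_mono.id_le i
      rw [zero_add] at h1
      omega
    · exact h
  obtain ⟨I, rfl⟩ : ∃ I, k = I + 1 := ⟨k - 1, by omega⟩
  have hge := D.blk_ge hk
  -- the index is at least `n I`
  have hidx : D.n I ≤ i + 1 := by
    rw [← D.ap3_card I]
    apply D.card_le_index
    · intro x hx; exact ⟨I, D.mem_blk.mpr (Or.inr (Or.inr hx))⟩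
    · intro x hx
      have := D.blk_lt (D.mem_blk.mpr (Or.inr (Or.inr hx)))
      omega
  have hsmall : ∀ y, y ∈ D.A → D.a i < y → y ≤ D.a i + D.q (I + 1) →
      (D.a (i + 1) : ℝ) - D.a i ≤ g (i + 1) := by
    intro y hy h1 h2
    have h3 := D.next_le hy h1
    have h4 : (D.a (i + 1) : ℝ) ≤ D.a i + D.q (I + 1) := by exact_mod_cast h3.trans h2
    have h5 := (hq I).trans (hg hidx)
    linarith
  have hbig : D.m (I + 1) ≤ i + 1 → ∀ y, y ∈ D.A → D.a i < y → y ≤ D.a i + D.Q (I + 1) →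
      (D.a (i + 1) : ℝ) - D.a i ≤ g (i + 1) := by
    intro h0 y hy h1 h2
    have h3 := D.next_le hy h1
    have h4 : (D.a (i + 1) : ℝ) ≤ D.a i + D.Q (I + 1) := by exact_mod_cast h3.trans h2
    have h5 := (hQ (I + 1)).trans (hg h0)
    linarith
  have hqp := D.qpos (I + 1)
  have hQp := D.Qpos (I + 1)
  have hmem := hk
  rw [mem_blk] at hmem
  rcases hmem with hx | hx | hx
  · rw [mem_ap1] at hx
    obtain ⟨j, h1, h2, hx⟩ := hx
    rcases Nat.lt_or_ge j (D.m (I + 1)) with hlt | hge2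
    · apply hsmall (D.b (I + 1) + D.q (I + 1) * (j + 1))
      · exact ⟨I + 1, D.mem_blk.mpr (Or.inl (D.mem_ap1.mpr ⟨j + 1, by omega, by omega, rfl⟩))⟩
      · rw [hx, mul_add]; omega
      · rw [hx, mul_add]; omega
    · have hj : j = D.m (I + 1) := by omega
      subst hj
      apply hbig _ (D.b (I + 1) + D.q (I + 1) * D.m (I + 1) + D.Q (I + 1) * 1)
      · exact ⟨I + 1, D.mem_blk.mpr (Or.inr (Or.inl
          (D.mem_ap2.mpr ⟨1, le_rfl, D.mpos _, rfl⟩)))⟩
      · rw [hx]; omega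
      · rw [hx]; omega
      · rw [← D.ap1_card (I + 1)]
        apply D.card_le_index
        · intro x hx; exact ⟨I + 1, D.mem_blk.mpr (Or.inl hx)⟩
        · intro x hx'
          rw [mem_ap1] at hx'
          obtain ⟨j', h3, h4, rfl⟩ := hx'
          rw [hx]
          have : D.q (I + 1) * j' ≤ D.q (I + 1) * D.m (I + 1) := Nat.mul_le_mul_left _ h4
          omega
  · rw [mem_ap2] at hx
    obtain ⟨j, h1, h2, hx⟩ := hx
    rcases Nat.lt_or_ge j (D.m (I + 1)) with hlt | hge2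
    · apply hbig _ (D.b (I + 1) + D.q (I + 1) * D.m (I + 1) + D.Q (I + 1) * (j + 1))
      · exact ⟨I + 1, D.mem_blk.mpr (Or.inr (Or.inl
          (D.mem_ap2.mpr ⟨j + 1, by omega, by omega, rfl⟩)))⟩
      · rw [hx, mul_add]; omega
      · rw [hx, mul_add]; omega
      · rw [← D.ap1_card (I + 1)]
        apply D.card_le_index
        · intro x hx; exact ⟨I + 1, D.mem_blk.mpr (Or.inl hx)⟩
        · intro x hx'
          rw [mem_ap1] at hx'
          obtain ⟨j', h3, h4, rfl⟩ := hx'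
          rw [hx]
          have : D.q (I + 1) * j' ≤ D.q (I + 1) * D.m (I + 1) := Nat.mul_le_mul_left _ h4
          omega
    · have hj : j = D.m (I + 1) := by omega
      subst hj
      have hbs := D.bs (I + 1)
      apply hsmall (D.b (I + 1 + 1) + D.q (I + 1) * 1)
      · exact ⟨I + 1, D.mem_blk.mpr (Or.inr (Or.inr
          (D.mem_ap3.mpr ⟨1, le_rfl, D.npos _, rfl⟩)))⟩
      · rw [hx]; omega
      · rw [hx]; omega
  · rw [mem_ap3] at hx
    obtain ⟨j, h1, h2, hx⟩ := hx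
    rcases Nat.lt_or_ge j (D.n (I + 1)) with hlt | hge2
    · apply hsmall (D.b (I + 1 + 1) + D.q (I + 1) * (j + 1))
      · exact ⟨I + 1, D.mem_blk.mpr (Or.inr (Or.inr
          (D.mem_ap3.mpr ⟨j + 1, by omega, by omega, rfl⟩)))⟩
      · rw [hx, mul_add]; omega
      · rw [hx, mul_add]; omega
    · have hj : j = D.n (I + 1) := by omega
      subst hj
      have h3 := D.big (I + 1)
      have hidx2 : D.n (I + 1) ≤ i + 1 := by
        rw [← D.ap3_card (I + 1)]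
        apply D.card_le_index
        · intro x hx; exact ⟨I + 1, D.mem_blk.mpr (Or.inr (Or.inr hx))⟩
        · intro x hx'
          rw [mem_ap3] at hx'
          obtain ⟨j', h3, h4, rfl⟩ := hx'
          rw [hx]
          have : D.q (I + 1) * j' ≤ D.q (I + 1) * D.n (I + 1) := Nat.mul_le_mul_left _ h4
          omega
      have h4 := D.next_le (i := i) (y := D.b (I + 1 + 1) + D.q (I + 1 + 1))
        ⟨I + 1 + 1, D.first_mem _⟩ (by rw [hx]; omega)
      have h5 : (D.a (i + 1) : ℝ) ≤ D.a i + D.q (I + 1 + 1) := by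
        have : D.a (i + 1) ≤ D.a i + D.q (I + 1 + 1) := by rw [hx] at *; omega
        exact_mod_cast this
      have h6 := (hq (I + 1)).trans (hg hidx2)
      linarith

end Data

end Pool.Agent.Gap59
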