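import Mathlib

set_option autoImplicit false
set_option maxHeartbeats 1000000

namespace Pool.Agent.Gap59

open Finset

/-- number of elements of `U` below `g` -/
def cntU (U : Finset ℕ) (g : ℕ) : ℕ := (U.filter (fun i => i < g)).card

lemma cntU_mono (U : Finset ℕ) {g g' : ℕ} (h : g ≤ g') : cntU U g ≤ cntU U g' := by
  unfold cntU
  apply card_le_card
  intro i hi
  rw [mem_filter] at hi ⊢
  exact ⟨hi.1, by omega⟩

lemma cntU_le (U : Finset ℕ) (g : ℕ) : cntU U g ≤ g := by
  unfold cntU
  calc (U.filter (fun i => i < g)).card ≤ (range g).card := by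
        apply card_le_card
        intro i hi
        rw [mem_filter] at hi
        rw [mem_range]; exact hi.2
    _ = g := card_range g

lemma cntU_sub (U : Finset ℕ) {g' g : ℕ} (h : g' ≤ g) :
    (U.filter (fun i => g' ≤ i ∧ i < g)).card = cntU U g - cntU U g' := by
  have : cntU U g = cntU U g' + (U.filter (fun i => g' ≤ i ∧ i < g)).card := by
    unfold cntU
    rw [← card_union_of_disjoint]
    · congr 1
      ext i
      simp only [mem_filter, mem_union]
      constructor
      · rintro ⟨h1, h2⟩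
        rcases Nat.lt_or_ge i g' with h3 | h3
        · exact Or.inl ⟨h1, h3⟩
        · exact Or.inr ⟨h1, h3, h2⟩
      · rintro (⟨h1, h2⟩ | ⟨h1, h2, h3⟩)
        · exact ⟨h1, by omega⟩
        · exact ⟨h1, h3⟩
    · rw [disjoint_left]
      intro i h1 h2
      rw [mem_filter] at h1 h2
      omega
  omega

open Classical in
/-- starting points of windows `[j+1, j+t-3]` contained in `U ∩ [0,g)`, with `g' ≤ j` -/
noncomputable def starts (U : Finset ℕ) (g' g t : ℕ) : Finset ℕ :=
  (Ico g' g).filter (fun j => ∀ i, j + 1 ≤ i → i + 3 ≤ j + t → i ∈ U ∧ i < g)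

/-- the capacity -/
noncomputable def cap (U : Finset ℕ) (g t : ℕ) : ℕ := (starts U 0 g t).card

lemma mem_starts {U : Finset ℕ} {g' g t j : ℕ} :
    j ∈ starts U g' g t ↔ (g' ≤ j ∧ j < g) ∧ ∀ i, j + 1 ≤ i → i + 3 ≤ j + t → i ∈ U ∧ i < g := by
  classical
  unfold starts
  rw [mem_filter, mem_Ico]

lemma starts_card_le {U : Finset ℕ} {g' g t : ℕ} (h : g' ≤ g) (ht : 4 ≤ t) :
    (starts U g' g t).card ≤ cntU U g - cntU U g' + 4 - t := by
  rcases (starts U g' g t).eq_empty_or_nonempty with he | hne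
  · rw [he]; simp
  · set S := starts U g' g t with hS
    set j := S.max' hne with hj
    have hjS : j ∈ S := S.max'_mem hne
    have hsub : S.image (fun x => x + 1) ∪ Icc (j + 2) (j + t - 3) ⊆
        U.filter (fun i => g' ≤ i ∧ i < g) := by
      intro i hi
      rw [mem_union, mem_image, mem_Icc] at hi
      rw [mem_filter]
      rcases hi with ⟨x, hx, rfl⟩ | ⟨h1, h2⟩
      · rw [hS, mem_starts] at hx
        have := hx.2 (x + 1) le_rfl (by omega)
        exact ⟨this.1, by omega, this.2⟩
      · rw [hS, mem_starts] at hjS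
        have := hjS.2 i (by omega) (by omega)
        exact ⟨this.1, by omega, this.2⟩
    have hdisj : Disjoint (S.image (fun x => x + 1)) (Icc (j + 2) (j + t - 3)) := by
      rw [disjoint_left]
      intro i h1 h2
      rw [mem_image] at h1
      obtain ⟨x, hx, rfl⟩ := h1
      rw [mem_Icc] at h2
      have := S.le_max' x hx
      omega
    have hcard := card_le_card hsub
    rw [card_union_of_disjoint hdisj, card_image_of_injective _ (fun a b h => by simpa using h),
      Nat.card_Icc, cntU_sub U h] at hcard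
    omega

lemma cap_le (U : Finset ℕ) (g t : ℕ) : cap U g t ≤ g := by
  classical
  unfold cap starts
  refine (card_filter_le _ _).trans ?_
  simp

lemma cap_eq_zero (U : Finset ℕ) {g t : ℕ} (h : g + 3 ≤ t) : cap U g t = 0 := by
  unfold cap
  rw [card_eq_zero, eq_empty_iff_forall_notMem]
  intro j hj
  rw [mem_starts] at hj
  have := hj.2 g (by omega) (by omega)
  omega

lemma cap_base (U : Finset ℕ) {g t : ℕ} (ht : 4 ≤ t) : cap U g t ≤ cntU U g + 4 - t := by
  have h := starts_card_le (U := U) (g' := 0) (g := g) (t := t) (Nat.zero_le _) ht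
  have h0 : cntU U 0 = 0 := by unfold cntU; simp
  unfold cap
  omega

lemma cap_add (U : Finset ℕ) {g' g t : ℕ} (h : g' ≤ g) (hg' : g' ∉ U) (ht : 4 ≤ t) :
    cap U g t ≤ cap U g' t + (cntU U g - cntU U g' + 4 - t) := by
  have hsub : starts U 0 g t ⊆ starts U 0 g' t ∪ starts U g' g t := by
    intro j hj
    rw [mem_union, mem_starts, mem_starts]
    rw [mem_starts] at hj
    rcases Nat.lt_or_ge j g' with h1 | h1
    · left
      refine ⟨⟨by omega, h1⟩, fun i hi1 hi2 => ⟨(hj.2 i hi1 hi2).1, ?_⟩⟩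
      by_contra hcon
      exact hg' (hj.2 g' (by omega) (by omega)).1
    · right
      exact ⟨⟨h1, hj.1.2⟩, hj.2⟩
  have := card_le_card hsub
  have h2 := card_union_le (starts U 0 g' t) (starts U g' g t)
  have h3 := starts_card_le (U := U) h ht
  unfold cap
  omega

/-- the largest `t` with `t ≤ cap U g t` -/
noncomputable def Tm (U : Finset ℕ) (g : ℕ) : ℕ := Nat.findGreatest (fun t => t ≤ cap U g t) (g + 3)

lemma Tm_spec (U : Finset ℕ) (g : ℕ) : Tm U g ≤ cap U g (Tm U g) := by
  unfold Tm
  exact Nat.findGreatest_spec (P := fun t => t ≤ cap U g t) (m := 0) (Nat.zero_le _) (Nat.zero_le _)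

lemma Tm_le (U : Finset ℕ) (g : ℕ) : Tm U g ≤ g := (Tm_spec U g).trans (cap_le U g _)

lemma lt_of_Tm_lt (U : Finset ℕ) {g t : ℕ} (h : Tm U g < t) : cap U g t < t := by
  rcases Nat.lt_or_ge (g + 3) t with h1 | h1
  · rw [cap_eq_zero U (by omega)]; omega
  · by_contra hcon
    rw [not_lt] at hcon
    have := Nat.le_findGreatest (P := fun t => t ≤ cap U g t) h1 hcon
    unfold Tm at h
    omega

lemma le_Tm (U : Finset ℕ) {g t : ℕ} (h : t ≤ cap U g t) : t ≤ Tm U g := by
  by_contra hcon
  rw [not_le] at hcon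
  have := lt_of_Tm_lt U hcon
  omega

lemma exists_nxt (U : Finset ℕ) (p : ℕ) : ∃ g, p < g ∧ g ∉ U := by
  obtain ⟨g, hg⟩ := Infinite.exists_notMem_finset (U ∪ range (p + 1))
  rw [mem_union, mem_range, not_or] at hg
  exact ⟨g, by omega, hg.1⟩

open Classical in
/-- first hole after `p` -/
noncomputable def nxt (U : Finset ℕ) (p : ℕ) : ℕ := Nat.find (exists_nxt U p)

lemma lt_nxt (U : Finset ℕ) (p : ℕ) : p < nxt U p := by
  classical
  exact (Nat.find_spec (exists_nxt U p)).1

lemma nxt_notMem (U : Finset ℕ) (p : ℕ) : nxt U p ∉ U := by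
  classical
  exact (Nat.find_spec (exists_nxt U p)).2

lemma mem_of_lt_nxt (U : Finset ℕ) {p i : ℕ} (h1 : p < i) (h2 : i < nxt U p) : i ∈ U := by
  classical
  have := Nat.find_min (exists_nxt U p) h2
  by_contra hcon
  exact this ⟨h1, hcon⟩

end Pool.Agent.Gap59
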