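import Pool.Agent.Lib_helper59.Gap59.RealLemma
import Pool.Agent.Lib_helper59.Gap59.Cap

set_option autoImplicit false
set_option maxHeartbeats 1000000

namespace Pool.Agent.Gap59

open Finset

/-- The combinatorial structure extracted from an admissible set with small gaps. -/
structure Grid (c : ℝ) (τ₀ τ₁ κ : ℕ) (z : ℕ → ℕ) (U : Finset ℕ) : Prop where
  mono : ∀ σ τ, τ₀ ≤ σ → σ ≤ τ → τ ≤ τ₁ → z σ ≤ z τ
  zle : ∀ τ, τ₀ ≤ τ → τ ≤ τ₁ → (z τ : ℝ) ≤ (c + 1) * (τ + 1) + 1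
  lev : ∀ τ, τ₀ ≤ τ → τ ≤ τ₁ → ∃ Z : Finset ℕ, τ ≤ Z.card ∧
    ∀ j ∈ Z, j ≤ z τ ∧ ∀ i, j + 1 ≤ i → i + 3 ≤ j + τ → i ∈ U
  recd : ∀ τ, τ₀ ≤ τ → τ ≤ τ₁ → ∀ i : ℕ, z τ ≤ i →
    (i : ℝ) ≤ z τ + ((z τ : ℝ) - 2) / (c + 1) - 3 → i ∈ U
  gapf : ∀ τ, τ₀ ≤ τ → τ ≤ τ₁ → ∀ i : ℕ, c * ((τ : ℝ) + 1) + 3 ≤ i → i ≤ z τ → i ∈ U
  cnt : ∀ τ, τ₀ ≤ τ → τ ≤ τ₁ → cntU U (z τ + τ + 1) ≤ z τ + 2 + κ

/-- number of holes below `g` -/
def holes (U : Finset ℕ) (g : ℕ) : ℕ := g - cntU U g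

lemma holes_eq (U : Finset ℕ) (g : ℕ) : holes U g = ((range g).filter (fun i => i ∉ U)).card := by
  unfold holes cntU
  have h1 : (U.filter (fun i => i < g)) = (range g).filter (fun i => i ∈ U) := by
    ext i; simp only [mem_filter, mem_range]; tauto
  rw [h1]
  have h2 := card_filter_add_card_filter_not (s := range g) (fun i => i ∈ U)
  rw [card_range] at h2
  omega

lemma holes_add (U : Finset ℕ) (g : ℕ) : holes U g + cntU U g = g := by
  unfold holes; have := cntU_le U g; omega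

lemma holes_mono (U : Finset ℕ) {g g' : ℕ} (h : g ≤ g') : holes U g ≤ holes U g' := by
  rw [holes_eq, holes_eq]
  apply card_le_card
  intro i hi
  rw [mem_filter, mem_range] at hi ⊢
  exact ⟨by omega, hi.2⟩

namespace Grid

variable {c : ℝ} {τ₀ τ₁ κ : ℕ} {z : ℕ → ℕ} {U : Finset ℕ}

lemma z_ge (h : Grid c τ₀ τ₁ κ z U) {τ : ℕ} (h0 : τ₀ ≤ τ) (h1 : τ ≤ τ₁) : τ ≤ z τ + 1 := by
  obtain ⟨Z, hZ, hZ2⟩ := h.lev τ h0 h1
  have : Z ⊆ range (z τ + 1) := by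
    intro j hj
    have := (hZ2 j hj).1
    rw [mem_range]; omega
  have := card_le_card this
  rw [card_range] at this
  omega

lemma z_mem (h : Grid c τ₀ τ₁ κ z U) (hc0 : 0 < c) (hc : c < 4.5616) (ht : 40 ≤ τ₀) {τ : ℕ}
    (h0 : τ₀ ≤ τ) (h1 : τ ≤ τ₁) : z τ ∈ U := by
  apply h.recd τ h0 h1 _ le_rfl
  have e1 := h.z_ge h0 h1
  have e2 : (39 : ℝ) ≤ z τ := by exact_mod_cast (by omega : 39 ≤ z τ)
  have e3 : 3 ≤ ((z τ : ℝ) - 2) / (c + 1) := by
    rw [le_div_iff₀ (by linarith)]; linarith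
  linarith

lemma z_gt (h : Grid c τ₀ τ₁ κ z U) (hc0 : 0 < c) (hc : c < 4.5616) (ht : 40 ≤ τ₀) {τ g : ℕ}
    (h0 : τ₀ ≤ τ) (h1 : τ ≤ τ₁) (hg : g ∉ U) (hT : Tm U g < τ) : g < z τ := by
  by_contra hcon
  rw [not_lt] at hcon
  have hzm := h.z_mem hc0 hc ht h0 h1
  have hlt : z τ < g := by
    rcases Nat.lt_or_ge (z τ) g with h2 | h2
    · exact h2
    · have : z τ = g := by omega
      rw [this] at hzm; exact absurd hzm hg
  obtain ⟨Z, hZ, hZ2⟩ := h.lev τ h0 h1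
  have hsub : Z ⊆ starts U 0 g τ := by
    intro j hj
    rw [mem_starts]
    obtain ⟨h3, h4⟩ := hZ2 j hj
    refine ⟨⟨Nat.zero_le _, by omega⟩, fun i hi1 hi2 => ⟨h4 i hi1 hi2, ?_⟩⟩
    by_contra hge
    exact hg (h4 g (by omega) (by omega))
  have := card_le_card hsub
  have h5 : τ ≤ cap U g τ := by unfold cap; omega
  have := le_Tm U h5
  omega

lemma z_le_nat (h : Grid c τ₀ τ₁ κ z U) (hc : c < 4.5616) {τ : ℕ} (h0 : τ₀ ≤ τ) (h1 : τ ≤ τ₁) :
    z τ ≤ 6 * τ + 7 := by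
  have e1 := h.zle τ h0 h1
  have e2 : (c + 1) * ((τ : ℝ) + 1) + 1 ≤ 6 * τ + 7 := by
    have : (0:ℝ) ≤ τ := Nat.cast_nonneg τ
    nlinarith
  exact_mod_cast e1.trans e2

lemma nxt_le (h : Grid c τ₀ τ₁ κ z U) (hc0 : 0 < c) (hc : c < 4.5616) (ht : 40 ≤ τ₀) {τ : ℕ}
    (h0 : τ₀ ≤ τ) (h1 : 6 * τ + 9 + κ ≤ τ₁) : nxt U (z τ) ≤ 42 * τ + 70 + 7 * κ := by
  have hz := h.z_le_nat hc h0 (by omega)
  have hzge := h.z_ge h0 (by omega)
  set σ := z τ + 2 + κ with hσ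
  have hσ1 : σ ≤ τ₁ := by omega
  have hσ0 : τ₀ ≤ σ := by omega
  have hzσ := h.z_le_nat hc hσ0 hσ1
  have hmono := h.mono τ σ h0 (by omega) hσ1
  have key : nxt U (z τ) ≤ z σ + σ := by
    by_contra hcon
    rw [not_le] at hcon
    have hsub : Icc (z τ) (z σ + σ) ⊆ U.filter (fun i => i < z σ + σ + 1) := by
      intro i hi
      rw [mem_Icc] at hi
      rw [mem_filter]
      refine ⟨?_, by omega⟩
      rcases Nat.lt_or_ge (z τ) i with h2 | h2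
      · exact mem_of_lt_nxt U h2 (by omega)
      · have : i = z τ := by omega
        rw [this]; exact h.z_mem hc0 hc ht h0 (by omega)
    have h3 := card_le_card hsub
    rw [Nat.card_Icc] at h3
    have h4 := h.cnt σ hσ0 hσ1
    unfold cntU at h4
    omega
  omega

/-- The counting inequality at a hole. -/
lemma chainA (h : Grid c τ₀ τ₁ κ z U) (hc0 : 0 < c) {τ g : ℕ}
    (h0 : τ₀ ≤ τ) (h1 : τ ≤ τ₁) (hg : g ∉ U) (hgz : g < z τ) :
    (holes U (nxt U (z τ)) : ℝ) + cntU U g ≤ c * ((τ : ℝ) + 1) + 4 := by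
  set C := ⌈c * ((τ : ℝ) + 1) + 3⌉₊ with hC
  have hCle : (C : ℝ) ≤ c * ((τ : ℝ) + 1) + 4 := by
    have := (Nat.ceil_lt_add_one (a := c * ((τ : ℝ) + 1) + 3) (by positivity)).le
    rw [← hC] at this
    linarith
  have hCge : c * ((τ : ℝ) + 1) + 3 ≤ C := Nat.le_ceil _
  have hmem : ∀ i, C ≤ i → i ≤ z τ → i ∈ U := by
    intro i hi1 hi2
    apply h.gapf τ h0 h1 i _ hi2
    have : (C : ℝ) ≤ i := by exact_mod_cast hi1
    linarith
  have hgC : g < C := by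
    by_contra hcon
    exact hg (hmem g (by omega) hgz.le)
  have hholes : holes U (nxt U (z τ)) ≤ holes U C := by
    rw [holes_eq, holes_eq]
    apply card_le_card
    intro i hi
    rw [mem_filter, mem_range] at hi ⊢
    refine ⟨?_, hi.2⟩
    by_contra hcon
    rw [not_lt] at hcon
    rcases Nat.lt_or_ge (z τ) i with h2 | h2
    · exact hi.2 (mem_of_lt_nxt U h2 hi.1)
    · exact hi.2 (hmem i hcon h2)
  have h3 := holes_add U C
  have h4 := cntU_mono U hgC.le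
  have h5 : holes U (nxt U (z τ)) + cntU U g ≤ C := by omega
  have h6 : ((holes U (nxt U (z τ)) + cntU U g : ℕ) : ℝ) ≤ C := by exact_mod_cast h5
  push_cast at h6
  linarith

/-- The lower bound for the number of holes. -/
lemma holes_ge (h : Grid c τ₀ τ₁ κ z U) (hc0 : 9 / 2 ≤ c) (hc : c < 4.5616) (ht : 40 ≤ τ₀) {τ t : ℕ}
    (h0 : τ₀ ≤ τ) (hτt : τ ≤ t) (h1 : t + 1 ≤ τ₁) (hz : nxt U (z τ) ≤ z (t + 1)) :
    (cntU U (nxt U (z τ)) : ℝ) - (34 + 7 * κ) ≤ (c + 1) * holes U (nxt U (z τ)) := by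
  classical
  set g := nxt U (z τ) with hgdef
  have hgU : g ∉ U := nxt_notMem U _
  have hκ : (0 : ℝ) ≤ κ := Nat.cast_nonneg κ
  -- choose the last time before the jump over `g`
  obtain ⟨σ, hσ0, hσ1, hσ2, hσ3⟩ : ∃ σ, τ ≤ σ ∧ σ ≤ t ∧ z σ < g ∧ g ≤ z (σ + 1) := by
    have hex : ∃ s, τ ≤ s ∧ g ≤ z (s + 1) := ⟨t, hτt, hz⟩
    have hs := Nat.find_spec hex
    have hmin := fun m hm => Nat.find_min hex (m := m) hm
    have hle : Nat.find hex ≤ t := Nat.find_min' hex ⟨hτt, hz⟩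
    refine ⟨Nat.find hex, hs.1, hle, ?_, hs.2⟩
    rcases Nat.eq_or_lt_of_le hs.1 with he | hlt
    · rw [← he]; exact lt_nxt U _
    · have h2 := hmin (Nat.find hex - 1) (by omega)
      rw [not_and, not_le] at h2
      have h3 := h2 (by omega)
      rwa [Nat.sub_add_cancel (by omega)] at h3
  have hcnt := h.cnt σ (by omega) (by omega)
  have hadd := holes_add U g
  have haddR : (holes U g : ℝ) + cntU U g = g := by exact_mod_cast hadd
  have hH0 : (0 : ℝ) ≤ holes U g := Nat.cast_nonneg _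
  rcases Nat.lt_or_ge (z σ + σ + 1) g with hcase | hcase
  · -- case 2
    have h2 := holes_add U (z σ + σ + 1)
    have h3 := holes_mono U hcase.le
    have h4 : σ ≤ holes U g + 1 + κ := by omega
    have h4R : (σ : ℝ) ≤ holes U g + 1 + κ := by exact_mod_cast h4
    have h5 : (g : ℝ) < c * (((σ + 1 : ℕ) : ℝ) + 1) + 3 := by
      by_contra hcon
      rw [not_lt] at hcon
      exact hgU (h.gapf (σ + 1) (by omega) (by omega) g hcon hσ3)
    push_cast at h5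
    have h6 : (cntU U g : ℝ) ≤ g := by linarith
    have h7 : c * (σ : ℝ) ≤ c * (holes U g + 1 + κ) := mul_le_mul_of_nonneg_left h4R (by linarith)
    have h8 : c * κ ≤ 7 * κ := mul_le_mul_of_nonneg_right (by linarith) hκ
    nlinarith
  · -- case 1
    have h2 : cntU U g ≤ z σ + 2 + κ := (cntU_mono U hcase).trans hcnt
    have h2R : (cntU U g : ℝ) ≤ z σ + 2 + κ := by exact_mod_cast h2
    have h3 : (z σ : ℝ) + ((z σ : ℝ) - 2) / (c + 1) - 3 < g := by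
      by_contra hcon
      rw [not_lt] at hcon
      exact hgU (h.recd σ (by omega) (by omega) g hσ2.le hcon)
    have h4 : ((z σ : ℝ) - 2) / (c + 1) - 5 - κ ≤ holes U g := by linarith
    have h5 : ((z σ : ℝ) - 2) / (c + 1) * (c + 1) = z σ - 2 := by
      field_simp
    have h6 : (((z σ : ℝ) - 2) / (c + 1) - 5 - κ) * (c + 1) ≤ holes U g * (c + 1) :=
      mul_le_mul_of_nonneg_right h4 (by linarith)
    have h7 : (5 + κ) * (c + 1) ≤ 6 * (5 + (κ : ℝ)) := by nlinarith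
    nlinarith

end Grid

end Pool.Agent.Gap59
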