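import Mathlib

set_option autoImplicit false

namespace Pool.Agent.Gap59

/-- `S_r(A)`: the set of sums of `r` distinct elements of `A`. -/
def sumsOf (r : ℕ) (A : Set ℕ) : Set ℕ :=
  {y | ∃ X : Finset ℕ, (X : Set ℕ) ⊆ A ∧ X.card = r ∧ ∑ x ∈ X, x = y}

/-- `A` is admissible if `S_r(A)` and `S_s(A)` are disjoint whenever `1 ≤ r < s`. -/
def Admissible (A : Set ℕ) : Prop :=
  ∀ r s : ℕ, 1 ≤ r → r < s → sumsOf r A ∩ sumsOf s A = ∅

/-- The real number `c` is attainable: there are positive integers `a 0 < a 1 < a 2 < ⋯` (so that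
`a n` is the element called `a_{n+1}` in the problem) forming an admissible set, such that
`a_{n+1} - a_n ≤ n ^ c` for all sufficiently large `n`. -/
def Attainable (c : ℝ) : Prop :=
  ∃ a : ℕ → ℕ, StrictMono a ∧ 0 < a 0 ∧ Admissible (Set.range a) ∧
    ∃ n₀ : ℕ, ∀ n ≥ n₀, (a (n + 1) : ℝ) - (a n : ℝ) ≤ ((n : ℝ) + 1) ^ c

end Pool.Agent.Gap59
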