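import Pool.Agent.Lib_helper59.Gap59.Levels
import Pool.Agent.Lib_helper59.Gap59.Chain

set_option autoImplicit false
set_option maxHeartbeats 1000000

namespace Pool.Agent.Gap59

open Finset

/-- A sequence witnessing attainability. -/
structure GapSeq (c : ℝ) (a : ℕ → ℕ) (n₀ : ℕ) : Prop where
  mono : StrictMono a
  pos : 0 < a 0
  adm : Adm (Set.range a)
  gap : ∀ n ≥ n₀, (a (n + 1) : ℝ) - (a n : ℝ) ≤ ((n : ℝ) + 1) ^ c

namespace GapSeq

variable {c : ℝ} {a : ℕ → ℕ} {n₀ : ℕ}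

lemma growth (h : GapSeq c a n₀) (hc : 0 ≤ c) (n : ℕ) :
    (a n : ℝ) ≤ a n₀ + (n : ℝ) * (n : ℝ) ^ c := by
  rcases Nat.lt_or_ge n n₀ with h1 | h1
  · have : (a n : ℝ) ≤ a n₀ := by exact_mod_cast h.mono.monotone h1.le
    have h2 : (0 : ℝ) ≤ (n : ℝ) * (n : ℝ) ^ c := by positivity
    linarith
  · induction n, h1 using Nat.le_induction with
    | base =>
      have h2 : (0 : ℝ) ≤ (n₀ : ℝ) * (n₀ : ℝ) ^ c := by positivity
      linarith
    | succ n hn ih =>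
      have h2 := h.gap n hn
      have h3 : (n : ℝ) ^ c ≤ ((n : ℝ) + 1) ^ c :=
        Real.rpow_le_rpow (Nat.cast_nonneg n) (by linarith) hc
      have h4 : (n : ℝ) * (n : ℝ) ^ c ≤ (n : ℝ) * ((n : ℝ) + 1) ^ c :=
        mul_le_mul_of_nonneg_left h3 (Nat.cast_nonneg n)
      push_cast
      linarith

end GapSeq

open Classical in
/-- elements of the sequence in the window `[b^i, b^(i+1))` -/
noncomputable def win (a : ℕ → ℕ) (b i : ℕ) : Finset ℕ :=
  (Ico (b ^ i) (b ^ (i + 1))).filter (fun x => x ∈ Set.range a)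

lemma mem_win {a : ℕ → ℕ} {b i x : ℕ} :
    x ∈ win a b i ↔ (b ^ i ≤ x ∧ x < b ^ (i + 1)) ∧ x ∈ Set.range a := by
  classical
  unfold win
  rw [mem_filter, mem_Ico]

/-- first window with at least `b^τ` elements -/
noncomputable def zf (a : ℕ → ℕ) (b τ : ℕ) : ℕ := sInf {i | b ^ τ ≤ (win a b i).card}

/-- Hypotheses on the base. -/
structure Base (c : ℝ) (a : ℕ → ℕ) (n₀ : ℕ) (b M τ₁ : ℕ) : Prop where
  seq : GapSeq c a n₀
  c1 : 9 / 2 ≤ c
  c2 : c < 4.5616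
  hb : b = 16 * M
  hM : 1 ≤ M
  ha : a n₀ + 1 < b
  hτ : 8 * (8 * τ₁ + 40) ≤ b
  h16 : 16 ^ (8 * τ₁ + 40) < b

namespace Base

variable {c : ℝ} {a : ℕ → ℕ} {n₀ b M τ₁ : ℕ}

lemma b_ge (h : Base c a n₀ b M τ₁) : 320 ≤ b := by have := h.hτ; omega

lemma low (h : Base c a n₀ b M τ₁) {n v k : ℕ} (hn : n < b ^ v) (hk : (v : ℝ) * (c + 1) + 1 ≤ k) :
    a n < b ^ k := by
  have hb := h.b_ge
  have hB : (1 : ℝ) ≤ b := by exact_mod_cast (by omega : 1 ≤ b)
  have hB0 : (0 : ℝ) < b := by linarith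
  have hc := h.c1
  have h1 := h.seq.growth (by linarith) n
  have hn' : (n : ℝ) ≤ (b : ℝ) ^ v := by exact_mod_cast hn.le
  have h2 : (n : ℝ) * (n : ℝ) ^ c ≤ (b : ℝ) ^ v * ((b : ℝ) ^ v) ^ c :=
    mul_le_mul hn' (Real.rpow_le_rpow (Nat.cast_nonneg n) hn' (by linarith)) (by positivity)
      (by positivity)
  have h3 : (b : ℝ) ^ v * ((b : ℝ) ^ v) ^ c = (b : ℝ) ^ ((v : ℝ) * (c + 1)) := by
    rw [← Real.rpow_natCast, ← Real.rpow_mul hB0.le, ← Real.rpow_add hB0]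
    congr 1; ring
  rw [h3] at h2
  set X := (b : ℝ) ^ ((v : ℝ) * (c + 1)) with hX
  have hX1 : 1 ≤ X := Real.one_le_rpow hB (by positivity)
  have ha : (a n₀ : ℝ) + 1 < b := by exact_mod_cast h.ha
  have ha0 : (0 : ℝ) ≤ a n₀ := Nat.cast_nonneg _
  have h4 : (a n : ℝ) < b * X := by nlinarith
  have h5 : (b : ℝ) * X ≤ (b : ℝ) ^ (k : ℝ) := by
    have : (b : ℝ) * X = (b : ℝ) ^ ((v : ℝ) * (c + 1) + 1) := by
      rw [Real.rpow_add hB0, Real.rpow_one, hX]; ring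
    rw [this]
    exact Real.rpow_le_rpow_of_exponent_le hB hk
  rw [Real.rpow_natCast] at h5
  have h6 : (a n : ℝ) < ((b ^ k : ℕ) : ℝ) := by push_cast; linarith
  exact_mod_cast h6

lemma a_pos (h : Base c a n₀ b M τ₁) (n : ℕ) : 1 ≤ a n := by
  have h1 := h.seq.pos
  have h2 := h.seq.mono.monotone (Nat.zero_le n)
  omega

/-- every element lies in a window -/
lemma mem_win_log (h : Base c a n₀ b M τ₁) (n : ℕ) : a n ∈ win a b (Nat.log b (a n)) := by
  have hb := h.b_ge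
  have h1 := h.a_pos n
  rw [mem_win]
  exact ⟨⟨Nat.pow_log_le_self b (by omega), Nat.lt_pow_succ_log_self (by omega) _⟩, ⟨n, rfl⟩⟩

lemma image_sub (h : Base c a n₀ b M τ₁) {n k : ℕ} (hk : ∀ m < n, a m < b ^ k) :
    (range n).image a ⊆ (range k).biUnion (win a b) := by
  have hb := h.b_ge
  intro x hx
  rw [mem_image] at hx
  obtain ⟨m, hm, rfl⟩ := hx
  rw [mem_range] at hm
  rw [mem_biUnion]
  refine ⟨Nat.log b (a m), ?_, h.mem_win_log m⟩
  rw [mem_range]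
  exact Nat.log_lt_of_lt_pow (by have := h.a_pos m; omega) (hk m hm)

lemma card_image_a (h : Base c a n₀ b M τ₁) (n : ℕ) : ((range n).image a).card = n := by
  rw [card_image_of_injective _ h.seq.mono.injective, card_range]

lemma exists_win (h : Base c a n₀ b M τ₁) {τ : ℕ} (hτ : τ ≤ τ₁) :
    ∃ i : ℕ, (i : ℝ) ≤ (c + 1) * ((τ : ℝ) + 1) + 1 ∧ b ^ τ ≤ (win a b i).card := by
  have hb := h.b_ge
  have hc1 := h.c1
  have hc2 := h.c2
  set k := ⌈(c + 1) * ((τ : ℝ) + 1) + 1⌉₊ with hk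
  have hkle : (c + 1) * ((τ : ℝ) + 1) + 1 ≤ k := Nat.le_ceil _
  have hklt : (k : ℝ) < (c + 1) * ((τ : ℝ) + 1) + 1 + 1 := Nat.ceil_lt_add_one (by positivity)
  have hkb : k ≤ b := by
    have h1 : (k : ℝ) ≤ 6 * τ + 8 := by
      have : (0 : ℝ) ≤ τ := Nat.cast_nonneg τ
      nlinarith
    have h2 : k ≤ 6 * τ + 8 := by exact_mod_cast h1
    have := h.hτ
    omega
  by_contra hcon
  push Not at hcon
  have hlow : ∀ m < b ^ (τ + 1), a m < b ^ k := by
    intro m hm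
    apply h.low hm
    push_cast
    linarith
  have h1 := card_le_card (h.image_sub hlow)
  rw [h.card_image_a] at h1
  have hbτ : 0 < b ^ τ := Nat.pow_pos (by omega)
  have h2 : ((range k).biUnion (win a b)).card ≤ k * (b ^ τ - 1) := by
    refine card_biUnion_le.trans ?_
    refine (sum_le_card_nsmul _ _ (b ^ τ - 1) ?_).trans (by simp)
    intro i hi
    rw [mem_range] at hi
    have hi2 : (i : ℝ) ≤ (c + 1) * ((τ : ℝ) + 1) + 1 := by
      have : (i : ℝ) + 1 ≤ k := by exact_mod_cast hi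
      linarith
    have := hcon i hi2
    omega
  have h3 : k * (b ^ τ - 1) ≤ b * (b ^ τ - 1) := Nat.mul_le_mul_right _ hkb
  have h4 : b ^ (τ + 1) = b * b ^ τ := by ring
  have h5 : b * (b ^ τ - 1) < b * b ^ τ := Nat.mul_lt_mul_of_pos_left (by omega) (by omega)
  omega

lemma z_spec (h : Base c a n₀ b M τ₁) {τ : ℕ} (hτ : τ ≤ τ₁) :
    b ^ τ ≤ (win a b (zf a b τ)).card := by
  obtain ⟨i, -, hi⟩ := h.exists_win hτ
  exact Nat.sInf_mem (s := {i | b ^ τ ≤ (win a b i).card}) ⟨i, hi⟩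

lemma z_min {τ i : ℕ} (hi : i < zf a b τ) : (win a b i).card < b ^ τ := by
  by_contra hcon
  exact Nat.notMem_of_lt_sInf hi (not_lt.mp hcon)

lemma z_le (h : Base c a n₀ b M τ₁) {τ : ℕ} (hτ : τ ≤ τ₁) :
    (zf a b τ : ℝ) ≤ (c + 1) * ((τ : ℝ) + 1) + 1 := by
  obtain ⟨i, hi1, hi2⟩ := h.exists_win hτ
  have : zf a b τ ≤ i := Nat.sInf_le hi2
  have : (zf a b τ : ℝ) ≤ i := by exact_mod_cast this
  linarith

lemma z_le_nat (h : Base c a n₀ b M τ₁) {τ : ℕ} (hτ : τ ≤ τ₁) : zf a b τ ≤ 6 * τ + 7 := by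
  have h1 := h.z_le hτ
  have hc1 := h.c1
  have hc2 := h.c2
  have : (0 : ℝ) ≤ τ := Nat.cast_nonneg τ
  have h2 : (zf a b τ : ℝ) ≤ 6 * τ + 7 := by nlinarith
  exact_mod_cast h2

lemma z_mono (h : Base c a n₀ b M τ₁) {σ τ : ℕ} (hστ : σ ≤ τ) (hτ : τ ≤ τ₁) :
    zf a b σ ≤ zf a b τ := by
  apply Nat.sInf_le
  have := h.z_spec hτ
  have hb := h.b_ge
  exact (Nat.pow_le_pow_right (by omega) hστ).trans this

lemma index_lt (h : Base c a n₀ b M τ₁) {τ n : ℕ} (hτ : τ ≤ τ₁) (hn : a n < b ^ zf a b τ) :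
    n < b ^ (τ + 1) := by
  have hb := h.b_ge
  have h0 := h.z_le_nat hτ
  have h8 := h.hτ
  have h1 := card_le_card (h.image_sub (n := n + 1) (k := zf a b τ) (by
    intro m hm
    have := h.seq.mono.monotone (show m ≤ n by omega)
    omega))
  rw [h.card_image_a] at h1
  have h2 : ((range (zf a b τ)).biUnion (win a b)).card ≤ zf a b τ * b ^ τ := by
    refine card_biUnion_le.trans ?_
    refine (sum_le_card_nsmul _ _ (b ^ τ) ?_).trans (by simp)
    intro i hi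
    rw [mem_range] at hi
    exact (z_min hi).le
  have h3 : zf a b τ * b ^ τ ≤ b * b ^ τ := Nat.mul_le_mul_right _ (by omega)
  have h4 : b ^ (τ + 1) = b * b ^ τ := by ring
  omega

lemma gap_le (h : Base c a n₀ b M τ₁) {τ n e : ℕ} (hτ : τ ≤ τ₁) (hn : a n < b ^ zf a b τ)
    (hn0 : n₀ ≤ n) (he : c * ((τ : ℝ) + 1) ≤ e) : a (n + 1) ≤ a n + b ^ e := by
  have hb := h.b_ge
  have hc := h.c1
  have hB : (1 : ℝ) ≤ b := by exact_mod_cast (by omega : 1 ≤ b)
  have h1 := h.index_lt hτ hn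
  have h2 := h.seq.gap n hn0
  have h3 : (n : ℝ) + 1 ≤ (b : ℝ) ^ (τ + 1) := by exact_mod_cast h1
  have h4 : ((n : ℝ) + 1) ^ c ≤ ((b : ℝ) ^ (τ + 1)) ^ c :=
    Real.rpow_le_rpow (by positivity) h3 (by linarith)
  have h5 : ((b : ℝ) ^ (τ + 1)) ^ c ≤ (b : ℝ) ^ e := by
    rw [← Real.rpow_natCast, ← Real.rpow_natCast, ← Real.rpow_mul (by positivity)]
    apply Real.rpow_le_rpow_of_exponent_le hB
    push_cast
    linarith
  have h6 : (a (n + 1) : ℝ) ≤ ((a n + b ^ e : ℕ) : ℝ) := by push_cast; linarith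
  exact_mod_cast h6

/-- single elements fill the cells between the gap size and the location -/
lemma fill_gap (h : Base c a n₀ b M τ₁) {τ i : ℕ} (hτ : τ ≤ τ₁)
    (hi : c * ((τ : ℝ) + 1) + 3 ≤ i) (hi2 : i < zf a b τ) : Fillable (Set.range a) b M i := by
  have hb := h.b_ge
  have hc := h.c1
  have hbM := h.hb
  have hi3 : 3 ≤ i := by
    have : (3 : ℝ) ≤ i := by
      have : 0 ≤ c * ((τ : ℝ) + 1) := by positivity
      linarith
    exact_mod_cast this
  apply fillable_of_dense (by omega) (by omega)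
  intro X hX1 hX2
  have hex : ∃ n, X ≤ a n := ⟨X, h.seq.mono.id_le X⟩
  classical
  have h1 := Nat.find_spec hex
  have hn0 : n₀ < Nat.find hex := by
    by_contra hcon
    rw [not_lt] at hcon
    have h2 := h.seq.mono.monotone hcon
    have h3 := h.ha
    have h4 : b ^ 1 ≤ b ^ i := Nat.pow_le_pow_right (by omega) (by omega)
    rw [pow_one] at h4
    omega
  have h2 := Nat.find_min hex (m := Nat.find hex - 1) (by omega)
  rw [not_le] at h2
  have h3 : b ^ (i + 1) ≤ b ^ zf a b τ := Nat.pow_le_pow_right (by omega) hi2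
  have h4 := h.gap_le (τ := τ) (n := Nat.find hex - 1) (e := i - 3) hτ (by omega) (by omega) (by
    rw [Nat.cast_sub (by omega)]; push_cast; linarith)
  rw [Nat.sub_add_cancel (by omega)] at h4
  have h5 : b ^ (i - 3) ≤ b ^ (i - 2) := Nat.pow_le_pow_right (by omega) (by omega)
  exact ⟨_, ⟨_, rfl⟩, h1, by omega⟩

lemma fill_pairs (h : Base c a n₀ b M τ₁) {i j v : ℕ} (hji : j + 1 ≤ i) (hv : i + 2 ≤ j + v)
    (hp : HasPairs (Set.range a) b j (b ^ v)) : Fillable (Set.range a) b M i := by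
  have hb := h.b_ge
  have hbM := h.hb
  apply fillable_of_pairs (by omega) hji _ hp
  have h1 : (b + 4) * M ≤ b ^ 2 := by rw [hbM]; nlinarith [h.hM]
  calc (b + 4) * (M * b ^ (i - j)) = (b + 4) * M * b ^ (i - j) := by ring
    _ ≤ b ^ 2 * b ^ (i - j) := Nat.mul_le_mul_right _ h1
    _ = b ^ (2 + (i - j)) := by rw [pow_add]
    _ ≤ b ^ v := Nat.pow_le_pow_right (by omega) (by omega)

/-- active levels -/
lemma lev (h : Base c a n₀ b M τ₁) {τ : ℕ} (h1 : 1 ≤ τ) (hτ : τ ≤ τ₁) :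
    ∃ Z : Finset ℕ, τ ≤ Z.card ∧ ∀ j ∈ Z, j ≤ zf a b τ ∧
      ∀ i, j + 1 ≤ i → i + 3 ≤ j + τ → Fillable (Set.range a) b M i := by
  have h0 := h.z_le_nat hτ
  have h8 := h.hτ
  obtain ⟨Z, hZ1, hZ2⟩ := levels (b := b) (τ := τ) (z := zf a b τ) (by omega) h1 (Set.range a)
    (win a b (zf a b τ)) (fun x hx => (mem_win.mp hx).2) (fun x hx => (mem_win.mp hx).1.2)
    (h.z_spec hτ)
  refine ⟨Z, hZ1, fun j hj => ⟨(hZ2 j hj).1, fun i hi1 hi2 => ?_⟩⟩
  exact h.fill_pairs (v := τ - 1) hi1 (by omega) (hZ2 j hj).2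

/-- record location -/
lemma recd (h : Base c a n₀ b M τ₁) {τ : ℕ} (hτ : τ ≤ τ₁) {i : ℕ} (hi1 : zf a b τ < i)
    (hi2 : (i : ℝ) ≤ zf a b τ + ((zf a b τ : ℝ) - 2) / (c + 1) - 3) :
    Fillable (Set.range a) b M i := by
  have hb := h.b_ge
  have hc := h.c1
  set z := zf a b τ with hz
  have hzle := h.z_le hτ
  rw [← hz] at hzle
  have hi1R : (z : ℝ) + 1 ≤ i := by exact_mod_cast hi1
  have hq : 4 ≤ ((z : ℝ) - 2) / (c + 1) := by linarith
  have hz2 : (z : ℝ) - 2 ≥ 4 * (c + 1) := by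
    rw [le_div_iff₀ (by linarith)] at hq; linarith
  have hzge : 2 ≤ z := by
    have : (2 : ℝ) ≤ z := by linarith
    exact_mod_cast this
  set v := ⌊((z : ℝ) - 2) / (c + 1)⌋₊ with hv
  have hv1 : (v : ℝ) ≤ ((z : ℝ) - 2) / (c + 1) := Nat.floor_le (by linarith)
  have hv2 : ((z : ℝ) - 2) / (c + 1) < v + 1 := Nat.lt_floor_add_one _
  have hvτ : v ≤ τ := by
    have h1 : (v : ℝ) < τ + 1 := by
      refine lt_of_le_of_lt hv1 ?_
      rw [div_lt_iff₀ (by linarith)]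
      linarith
    have h2 : v < τ + 1 := by exact_mod_cast h1
    omega
  have hiv : i + 2 ≤ z + v := by
    have h1 : (i : ℝ) + 2 < z + v := by linarith
    have h2 : i + 2 < z + v := by exact_mod_cast h1
    omega
  apply h.fill_pairs (j := z) (v := v) (by omega) hiv
  -- the pairs
  have hlow : ∀ k < b ^ v, a k < b ^ (z - 1) := by
    intro k hk
    apply h.low hk
    rw [Nat.cast_sub (by omega)]
    rw [le_div_iff₀ (by linarith)] at hv1
    push_cast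
    linarith
  have hcard : b ^ v ≤ (win a b z).card :=
    (Nat.pow_le_pow_right (by omega) hvτ).trans (h.z_spec hτ)
  obtain ⟨H, hH1, hH2⟩ := exists_subset_card_eq hcard
  obtain ⟨e, he1, he2⟩ := exists_enum H hH2
  have hew : ∀ k < b ^ v, (b ^ z ≤ e k ∧ e k < b ^ (z + 1)) ∧ e k ∈ Set.range a :=
    fun k hk => mem_win.mp (hH1 (he1 k hk))
  have hpz : 2 * b ^ (z - 1) ≤ b ^ z := by
    have h1 : b ^ z = b * b ^ (z - 1) := by rw [← pow_succ']; congr 1; omega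
    rw [h1]; exact Nat.mul_le_mul_right _ (by omega)
  refine ⟨(range (b ^ v)).image (fun k => (a k, e k)), ?_, ?_, ?_⟩
  · rw [card_image_of_injOn, card_range]
    intro k hk l hl heq
    exact h.seq.mono.injective (congrArg Prod.fst heq)
  · intro q hq
    rw [mem_image] at hq
    obtain ⟨k, hk, rfl⟩ := hq
    rw [mem_range] at hk
    have h1 := hlow k hk
    obtain ⟨⟨h2, h3⟩, h4⟩ := hew k hk
    dsimp only
    exact ⟨⟨k, rfl⟩, h4, by omega, by omega⟩
  · intro q hq q' hq' hne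
    rw [mem_image] at hq hq'
    obtain ⟨k, hk, rfl⟩ := hq
    obtain ⟨k', hk', rfl⟩ := hq'
    rw [mem_range] at hk hk'
    have h1 := hlow k hk
    have h1' := hlow k' hk'
    obtain ⟨⟨h2, h3⟩, h4⟩ := hew k hk
    obtain ⟨⟨h2', h3'⟩, h4'⟩ := hew k' hk'
    have hkk : k ≠ k' := fun hh => hne (by rw [hh])
    have hb1 : 0 < b ^ (z - 1) := Nat.pow_pos (by omega)
    dsimp only
    refine ⟨fun hh => hkk (h.seq.mono.injective hh), by omega, by omega,
      fun hh => hkk (he2 k hk k' hk' hh)⟩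

end Base

end Pool.Agent.Gap59
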