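import Pool.Agent.Lib_helper59.Gap59.Pack

set_option autoImplicit false
set_option maxHeartbeats 1000000

namespace Pool.Agent.Gap59

open Finset

/-- Many disjoint pairs with difference in `[b^j / 2, b^(j+1)]`. -/
def HasPairs (A : Set ℕ) (b j P : ℕ) : Prop :=
  ∃ Q : Finset (ℕ × ℕ), P ≤ Q.card ∧
    (∀ q ∈ Q, q.1 ∈ A ∧ q.2 ∈ A ∧ 2 * q.1 + b ^ j ≤ 2 * q.2 ∧ q.2 ≤ q.1 + b ^ (j + 1)) ∧
    (∀ q ∈ Q, ∀ q' ∈ Q, q ≠ q' → q.1 ≠ q'.1 ∧ q.1 ≠ q'.2 ∧ q.2 ≠ q'.1 ∧ q.2 ≠ q'.2)

lemma exists_enum {α : Type*} [Inhabited α] (Q : Finset α) {L : ℕ} (h : Q.card = L) :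
    ∃ e : ℕ → α, (∀ k < L, e k ∈ Q) ∧ ∀ k < L, ∀ l < L, e k = e l → k = l := by
  classical
  have f := Q.equivFinOfCardEq h
  refine ⟨fun k => if hk : k < L then (f.symm ⟨k, hk⟩ : α) else default, ?_, ?_⟩
  · intro k hk
    simp only [hk, dif_pos]
    exact (f.symm ⟨k, hk⟩).2
  · intro k hk l hl he
    simp only [hk, hl, dif_pos] at he
    have := f.symm.injective (Subtype.ext he)
    simpa using this

/-- discrete intermediate values -/
lemma ivt (s : ℕ → ℕ) (L D : ℕ) (hD : 0 < D) (hs : ∀ l < L, s (l + 1) ≤ s l + D) {X : ℕ}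
    (h0 : s 0 ≤ X) (hL : X ≤ s L) : ∃ l ≤ L, X ≤ s l ∧ s l < X + D := by
  have hex : ∃ l, X ≤ s l := ⟨L, hL⟩
  classical
  have h1 := Nat.find_spec hex
  have h2 : Nat.find hex ≤ L := Nat.find_min' hex hL
  refine ⟨Nat.find hex, h2, h1, ?_⟩
  rcases Nat.eq_zero_or_pos (Nat.find hex) with h3 | h3
  · rw [h3] at h1 ⊢; omega
  · have h4 := Nat.find_min hex (m := Nat.find hex - 1) (by omega)
    have h5 := hs (Nat.find hex - 1) (by omega)
    rw [Nat.sub_add_cancel h3] at h5
    omega

lemma fillable_of_pairs {A : Set ℕ} {b M i j P : ℕ} (hb : 0 < b) (hji : j + 1 ≤ i)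
    (hP : (b + 4) * (M * b ^ (i - j)) ≤ P) (hpairs : HasPairs A b j P) : Fillable A b M i := by
  classical
  obtain ⟨Q, hQ1, hQ2, hQ3⟩ := hpairs
  set L := 4 * (M * b ^ (i - j)) with hL
  refine ⟨L, fun V hV => ?_⟩
  -- pairs avoiding `V`
  set Q' := Q.filter (fun q => q.1 ∉ V ∧ q.2 ∉ V) with hQ'
  have hcardQ' : L ≤ Q'.card := by
    have hbad : (Q.filter (fun q => ¬ (q.1 ∉ V ∧ q.2 ∉ V))).card ≤ V.card := by
      apply card_le_card_of_injOn (fun q => if q.1 ∈ V then q.1 else q.2)
      · intro q hq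
        rw [mem_coe, mem_filter] at hq
        by_cases h : q.1 ∈ V
        · simp only [h, if_true]; exact h
        · simp only [h, if_false]
          by_contra hcon
          exact hq.2 ⟨h, hcon⟩
      · intro q hq q' hq' heq
        rw [mem_coe, mem_filter] at hq hq'
        by_contra hne
        obtain ⟨h1, h2, h3, h4⟩ := hQ3 q hq.1 q' hq'.1 hne
        dsimp only at heq
        split_ifs at heq
        · exact h1 heq
        · exact h2 heq
        · exact h3 heq
        · exact h4 heq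
    have hsum := card_filter_add_card_filter_not (s := Q) (fun q => q.1 ∉ V ∧ q.2 ∉ V)
    rw [← hQ'] at hsum
    have h5 : (b + 4) * (M * b ^ (i - j)) * 4 = b * L + 4 * L := by rw [hL]; ring
    have h6 : (b + 4) * (M * b ^ (i - j)) * 4 ≤ P * 4 := Nat.mul_le_mul_right 4 hP
    omega
  obtain ⟨Q'', hQ''1, hQ''2⟩ := exists_subset_card_eq hcardQ'
  have hQ''Q : ∀ q ∈ Q'', q ∈ Q ∧ q.1 ∉ V ∧ q.2 ∉ V := by
    intro q hq
    have := hQ''1 hq
    rw [hQ', mem_filter] at this
    exact this
  obtain ⟨e, he1, he2⟩ := exists_enum Q'' hQ''2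
  refine ⟨Q''.image Prod.fst ∪ Q''.image Prod.snd, ?_, ?_, ?_, ?_⟩
  · intro x hx
    rw [mem_coe, mem_union, mem_image, mem_image] at hx
    rcases hx with ⟨q, hq, rfl⟩ | ⟨q, hq, rfl⟩
    · exact (hQ2 q (hQ''Q q hq).1).1
    · exact (hQ2 q (hQ''Q q hq).1).2.1
  · rw [disjoint_left]
    intro x hx
    rw [mem_union, mem_image, mem_image] at hx
    rcases hx with ⟨q, hq, rfl⟩ | ⟨q, hq, rfl⟩
    · exact (hQ''Q q hq).2.1
    · exact (hQ''Q q hq).2.2
  · refine (card_union_le _ _).trans ?_
    have h1 : (Q''.image Prod.fst).card ≤ L := card_image_le.trans hQ''2.le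
    have h2 : (Q''.image Prod.snd).card ≤ L := card_image_le.trans hQ''2.le
    omega
  · -- the chain
    have hlt : ∀ k < L, (e k).1 ≤ (e k).2 := by
      intro k hk
      have := (hQ2 (e k) (hQ''Q _ (he1 k hk)).1).2.2.1
      have hb0 : 0 < b ^ j := Nat.pow_pos hb
      omega
    set y := ∑ k ∈ range L, (e k).1 with hy
    set s : ℕ → ℕ := fun l => y + ∑ k ∈ range l, ((e k).2 - (e k).1) with hs
    have hs0 : s 0 = y := by simp [hs]
    have hstep : ∀ l < L, s (l + 1) ≤ s l + b ^ (j + 1) := by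
      intro l hl
      simp only [hs]
      rw [sum_range_succ]
      have := (hQ2 (e l) (hQ''Q _ (he1 l hl)).1).2.2.2
      omega
    have hsL : y + 2 * M * b ^ i ≤ s L := by
      simp only [hs]
      have h1 : ∀ k ∈ range L, b ^ j ≤ 2 * ((e k).2 - (e k).1) := by
        intro k hk
        rw [mem_range] at hk
        have := (hQ2 (e k) (hQ''Q _ (he1 k hk)).1).2.2.1
        omega
      have h2 : L * b ^ j ≤ ∑ k ∈ range L, 2 * ((e k).2 - (e k).1) := by
        have := card_nsmul_le_sum (range L) (fun k => 2 * ((e k).2 - (e k).1)) (b ^ j) h1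
        rwa [card_range, smul_eq_mul] at this
      rw [← mul_sum] at h2
      have h3 : L * b ^ j = 2 * (2 * M * b ^ i) := by
        rw [hL]
        have : b ^ i = b ^ (i - j) * b ^ j := by rw [← pow_add]; congr 1; omega
        rw [this]; ring
      omega
    have hsB : ∀ l ≤ L, ∃ B ⊆ Q''.image Prod.fst ∪ Q''.image Prod.snd, B.card = L ∧
        ∑ x ∈ B, x = s l := by
      intro l hl
      set f : ℕ → ℕ := fun k => if k < l then (e k).2 else (e k).1 with hf
      have hfinj : Set.InjOn f (range L) := by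
        intro k hk k' hk' heq
        rw [mem_coe, mem_range] at hk hk'
        by_contra hne
        have hne' : e k ≠ e k' := fun hh => hne (he2 k hk k' hk' hh)
        obtain ⟨h1, h2, h3, h4⟩ := hQ3 (e k) (hQ''Q _ (he1 k hk)).1 (e k')
          (hQ''Q _ (he1 k' hk')).1 hne'
        simp only [hf] at heq
        split_ifs at heq
        · exact h4 heq
        · exact h3 heq
        · exact h2 heq
        · exact h1 heq
      refine ⟨(range L).image f, ?_, ?_, ?_⟩
      · intro x hx
        rw [mem_image] at hx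
        obtain ⟨k, hk, rfl⟩ := hx
        rw [mem_range] at hk
        rw [mem_union, mem_image, mem_image]
        simp only [hf]
        split_ifs
        · exact Or.inr ⟨e k, he1 k hk, rfl⟩
        · exact Or.inl ⟨e k, he1 k hk, rfl⟩
      · rw [card_image_of_injOn hfinj, card_range]
      · rw [sum_image hfinj]
        simp only [hf, hs, hy]
        have h1 : ∀ k ∈ range L, (if k < l then (e k).2 else (e k).1) =
            (e k).1 + (if k < l then ((e k).2 - (e k).1) else 0) := by
          intro k hk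
          rw [mem_range] at hk
          have := hlt k hk
          split_ifs <;> omega
        rw [sum_congr rfl h1, sum_add_distrib, ← sum_filter]
        congr 1
        apply sum_congr _ (fun _ _ => rfl)
        ext k
        rw [mem_filter, mem_range, mem_range]
        constructor
        · exact fun h => h.2
        · exact fun h => ⟨by omega, h⟩
    have hexl : ∀ p, p < M → ∃ l ≤ L, y + 2 * p * b ^ i ≤ s l ∧ s l < y + 2 * p * b ^ i + b ^ (j + 1) := by
      intro p hp
      apply ivt s L (b ^ (j + 1)) (Nat.pow_pos hb) hstep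
      · rw [hs0]; omega
      · have : 2 * p * b ^ i ≤ 2 * M * b ^ i := Nat.mul_le_mul_right _ (by omega)
        omega
    choose! l hl1 hl2 hl3 using hexl
    refine ⟨L, y, fun p => s (l p), fun p hp => ⟨⟨hl2 p hp, ?_⟩, hsB (l p) (hl1 p hp)⟩⟩
    have h1 := hl3 p hp
    have h2 : b ^ (j + 1) ≤ b ^ i := Nat.pow_le_pow_right hb hji
    have h3 : (2 * p + 1) * b ^ i = 2 * p * b ^ i + b ^ i := by ring
    show s (l p) < _
    omega

lemma fillable_of_dense {A : Set ℕ} {b M i : ℕ} (hb : 2 * M + 1 ≤ b) (hi : 2 ≤ i)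
    (hD : ∀ X, b ^ i ≤ X → X + b ^ (i - 2) ≤ b ^ (i + 1) → ∃ x ∈ A, X ≤ x ∧ x < X + b ^ (i - 2)) :
    Fillable A b M i := by
  classical
  have hbpos : 0 < b := by omega
  refine ⟨b, fun V hV => ?_⟩
  have key : ∀ p, p < M → ∃ x ∈ A, x ∉ V ∧ b ^ i + 2 * p * b ^ i ≤ x ∧
      x < b ^ i + 2 * p * b ^ i + b ^ i := by
    intro p hp
    have hbi : b ^ i = b * b * b ^ (i - 2) := by
      rw [show b * b = b ^ 2 by ring, ← pow_add]; congr 1; omega
    have h1 : ∀ q, q < b * b → ∃ x ∈ A, b ^ i + 2 * p * b ^ i + q * b ^ (i - 2) ≤ x ∧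
        x < b ^ i + 2 * p * b ^ i + q * b ^ (i - 2) + b ^ (i - 2) := by
      intro q hq
      apply hD
      · omega
      · have h2 : (q + 1) * b ^ (i - 2) ≤ (b * b) * b ^ (i - 2) := Nat.mul_le_mul_right _ hq
        have h3 : (2 * p + 2) * b ^ i ≤ b * b ^ i := Nat.mul_le_mul_right _ (by omega)
        have h4 : b ^ (i + 1) = b * b ^ i := by ring
        have h5 : (q + 1) * b ^ (i - 2) = q * b ^ (i - 2) + b ^ (i - 2) := by ring
        have h6 : (2 * p + 2) * b ^ i = b ^ i + 2 * p * b ^ i + b ^ i := by ring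
        omega
    choose! x hx1 hx2 hx3 using h1
    by_contra hcon
    push Not at hcon
    have hall : ∀ q, q < b * b → x q ∈ V := by
      intro q hq
      by_contra hxV
      have h2 := hcon (x q) (hx1 q hq) hxV (by have := hx2 q hq; omega)
      have h3 := hx3 q hq
      have h4 : (q + 1) * b ^ (i - 2) ≤ (b * b) * b ^ (i - 2) := Nat.mul_le_mul_right _ hq
      have h5 : (q + 1) * b ^ (i - 2) = q * b ^ (i - 2) + b ^ (i - 2) := by ring
      omega
    have hinj : Set.InjOn x (range (b * b)) := by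
      intro q hq q' hq' heq
      rw [mem_coe, mem_range] at hq hq'
      have h2 := hx2 q hq
      have h3 := hx3 q hq
      have h2' := hx2 q' hq'
      have h3' := hx3 q' hq'
      rcases lt_trichotomy q q' with h4 | h4 | h4
      · exfalso
        have h5 : (q + 1) * b ^ (i - 2) ≤ q' * b ^ (i - 2) := Nat.mul_le_mul_right _ h4
        have h6 : (q + 1) * b ^ (i - 2) = q * b ^ (i - 2) + b ^ (i - 2) := by ring
        omega
      · exact h4
      · exfalso
        have h5 : (q' + 1) * b ^ (i - 2) ≤ q * b ^ (i - 2) := Nat.mul_le_mul_right _ h4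
        have h6 : (q' + 1) * b ^ (i - 2) = q' * b ^ (i - 2) + b ^ (i - 2) := by ring
        omega
    have h2 := card_le_card_of_injOn x (s := range (b * b)) (t := V)
      (fun q hq => by
        rw [mem_coe, mem_range] at hq
        exact hall q hq) hinj
    rw [card_range] at h2
    have h3 : 0 < b * b := Nat.mul_pos hbpos hbpos
    omega
  choose! x hx1 hx2 hx3 hx4 using key
  refine ⟨(range M).image x, ?_, ?_, ?_, ?_⟩
  · intro v hv
    rw [mem_coe, mem_image] at hv
    obtain ⟨p, hp, rfl⟩ := hv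
    rw [mem_range] at hp
    exact hx1 p hp
  · rw [disjoint_left]
    intro v hv
    rw [mem_image] at hv
    obtain ⟨p, hp, rfl⟩ := hv
    rw [mem_range] at hp
    exact hx2 p hp
  · refine card_image_le.trans ?_
    rw [card_range]; omega
  · refine ⟨1, b ^ i, x, fun p hp => ⟨⟨hx3 p hp, ?_⟩, {x p}, ?_, by simp, by simp⟩⟩
    · have := hx4 p hp
      have h3 : (2 * p + 1) * b ^ i = 2 * p * b ^ i + b ^ i := by ring
      omega
    · rw [singleton_subset_iff, mem_image]
      exact ⟨p, by rw [mem_range]; exact hp, rfl⟩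

end Pool.Agent.Gap59
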