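import Pool.Agent.Lib_helper59.Gap59.Fill

set_option autoImplicit false
set_option maxHeartbeats 1000000

namespace Pool.Agent.Gap59

open Finset

/-- A set without differences in the inactive levels is small. -/
lemma tree_bound {b : ℕ} (hb : 0 < b) (W : Finset ℕ) (J : Finset ℕ)
    (h : ∀ j, j ∉ J → ∀ x ∈ W, ∀ y ∈ W, x + b ^ j ≤ y → x + b ^ (j + 1) ≤ y) :
    ∀ (k X : ℕ), (W.filter (fun x => X ≤ x ∧ x < X + b ^ k)).card ≤
      b ^ (J.filter (fun j => j < k)).card := by
  intro k
  induction k with
  | zero =>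
    intro X
    have h1 : (W.filter (fun x => X ≤ x ∧ x < X + b ^ 0)) ⊆ {X} := by
      intro x hx
      rw [mem_filter, pow_zero] at hx
      rw [mem_singleton]; omega
    have := card_le_card h1
    simpa using this
  | succ k ih =>
    intro X
    by_cases hk : k ∈ J
    · have hfil : J.filter (fun i => i < k + 1) = insert k (J.filter (fun i => i < k)) := by
        ext i
        simp only [mem_filter, mem_insert]
        constructor
        · rintro ⟨h4, h5⟩
          rcases Nat.lt_or_ge i k with h6 | h6
          · exact Or.inr ⟨h4, h6⟩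
          · exact Or.inl (by omega)
        · rintro (rfl | ⟨h4, h5⟩)
          · exact ⟨hk, by omega⟩
          · exact ⟨h4, by omega⟩
      rw [hfil, card_insert_of_notMem (by simp)]
      have hsub : (W.filter (fun x => X ≤ x ∧ x < X + b ^ (k + 1))) ⊆
          (range b).biUnion (fun q => W.filter (fun x => X + q * b ^ k ≤ x ∧
            x < X + q * b ^ k + b ^ k)) := by
        intro x hx
        rw [mem_filter] at hx
        rw [mem_biUnion]
        have hbk : 0 < b ^ k := Nat.pow_pos hb
        refine ⟨(x - X) / b ^ k, ?_, ?_⟩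
        · rw [mem_range, Nat.div_lt_iff_lt_mul hbk]
          have : b ^ (k + 1) = b * b ^ k := by ring
          omega
        · rw [mem_filter]
          have h1 := Nat.div_add_mod' (x - X) (b ^ k)
          have h2 := Nat.mod_lt (x - X) hbk
          generalize (x - X) / b ^ k = q at h1 ⊢
          generalize (x - X) % b ^ k = r at h1 h2
          exact ⟨hx.1, by omega, by omega⟩
      calc _ ≤ _ := card_le_card hsub
        _ ≤ ∑ q ∈ range b, _ := card_biUnion_le
        _ ≤ (range b).card • b ^ (J.filter (fun j => j < k)).card :=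
            sum_le_card_nsmul _ _ _ (fun q _ => ih _)
        _ = b ^ ((J.filter (fun j => j < k)).card + 1) := by
            rw [card_range, smul_eq_mul]; ring
    · have hfil : J.filter (fun i => i < k + 1) = J.filter (fun i => i < k) := by
        ext i
        simp only [mem_filter]
        constructor
        · rintro ⟨h4, h5⟩
          refine ⟨h4, ?_⟩
          rcases Nat.lt_or_ge i k with h6 | h6
          · exact h6
          · have : i = k := by omega
            subst this; exact absurd h4 hk
        · rintro ⟨h4, h5⟩; exact ⟨h4, by omega⟩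
      rw [hfil]
      rcases (W.filter (fun x => X ≤ x ∧ x < X + b ^ (k + 1))).eq_empty_or_nonempty with he | hne
      · rw [he]; simp
      · set S := W.filter (fun x => X ≤ x ∧ x < X + b ^ (k + 1)) with hS
        set x0 := S.min' hne with hx0
        have hx0S : x0 ∈ S := S.min'_mem hne
        refine (card_le_card ?_).trans (ih x0)
        intro x hx
        have hle : x0 ≤ x := S.min'_le x hx
        rw [hS, mem_filter] at hx hx0S
        rw [mem_filter]
        refine ⟨hx.1, hle, ?_⟩
        by_contra hcon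
        have := h k hk x0 hx0S.1 x hx.1 (by omega)
        omega

/-- Among `b^τ` elements there are at least `τ` active levels. -/
lemma levels {b τ z : ℕ} (hb : 4 * (z + 1) < b) (hτ : 1 ≤ τ) (A : Set ℕ) (W : Finset ℕ)
    (hWA : (W : Set ℕ) ⊆ A) (hW : ∀ x ∈ W, x < b ^ (z + 1)) (hcard : b ^ τ ≤ W.card) :
    ∃ Z : Finset ℕ, τ ≤ Z.card ∧ ∀ j ∈ Z, j ≤ z ∧ HasPairs A b j (b ^ (τ - 1)) := by
  classical
  have hb0 : 0 < b := by omega
  -- families of disjoint pairs with differences at level `j`
  set good : ℕ → Finset (ℕ × ℕ) → Prop := fun j Q =>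
    (∀ q ∈ Q, q.1 ∈ W ∧ q.2 ∈ W ∧ q.1 + b ^ j ≤ q.2 ∧ q.2 < q.1 + b ^ (j + 1)) ∧
    (∀ q ∈ Q, ∀ q' ∈ Q, q ≠ q' → q.1 ≠ q'.1 ∧ q.1 ≠ q'.2 ∧ q.2 ≠ q'.1 ∧ q.2 ≠ q'.2) with hgood
  -- a maximal family
  have hmax : ∀ j, ∃ Q, good j Q ∧ ∀ Q', good j Q' → Q'.card ≤ Q.card := by
    intro j
    have hne : ((W ×ˢ W).powerset.filter (fun Q => good j Q)).Nonempty := by
      refine ⟨∅, ?_⟩
      rw [mem_filter]
      exact ⟨by simp, by simp [hgood]⟩
    obtain ⟨Q, hQ1, hQ2⟩ := exists_max_image _ (fun Q : Finset (ℕ × ℕ) => Q.card) hne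
    rw [mem_filter] at hQ1
    refine ⟨Q, hQ1.2, fun Q' hQ' => hQ2 Q' ?_⟩
    rw [mem_filter, mem_powerset]
    refine ⟨?_, hQ'⟩
    intro q hq
    rw [mem_product]
    exact ⟨(hQ'.1 q hq).1, (hQ'.1 q hq).2.1⟩
  choose Q hQ1 hQ2 using hmax
  set J := (range (z + 1)).filter (fun j => b ^ (τ - 1) ≤ (Q j).card) with hJ
  refine ⟨J, ?_, ?_⟩
  · -- removal
    set R : ℕ → Finset ℕ := fun j => (Q j).image Prod.fst ∪ (Q j).image Prod.snd with hR
    set bad := (range (z + 1)).filter (fun j => j ∉ J) with hbad
    set W' := W \ bad.biUnion R with hW'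
    have hRcard : ∀ j ∈ bad, (R j).card ≤ 2 * b ^ (τ - 1) := by
      intro j hj
      rw [hbad, mem_filter, hJ, mem_filter, not_and] at hj
      have h1 := hj.2 hj.1
      refine (card_union_le _ _).trans ?_
      have h2 : ((Q j).image Prod.fst).card ≤ (Q j).card := card_image_le
      have h3 : ((Q j).image Prod.snd).card ≤ (Q j).card := card_image_le
      omega
    have hunion : (bad.biUnion R).card ≤ (z + 1) * (2 * b ^ (τ - 1)) := by
      refine card_biUnion_le.trans ?_
      refine (sum_le_card_nsmul _ _ _ hRcard).trans ?_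
      rw [smul_eq_mul]
      apply Nat.mul_le_mul_right
      refine (card_filter_le _ _).trans ?_
      simp
    have hW'card : b ^ τ ≤ W'.card + (z + 1) * (2 * b ^ (τ - 1)) := by
      have := le_card_sdiff (bad.biUnion R) W
      rw [← hW'] at this
      omega
    have htree := tree_bound hb0 W' J (by
      intro j hj x hx y hy hxy
      by_contra hcon
      rw [not_le] at hcon
      rw [hW', mem_sdiff, mem_biUnion] at hx hy
      rcases Nat.lt_or_ge z j with hz | hz
      · have h1 := hW y hy.1
        have h2 : b ^ (z + 1) ≤ b ^ j := Nat.pow_le_pow_right hb0 hz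
        omega
      · have hjbad : j ∈ bad := by
          rw [hbad, mem_filter, mem_range]; exact ⟨by omega, hj⟩
        have hxR : x ∉ R j := fun hh => hx.2 ⟨j, hjbad, hh⟩
        have hyR : y ∉ R j := fun hh => hy.2 ⟨j, hjbad, hh⟩
        have hR1 : ∀ q ∈ Q j, q.1 ∈ R j ∧ q.2 ∈ R j := by
          intro q hq
          simp only [hR, mem_union, mem_image]
          exact ⟨Or.inl ⟨q, hq, rfl⟩, Or.inr ⟨q, hq, rfl⟩⟩
        have hxyne : ∀ q ∈ Q j, x ≠ q.1 ∧ x ≠ q.2 ∧ y ≠ q.1 ∧ y ≠ q.2 := by
          intro q hq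
          obtain ⟨h1, h2⟩ := hR1 q hq
          refine ⟨?_, ?_, ?_, ?_⟩
          · rintro rfl; exact hxR h1
          · rintro rfl; exact hxR h2
          · rintro rfl; exact hyR h1
          · rintro rfl; exact hyR h2
        have hnotin : (x, y) ∉ Q j := fun hh => (hxyne _ hh).1 rfl
        have hbig : good j (insert (x, y) (Q j)) := by
          constructor
          · intro q hq
            rw [mem_insert] at hq
            rcases hq with rfl | hq
            · exact ⟨hx.1, hy.1, hxy, hcon⟩
            · exact (hQ1 j).1 q hq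
          · intro q hq q' hq' hne
            rw [mem_insert] at hq hq'
            rcases hq with rfl | hq <;> rcases hq' with rfl | hq'
            · exact absurd rfl hne
            · obtain ⟨h1, h2, h3, h4⟩ := hxyne q' hq'
              exact ⟨h1, h2, h3, h4⟩
            · obtain ⟨h1, h2, h3, h4⟩ := hxyne q hq
              exact ⟨h1.symm, h3.symm, h2.symm, h4.symm⟩
            · exact (hQ1 j).2 q hq q' hq' hne
        have := hQ2 j _ hbig
        rw [card_insert_of_notMem hnotin] at this
        omega) (z + 1) 0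
    have hall : W'.filter (fun x => 0 ≤ x ∧ x < 0 + b ^ (z + 1)) = W' := by
      rw [filter_eq_self]
      intro x hx
      rw [hW', mem_sdiff] at hx
      have := hW x hx.1
      omega
    rw [hall] at htree
    have hJcard : (J.filter (fun j => j < z + 1)).card ≤ J.card := card_filter_le _ _
    by_contra hcon
    rw [not_le] at hcon
    have h1 : b ^ (J.filter (fun j => j < z + 1)).card ≤ b ^ (τ - 1) :=
      Nat.pow_le_pow_right hb0 (by omega)
    have h2 : b ^ τ = b * b ^ (τ - 1) := by
      rw [← pow_succ']; congr 1; omega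
    have h3 : 0 < b ^ (τ - 1) := Nat.pow_pos hb0
    have h4 : b ^ τ ≤ (2 * (z + 1) + 1) * b ^ (τ - 1) := by
      calc b ^ τ ≤ W'.card + (z + 1) * (2 * b ^ (τ - 1)) := hW'card
        _ ≤ b ^ (τ - 1) + (z + 1) * (2 * b ^ (τ - 1)) := by omega
        _ = _ := by ring
    rw [h2] at h4
    have h5 := Nat.le_of_mul_le_mul_right h4 h3
    omega
  · intro j hj
    rw [hJ, mem_filter, mem_range] at hj
    refine ⟨by omega, Q j, hj.2, ?_, (hQ1 j).2⟩
    intro q hq
    obtain ⟨h1, h2, h3, h4⟩ := (hQ1 j).1 q hq
    have : 0 < b ^ j := Nat.pow_pos hb0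
    exact ⟨hWA h1, hWA h2, by omega, by omega⟩

end Pool.Agent.Gap59
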