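import Pool.Agent.Lib_helper59.Gap59.Chain

set_option autoImplicit false
set_option maxHeartbeats 1000000

namespace Pool.Agent.Gap59

open Finset

/-- The successive holes. -/
noncomputable def gs (U : Finset ℕ) (z : ℕ → ℕ) (τ₀ : ℕ) : ℕ → ℕ
  | 0 => nxt U (z τ₀)
  | m + 1 => nxt U (z (Tm U (gs U z τ₀ m) + 1))

lemma gs_notMem (U : Finset ℕ) (z : ℕ → ℕ) (τ₀ m : ℕ) : gs U z τ₀ m ∉ U := by
  cases m <;> exact nxt_notMem U _

/-- The layer sizes. -/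
noncomputable def Dl (U : Finset ℕ) (z : ℕ → ℕ) (τ₀ : ℕ) : ℕ → ℕ
  | 0 => cntU U (gs U z τ₀ 0)
  | m + 1 => cntU U (gs U z τ₀ (m + 1)) - cntU U (gs U z τ₀ m)

namespace Grid

variable {c : ℝ} {τ₀ τ₁ κ K : ℕ} {z : ℕ → ℕ} {U : Finset ℕ}

/-- Everything we need to know about the first `K + 1` holes. -/
lemma gs_range (h : Grid c τ₀ τ₁ κ z U) (hc0 : 9 / 2 ≤ c) (hc : c < 4.5616) (ht : 40 + κ ≤ τ₀)
    (hK : 8 * (50 ^ (K + 1) * τ₀) ≤ τ₁) :
    ∀ m ≤ K, τ₀ ≤ Tm U (gs U z τ₀ m) ∧ gs U z τ₀ m ≤ 50 ^ (m + 1) * τ₀ := by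
  have hpow : ∀ m ≤ K, 50 ^ (m + 1) * τ₀ ≤ 50 ^ (K + 1) * τ₀ := fun m hm =>
    Nat.mul_le_mul_right _ (Nat.pow_le_pow_right (by norm_num) (by omega))
  have hone : ∀ m, τ₀ ≤ 50 ^ (m + 1) * τ₀ := fun m => Nat.le_mul_of_pos_left _ (by positivity)
  have hcpos : 0 < c := by linarith
  intro m
  induction m with
  | zero =>
    intro _
    have h1 := hone K
    have hz : z τ₀ < gs U z τ₀ 0 := lt_nxt U _
    constructor
    · by_contra hcon
      rw [not_le] at hcon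
      have := h.z_gt hcpos hc (by omega) (τ := τ₀) le_rfl (by omega) (gs_notMem U z τ₀ 0) hcon
      omega
    · have := h.nxt_le hcpos hc (by omega) (τ := τ₀) le_rfl (by omega)
      show nxt U (z τ₀) ≤ _
      omega
  | succ m ih =>
    intro hm
    obtain ⟨ih1, ih2⟩ := ih (by omega)
    have h1 := hpow m (by omega)
    have h2 := hone m
    have hTle := Tm_le U (gs U z τ₀ m)
    set g := gs U z τ₀ m with hg
    have hz : z (Tm U g + 1) < gs U z τ₀ (m + 1) := lt_nxt U _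
    constructor
    · by_contra hcon
      rw [not_le] at hcon
      have := h.z_gt hcpos hc (by omega) (τ := Tm U g + 1) (by omega) (by omega)
        (gs_notMem U z τ₀ (m + 1)) (by omega)
      omega
    · have h3 := h.nxt_le hcpos hc (by omega) (τ := Tm U g + 1) (by omega) (by omega)
      show nxt U (z (Tm U g + 1)) ≤ _
      have h4 : 50 ^ (m + 1 + 1) * τ₀ = 50 * (50 ^ (m + 1) * τ₀) := by ring
      rw [h4]
      omega

lemma gs_lt (h : Grid c τ₀ τ₁ κ z U) (hc0 : 9 / 2 ≤ c) (hc : c < 4.5616) (ht : 40 + κ ≤ τ₀)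
    (hK : 8 * (50 ^ (K + 1) * τ₀) ≤ τ₁) {m : ℕ} (hm : m ≤ K) :
    gs U z τ₀ m < z (Tm U (gs U z τ₀ m) + 1) ∧ gs U z τ₀ m < gs U z τ₀ (m + 1) ∧
      Tm U (gs U z τ₀ m) + 1 ≤ τ₁ := by
  obtain ⟨h1, h2⟩ := h.gs_range hc0 hc ht hK m hm
  have hcpos : 0 < c := by linarith
  have hpow : 50 ^ (m + 1) * τ₀ ≤ 50 ^ (K + 1) * τ₀ :=
    Nat.mul_le_mul_right _ (Nat.pow_le_pow_right (by norm_num) (by omega))
  have hTle := Tm_le U (gs U z τ₀ m)
  set g := gs U z τ₀ m with hg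
  have h3 : Tm U g + 1 ≤ τ₁ := by omega
  have h4 := h.z_gt hcpos hc (by omega) (τ := Tm U g + 1) (g := g) (by omega) h3
        (gs_notMem U z τ₀ m) (by omega)
  have h5 : z (Tm U g + 1) < gs U z τ₀ (m + 1) := lt_nxt U _
  exact ⟨h4, by omega, h3⟩

lemma Tm_succ (h : Grid c τ₀ τ₁ κ z U) (hc0 : 9 / 2 ≤ c) (hc : c < 4.5616) (ht : 40 + κ ≤ τ₀)
    (hK : 8 * (50 ^ (K + 1) * τ₀) ≤ τ₁) {m : ℕ} (hm : m < K) :
    Tm U (gs U z τ₀ m) < Tm U (gs U z τ₀ (m + 1)) := by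
  obtain ⟨h1, h2⟩ := h.gs_range hc0 hc ht hK m hm.le
  obtain ⟨h3, h4, h5⟩ := h.gs_lt hc0 hc ht hK hm.le
  have hcpos : 0 < c := by linarith
  by_contra hcon
  rw [not_lt] at hcon
  have h6 := h.z_gt hcpos hc (by omega) (τ := Tm U (gs U z τ₀ m) + 1) (by omega) h5
        (gs_notMem U z τ₀ (m + 1)) (by omega)
  have h7 : z (Tm U (gs U z τ₀ m) + 1) < gs U z τ₀ (m + 1) := lt_nxt U _
  omega

/-- The main recursive inequality. -/
lemma main_ineq (h : Grid c τ₀ τ₁ κ z U) (hc0 : 9 / 2 ≤ c) (hc : c < 4.5616) (ht : 40 + κ ≤ τ₀)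
    (hK : 8 * (50 ^ (K + 1) * τ₀) ≤ τ₁) {m : ℕ} (hm : m < K) :
    (cntU U (gs U z τ₀ m) : ℝ) + (cntU U (gs U z τ₀ (m + 1)) : ℝ) / (c + 1) ≤
      c * Tm U (gs U z τ₀ m) + (60 + 7 * κ) := by
  obtain ⟨h1, h2⟩ := h.gs_range hc0 hc ht hK m hm.le
  obtain ⟨h3, h4, h5⟩ := h.gs_lt hc0 hc ht hK hm.le
  obtain ⟨h3', h4', h5'⟩ := h.gs_lt hc0 hc ht hK (m := m + 1) (by omega)
  have hT := h.Tm_succ hc0 hc ht hK hm
  have hcpos : 0 < c := by linarith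
  have hκ : (0 : ℝ) ≤ κ := Nat.cast_nonneg κ
  set g := gs U z τ₀ m with hg
  set g' := gs U z τ₀ (m + 1) with hg'
  have hg'n : g' = nxt U (z (Tm U g + 1)) := rfl
  have hA := h.chainA hcpos (τ := Tm U g + 1) (g := g) (by omega) h5 (gs_notMem U z τ₀ m) h3
  have hH := h.holes_ge hc0 hc (by omega) (τ := Tm U g + 1) (t := Tm U g') (by omega) (by omega) h5'
    (by rw [← hg'n]; exact h3'.le)
  rw [← hg'n] at hA hH
  push_cast at hA
  have hc1 : 0 < c + 1 := by linarith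
  have e1 : ((cntU U g' : ℝ) - (34 + 7 * κ)) / (c + 1) ≤ holes U g' := by
    rw [div_le_iff₀ hc1]; linarith
  have e2 : ((cntU U g' : ℝ) - (34 + 7 * κ)) / (c + 1) =
      (cntU U g' : ℝ) / (c + 1) - (34 + 7 * κ) / (c + 1) := by ring
  have e3 : (34 + 7 * (κ : ℝ)) / (c + 1) ≤ 34 + 7 * κ := by
    apply div_le_self (by positivity); linarith
  nlinarith

/-- Capacity bound. -/
lemma cap_sum (h : Grid c τ₀ τ₁ κ z U) (hc0 : 9 / 2 ≤ c) (hc : c < 4.5616) (ht : 40 + κ ≤ τ₀)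
    (hK : 8 * (50 ^ (K + 1) * τ₀) ≤ τ₁) {t : ℕ} (h4 : 4 ≤ t) :
    ∀ m ≤ K, cap U (gs U z τ₀ m) t ≤ ∑ i ∈ range (m + 1), (Dl U z τ₀ i + 4 - t) := by
  intro m
  induction m with
  | zero =>
    intro _
    rw [sum_range_one]
    exact cap_base U h4
  | succ m ih =>
    intro hm
    have ih := ih (by omega)
    rw [sum_range_succ]
    have h5 := (h.gs_lt hc0 hc ht hK (m := m) (by omega)).2.1
    have := cap_add U h5.le (gs_notMem U z τ₀ m) h4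
    exact this.trans (Nat.add_le_add_right ih _)

lemma U_sum (h : Grid c τ₀ τ₁ κ z U) (hc0 : 9 / 2 ≤ c) (hc : c < 4.5616) (ht : 40 + κ ≤ τ₀)
    (hK : 8 * (50 ^ (K + 1) * τ₀) ≤ τ₁) :
    ∀ m ≤ K, ∑ i ∈ range (m + 1), Dl U z τ₀ i = cntU U (gs U z τ₀ m) := by
  intro m
  induction m with
  | zero => intro _; rw [sum_range_one]; rfl
  | succ m ih =>
    intro hm
    rw [sum_range_succ, ih (by omega)]
    have h5 := (h.gs_lt hc0 hc ht hK (m := m) (by omega)).2.1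
    have h6 := cntU_mono U h5.le
    show _ + (cntU U (gs U z τ₀ (m + 1)) - cntU U (gs U z τ₀ m)) = _
    omega

end Grid

open Classical in
/-- From a grid to layers. -/
theorem layers_of_grid {c c' : ℝ} {τ₀ τ₁ κ K : ℕ} {z : ℕ → ℕ} {U : Finset ℕ}
    (h : Grid c τ₀ τ₁ κ z U) (hc0 : 9 / 2 ≤ c) (hcc : c < c') (hc' : c' < 4.5616)
    (ht : 40 + κ ≤ τ₀) (ht2 : (60 + 7 * κ + 20) / (c' - c) ≤ τ₀)
    (hK : 8 * (50 ^ (K + 1) * τ₀) ≤ τ₁) :
    Layers c' K (fun i => (Dl U z τ₀ i : ℝ)) (fun m => (Tm U (gs U z τ₀ m) : ℝ) - 4)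
      (fun m => (range (m + 1)).filter (fun i => Tm U (gs U z τ₀ m) < Dl U z τ₀ i + 4)) := by
  have hc : c < 4.5616 := by linarith
  have hcpos : 0 < c := by linarith
  have hrange := h.gs_range hc0 hc ht hK
  have hsumR : ∀ m ≤ K, ∑ i ∈ range (m + 1), (Dl U z τ₀ i : ℝ) = cntU U (gs U z τ₀ m) := by
    intro m hm
    exact_mod_cast h.U_sum hc0 hc ht hK m hm
  refine ⟨fun m => Nat.cast_nonneg _, ?_, ?_, ?_, ?_, ?_, ?_⟩
  · intro m hm
    have := (hrange m hm).1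
    have : (40 : ℝ) ≤ Tm U (gs U z τ₀ m) := by exact_mod_cast (by omega : 40 ≤ Tm U (gs U z τ₀ m))
    show 0 < (Tm U (gs U z τ₀ m) : ℝ) - 4
    linarith
  · intro m hm
    have := h.Tm_succ hc0 hc ht hK hm
    have : (Tm U (gs U z τ₀ m) : ℝ) ≤ Tm U (gs U z τ₀ (m + 1)) := by exact_mod_cast this.le
    show (Tm U (gs U z τ₀ m) : ℝ) - 4 ≤ (Tm U (gs U z τ₀ (m + 1)) : ℝ) - 4
    linarith
  · intro m hm i
    rw [mem_filter, mem_range]
    have : ((Tm U (gs U z τ₀ m) : ℝ) - 4 < Dl U z τ₀ i) ↔ Tm U (gs U z τ₀ m) < Dl U z τ₀ i + 4 := by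
      rw [sub_lt_iff_lt_add]; exact_mod_cast Iff.rfl
    rw [this]
    constructor
    · rintro ⟨h1, h2⟩; exact ⟨by omega, h2⟩
    · rintro ⟨h1, h2⟩; exact ⟨by omega, h2⟩
  · intro m hm
    rw [hsumR m hm.le, hsumR (m + 1) (by omega)]
    have h1 := h.main_ineq hc0 hc ht hK hm
    have h2 : (cntU U (gs U z τ₀ (m + 1)) : ℝ) / (c' + 1) ≤
        (cntU U (gs U z τ₀ (m + 1)) : ℝ) / (c + 1) := by
      apply div_le_div_of_nonneg_left (Nat.cast_nonneg _) (by linarith) (by linarith)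
    have h3 : (τ₀ : ℝ) ≤ Tm U (gs U z τ₀ m) := by exact_mod_cast (hrange m hm.le).1
    rw [div_le_iff₀ (by linarith)] at ht2
    show _ ≤ c' * ((Tm U (gs U z τ₀ m) : ℝ) - 4)
    nlinarith
  · intro m hm
    rw [mem_filter, mem_range]
    refine ⟨by omega, ?_⟩
    have hT4 : 4 ≤ Tm U (gs U z τ₀ m) := by have := (hrange m hm).1; omega
    have hspec := Tm_spec U (gs U z τ₀ m)
    rcases Nat.eq_zero_or_pos m with h0 | h0
    · subst h0
      have := h.cap_sum hc0 hc ht hK hT4 0 hm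
      rw [sum_range_one] at this
      omega
    · obtain ⟨k, rfl⟩ : ∃ k, m = k + 1 := ⟨m - 1, by omega⟩
      have h5 := (h.gs_lt hc0 hc ht hK (m := k) (by omega)).2.1
      have h6 := cap_add U h5.le (gs_notMem U z τ₀ k) hT4
      have h7 := lt_of_Tm_lt U (h.Tm_succ hc0 hc ht hK (m := k) (by omega))
      have h8 : Dl U z τ₀ (k + 1) = cntU U (gs U z τ₀ (k + 1)) - cntU U (gs U z τ₀ k) := rfl
      omega
  · intro m hm
    set T := Tm U (gs U z τ₀ m) with hT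
    have hT4 : 4 ≤ T := by have := (hrange m hm).1; omega
    have hspec := Tm_spec U (gs U z τ₀ m)
    rw [← hT] at hspec
    have h1 := hspec.trans (h.cap_sum hc0 hc ht hK hT4 m hm)
    have h2 : ∑ i ∈ range (m + 1), (Dl U z τ₀ i + 4 - T) =
        ∑ i ∈ (range (m + 1)).filter (fun i => T < Dl U z τ₀ i + 4), (Dl U z τ₀ i + 4 - T) := by
      rw [sum_filter]
      apply sum_congr rfl
      intro i _
      split_ifs with hh
      · rfl
      · omega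
    rw [h2] at h1
    have h3 : ((∑ i ∈ (range (m + 1)).filter (fun i => T < Dl U z τ₀ i + 4),
        (Dl U z τ₀ i + 4 - T) : ℕ) : ℝ) =
        ∑ i ∈ (range (m + 1)).filter (fun i => T < Dl U z τ₀ i + 4), ((Dl U z τ₀ i : ℝ) + 4 - T) := by
      rw [Nat.cast_sum]
      apply sum_congr rfl
      intro i hi
      rw [mem_filter] at hi
      rw [Nat.cast_sub (by omega)]
      push_cast; ring
    have h4 : (T : ℝ) ≤ ∑ i ∈ (range (m + 1)).filter (fun i => T < Dl U z τ₀ i + 4),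
        ((Dl U z τ₀ i : ℝ) + 4 - T) := by
      rw [← h3]; exact_mod_cast h1
    have h5 : ∑ i ∈ (range (m + 1)).filter (fun i => T < Dl U z τ₀ i + 4),
        ((Dl U z τ₀ i : ℝ) + 4 - T) =
        (∑ i ∈ (range (m + 1)).filter (fun i => T < Dl U z τ₀ i + 4), (Dl U z τ₀ i : ℝ)) -
        ((range (m + 1)).filter (fun i => T < Dl U z τ₀ i + 4)).card * ((T : ℝ) - 4) := by
      have : ∀ i, ((Dl U z τ₀ i : ℝ) + 4 - T) = (Dl U z τ₀ i : ℝ) - ((T : ℝ) - 4) := fun i => by ring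
      simp_rw [this]
      rw [sum_sub_distrib, sum_const, nsmul_eq_mul]
    rw [h5] at h4
    show (_ + 1 : ℝ) * ((T : ℝ) - 4) ≤ _
    linarith

/-- There are no long grids below the critical exponent. -/
theorem no_grid {c : ℝ} (hc0 : 9 / 2 ≤ c) (hc : c ^ 2 - 5 * c + 2 < 0) :
    ∃ Λ : ℕ, ∀ κ : ℕ, ∃ t : ℕ, ∀ τ₀ ≥ t, ∀ (z : ℕ → ℕ) (U : Finset ℕ),
      ¬ Grid c τ₀ (Λ * τ₀) κ z U := by
  -- choose a slightly larger exponent
  obtain ⟨c', hcc, hc'⟩ : ∃ c', c < c' ∧ c' ^ 2 - 5 * c' + 2 < 0 := by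
    have h1 := c_lt hc
    set e := -(c ^ 2 - 5 * c + 2) with he
    have he0 : 0 < e := by linarith
    have he1 : e ≤ 1 := by nlinarith
    refine ⟨c + e / 10, by linarith, ?_⟩
    nlinarith
  obtain ⟨K, hK⟩ := Layers.no_long (by linarith) hc'
  refine ⟨8 * 50 ^ (K + 1), fun κ => ⟨max (40 + κ) ⌈(60 + 7 * (κ : ℝ) + 20) / (c' - c)⌉₊,
    fun τ₀ hτ₀ z U hG => ?_⟩⟩
  have h1 : 40 + κ ≤ τ₀ := (le_max_left _ _).trans hτ₀
  have h2 : (60 + 7 * (κ : ℝ) + 20) / (c' - c) ≤ τ₀ := by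
    have h3 : ⌈(60 + 7 * (κ : ℝ) + 20) / (c' - c)⌉₊ ≤ τ₀ := (le_max_right _ _).trans hτ₀
    exact (Nat.le_ceil _).trans (by exact_mod_cast h3)
  exact hK _ _ _ (layers_of_grid hG hc0 hcc (c_lt hc') h1 h2 (by rw [mul_assoc]))

end Pool.Agent.Gap59
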