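import Pool.Agent.Lib_helper59.Gap59.ExistsGrid
import Pool.Agent.Lib_helper59.Gap59.NoGrid

set_option autoImplicit false
set_option maxHeartbeats 1000000

namespace Pool.Agent.Gap59

open Finset

namespace Base

variable {c : ℝ} {a : ℕ → ℕ} {n₀ b M τ₁ : ℕ}

open Classical in
/-- At most `z + 2` of the cells up to `z + τ` are fillable. -/
lemma cnt (h : Base c a n₀ b M τ₁) {τ : ℕ} (h1 : 1 ≤ τ) (hτ : τ ≤ τ₁) :
    ((range (zf a b τ + τ + 1)).filter (fun i => Fillable (Set.range a) b M i)).card ≤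
      zf a b τ + 2 := by
  have hb := h.b_ge
  have hbM := h.hb
  have h8 := h.hτ
  have hzle := h.z_le_nat hτ
  set z := zf a b τ with hz
  set n := z + τ + 1 with hn
  set F := (range n).filter (fun i => Fillable (Set.range a) b M i) with hF
  have hFn : ∀ i ∈ F, i < n := fun i hi => by rw [hF, mem_filter, mem_range] at hi; exact hi.1
  have hFcard : F.card ≤ n := by
    have := card_filter_le (range n) (fun i => Fillable (Set.range a) b M i)
    rwa [card_range] at this
  -- choose the costs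
  have hK : ∀ i, ∃ K : ℕ, i ∈ F → ∀ V : Finset ℕ, V.card * 4 ≤ b * K → ∃ E : Finset ℕ,
      (E : Set ℕ) ⊆ Set.range a ∧ Disjoint E V ∧ E.card ≤ 2 * K ∧ Realises E b M i := by
    intro i
    by_cases hi : i ∈ F
    · have h2 := hi
      rw [hF, mem_filter] at h2
      obtain ⟨K, hK⟩ := h2.2
      exact ⟨K, fun _ => hK⟩
    · exact ⟨0, fun hh => absurd hh hi⟩
  choose K hK using hK
  -- the requests
  set KK : Option ℕ → ℕ := fun o => o.elim (b ^ (τ - 1)) K with hKK
  set P : Option ℕ → Finset ℕ → Prop := fun o E => match o with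
    | none => E ⊆ win a b z ∧ E.card = b ^ (τ - 1)
    | some i => (E : Set ℕ) ⊆ Set.range a ∧ Realises E b M i with hP
  set s : Finset (Option ℕ) := insert none (F.image some) with hs
  have hscard : s.card ≤ n + 1 := by
    refine (card_insert_le _ _).trans ?_
    have : (F.image some).card ≤ F.card := card_image_le
    omega
  have hbτ : b ^ τ = b * b ^ (τ - 1) := by rw [← pow_succ']; congr 1; omega
  have hpos : 0 < b ^ (τ - 1) := Nat.pow_pos (by omega)
  obtain ⟨E, hE1, hE2⟩ := greedy KK P b s (by omega) (by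
    intro o ho V hV
    rw [hs, mem_insert, mem_image] at ho
    rcases ho with rfl | ⟨i, hi, rfl⟩
    · have h2 := h.z_spec hτ
      rw [← hz] at h2
      have h3 := le_card_sdiff V (win a b z)
      have hV' : V.card * 4 ≤ b * b ^ (τ - 1) := hV
      have h4 : b ^ (τ - 1) ≤ (win a b z \ V).card := by
        have h5 : 2 * b ^ (τ - 1) ≤ b * b ^ (τ - 1) := Nat.mul_le_mul_right _ (by omega)
        omega
      obtain ⟨E, hE1, hE2⟩ := exists_subset_card_eq h4
      refine ⟨E, ?_, ?_, ?_, hE2⟩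
      · exact disjoint_of_subset_left hE1 sdiff_disjoint
      · show E.card ≤ 2 * b ^ (τ - 1); omega
      · exact hE1.trans sdiff_subset
    · obtain ⟨E, hE1, hE2, hE3, hE4⟩ := hK i hi V hV
      exact ⟨E, hE2, hE3, hE1, hE4⟩)
  have hsn : none ∈ s := mem_insert_self _ _
  have hss : ∀ i ∈ F, some i ∈ s := fun i hi => mem_insert_of_mem (mem_image_of_mem _ hi)
  have hW := (hE1 none hsn).1
  have hbound := count_bound h.seq.adm (b := b) (M := M) (by omega) F (fun i => E (some i))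
    (fun i hi => ((hE1 (some i) (hss i hi)).1).1) (fun i hi => ((hE1 (some i) (hss i hi)).1).2)
    (fun i hi j hj hij => hE2 _ (hss i hi) _ (hss j hj) (by simpa using hij)) n hFn (E none)
    (fun x hx => (mem_win.mp (hW.1 hx)).2)
    (fun i hi => hE2 _ hsn _ (hss i hi) (by simp)) (X := b ^ (z + 1))
    (fun w hw => (mem_win.mp (hW.1 hw)).1.2.le) (by
      rw [hW.2, hn, ← pow_add]
      have h2 : b ^ (z + τ + 1) = b * b ^ (τ - 1 + (z + 1)) := by
        rw [← pow_succ']; congr 1; omega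
      rw [h2]
      exact Nat.mul_le_mul_right _ (by omega))
  rw [hW.2] at hbound
  -- conclude
  by_contra hcon
  rw [not_le] at hcon
  have h2 : b ^ (τ - 1) * b ^ F.card ≤ 16 ^ F.card * b ^ n := by
    calc b ^ (τ - 1) * b ^ F.card = 16 ^ F.card * (b ^ (τ - 1) * M ^ F.card) := by
          rw [hbM]; rw [mul_pow 16 M F.card]; ring
      _ ≤ 16 ^ F.card * b ^ n := Nat.mul_le_mul_left _ hbound
  have h3 : b ^ (n + 1) ≤ b ^ (τ - 1) * b ^ F.card := by
    rw [← pow_add]; exact Nat.pow_le_pow_right (by omega) (by omega)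
  have h4 : 16 ^ F.card * b ^ n < b * b ^ n := by
    apply Nat.mul_lt_mul_of_pos_right _ (Nat.pow_pos (by omega))
    calc 16 ^ F.card ≤ 16 ^ (8 * τ₁ + 40) := Nat.pow_le_pow_right (by norm_num) (by omega)
      _ < b := h.h16
  have h5 : b ^ (n + 1) = b * b ^ n := by ring
  omega

open Classical in
/-- The grid attached to the sequence. -/
theorem grid (h : Base c a n₀ b M τ₁) {τ₀ κ : ℕ} (h42 : 48 ≤ τ₀) 
    (hκ : (6 * τ₁ + 7) / (τ₀ / 12) + 1 ≤ κ) :
    ∃ U : Finset ℕ, Grid c τ₀ τ₁ κ (zf a b) U := by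
  have hc1 := h.c1
  have hc2 := h.c2
  set D := ((Icc τ₀ τ₁).image (zf a b)).filter (fun i => ¬ Fillable (Set.range a) b M i) with hD
  set U := (range (8 * τ₁ + 40)).filter (fun i => Fillable (Set.range a) b M i) ∪
    (Icc τ₀ τ₁).image (zf a b) with hU
  have hfillU : ∀ i, i < 8 * τ₁ + 40 → Fillable (Set.range a) b M i → i ∈ U := by
    intro i hi hf
    rw [hU, mem_union, mem_filter, mem_range]
    exact Or.inl ⟨hi, hf⟩
  have hzU : ∀ τ, τ₀ ≤ τ → τ ≤ τ₁ → zf a b τ ∈ U := by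
    intro τ h1 h2
    rw [hU, mem_union]
    exact Or.inr (mem_image_of_mem _ (mem_Icc.mpr ⟨h1, h2⟩))
  -- lower bound for the locations
  have hzge : ∀ τ, τ₀ ≤ τ → τ ≤ τ₁ → τ ≤ zf a b τ + 1 := by
    intro τ h1 h2
    obtain ⟨Z, hZ1, hZ2⟩ := h.lev (by omega) h2
    have : Z ⊆ range (zf a b τ + 1) := by
      intro j hj
      have := (hZ2 j hj).1
      rw [mem_range]; omega
    have := card_le_card this
    rw [card_range] at this
    omega
  have hDcard : D.card ≤ κ := by
    refine le_trans ?_ hκ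
    have hl : 4 ≤ τ₀ / 12 := by omega
    have hmaps : ∀ x ∈ D, x / (τ₀ / 12) ∈ range ((6 * τ₁ + 7) / (τ₀ / 12) + 1) := by
      intro x hx
      rw [hD, mem_filter, mem_image] at hx
      obtain ⟨⟨τ, hτ, rfl⟩, -⟩ := hx
      rw [mem_Icc] at hτ
      rw [mem_range]
      have h1 := h.z_le_nat hτ.2
      have : zf a b τ / (τ₀ / 12) ≤ (6 * τ₁ + 7) / (τ₀ / 12) := Nat.div_le_div_right (by omega)
      omega
    have hsep : ∀ x ∈ D, ∀ y ∈ D, x < y → x + τ₀ / 12 ≤ y := by
      intro x hx y hy hxy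
      rw [hD, mem_filter, mem_image] at hx hy
      obtain ⟨⟨σ, hσ, rfl⟩, -⟩ := hx
      rw [mem_Icc] at hσ
      by_contra hcon
      rw [not_le] at hcon
      apply hy.2
      apply h.recd hσ.2 hxy
      have h1 := hzge σ hσ.1 hσ.2
      have h2 : (τ₀ : ℝ) ≤ zf a b σ + 1 := by exact_mod_cast (by omega : τ₀ ≤ zf a b σ + 1)
      have h3 : (y : ℝ) < zf a b σ + ((τ₀ / 12 : ℕ) : ℝ) := by exact_mod_cast hcon
      have h4 : ((τ₀ / 12 : ℕ) : ℝ) ≤ (τ₀ : ℝ) / 12 := Nat.cast_div_le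
      have h48 : (48 : ℝ) ≤ τ₀ := by exact_mod_cast h42
      have h5 : (τ₀ : ℝ) / 12 + 3 ≤ ((zf a b σ : ℝ) - 2) / (c + 1) := by
        rw [le_div_iff₀ (by linarith)]
        nlinarith
      linarith
    have hinj : Set.InjOn (fun x => x / (τ₀ / 12)) (D : Set ℕ) := by
      intro x hx y hy heq
      dsimp only at heq
      rw [mem_coe] at hx hy
      rcases lt_trichotomy x y with h1 | h1 | h1
      · exfalso
        have h2 := hsep x hx y hy h1
        have h3 : (x + τ₀ / 12) / (τ₀ / 12) ≤ y / (τ₀ / 12) := Nat.div_le_div_right h2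
        rw [Nat.add_div_right _ (by omega)] at h3
        omega
      · exact h1
      · exfalso
        have h2 := hsep y hy x hx h1
        have h3 : (y + τ₀ / 12) / (τ₀ / 12) ≤ x / (τ₀ / 12) := Nat.div_le_div_right h2
        rw [Nat.add_div_right _ (by omega)] at h3
        omega
    have := card_le_card_of_injOn _ hmaps hinj
    rwa [card_range] at this
  refine ⟨U, ?_, ?_, ?_, ?_, ?_, ?_⟩
  · intro σ τ _ h2 h3; exact h.z_mono h2 h3
  · intro τ _ h2; exact h.z_le h2
  · intro τ h1 h2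
    obtain ⟨Z, hZ1, hZ2⟩ := h.lev (by omega) h2
    refine ⟨Z, hZ1, fun j hj => ⟨(hZ2 j hj).1, fun i hi1 hi2 => ?_⟩⟩
    have h3 := h.z_le_nat h2
    have h4 := (hZ2 j hj).1
    exact hfillU i (by omega) ((hZ2 j hj).2 i hi1 hi2)
  · intro τ h1 h2 i hi1 hi2
    rcases Nat.eq_or_lt_of_le hi1 with h3 | h3
    · rw [← h3]; exact hzU τ h1 h2
    · apply hfillU i _ (h.recd h2 h3 hi2)
      have h4 := h.z_le h2
      have h5 : ((zf a b τ : ℝ) - 2) / (c + 1) ≤ τ + 1 := by
        rw [div_le_iff₀ (by linarith)]; linarith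
      have h6 : (i : ℝ) ≤ zf a b τ + τ := by linarith
      have h7 : i ≤ zf a b τ + τ := by exact_mod_cast h6
      have h8 := h.z_le_nat h2
      omega
  · intro τ h1 h2 i hi1 hi2
    rcases Nat.eq_or_lt_of_le hi2 with h3 | h3
    · rw [h3]; exact hzU τ h1 h2
    · have h8 := h.z_le_nat h2
      exact hfillU i (by omega) (h.fill_gap h2 hi1 h3)
  · intro τ h1 h2
    have h3 := h.cnt (τ := τ) (by omega) h2
    have hsub : U.filter (fun i => i < zf a b τ + τ + 1) ⊆
        (range (zf a b τ + τ + 1)).filter (fun i => Fillable (Set.range a) b M i) ∪ D := by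
      intro i hi
      rw [mem_filter, hU, mem_union, mem_filter] at hi
      rw [mem_union, mem_filter, mem_range, hD, mem_filter]
      by_cases hf : Fillable (Set.range a) b M i
      · exact Or.inl ⟨hi.2, hf⟩
      · rcases hi.1 with h4 | h4
        · exact absurd h4.2 hf
        · exact Or.inr ⟨h4, hf⟩
    have h4 := card_le_card hsub
    have h5 := card_union_le ((range (zf a b τ + τ + 1)).filter
      (fun i => Fillable (Set.range a) b M i)) D
    unfold cntU
    omega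

end Base

/-- The lower bound: no exponent between `9/2` and the root is attainable. -/
theorem not_attainable_aux {c : ℝ} (hc1 : 9 / 2 ≤ c) (hc : c ^ 2 - 5 * c + 2 < 0) :
    ¬ Att c := by
  rintro ⟨a, ha1, ha2, ha3, n₀, ha4⟩
  have hseq : GapSeq c a n₀ := ⟨ha1, ha2, ha3, ha4⟩
  obtain ⟨Λ, hΛ⟩ := no_grid hc1 hc
  set κ := 150 * Λ + 200 with hκ
  obtain ⟨t, ht⟩ := hΛ κ
  set τ₀ := max t 48 with hτ₀
  set τ₁ := Λ * τ₀ with hτ₁
  obtain ⟨M, hM⟩ : ∃ M, M = 16 ^ (8 * τ₁ + 40) + 8 * (8 * τ₁ + 40) + a n₀ + 2 := ⟨_, rfl⟩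
  have hBase : Base c a n₀ (16 * M) M τ₁ := by
    have hp : 0 < 16 ^ (8 * τ₁ + 40) := by positivity
    have h1 : 1 ≤ M := by rw [hM]; omega
    have h2 : a n₀ + 2 ≤ M := by rw [hM]; exact Nat.add_le_add_right (Nat.le_add_left _ _) 2
    have h3 : 8 * (8 * τ₁ + 40) ≤ M := by
      rw [hM]
      exact (Nat.le_add_left _ _).trans ((Nat.le_add_right _ _).trans (Nat.le_add_right _ _))
    have h4 : 16 ^ (8 * τ₁ + 40) ≤ M := by
      rw [hM]
      exact (Nat.le_add_right _ _).trans ((Nat.le_add_right _ _).trans (Nat.le_add_right _ _))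
    exact ⟨hseq, hc1, c_lt hc, rfl, h1, by omega, by omega, by omega⟩
  obtain ⟨U, hU⟩ := hBase.grid (τ₀ := τ₀) (κ := κ) (le_max_right _ _) (by
    have h48 : 48 ≤ τ₀ := le_max_right _ _
    have hq : τ₀ ≤ 24 * (τ₀ / 12) := by omega
    have h1 : 6 * τ₁ + 7 ≤ (144 * Λ + 7) * (τ₀ / 12) := by
      have h2 : Λ * τ₀ ≤ Λ * (24 * (τ₀ / 12)) := Nat.mul_le_mul_left _ hq
      have h3 : 1 ≤ τ₀ / 12 := by omega
      calc 6 * τ₁ + 7 ≤ 6 * (Λ * (24 * (τ₀ / 12))) + 7 * (τ₀ / 12) := by omega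
        _ = _ := by ring
    have h2 : (6 * τ₁ + 7) / (τ₀ / 12) ≤ 144 * Λ + 7 := by
      apply Nat.div_le_of_le_mul
      rw [mul_comm (τ₀ / 12)]; exact h1
    omega)
  exact ht τ₀ (le_max_left _ _) _ U hU

/-- Attainability is monotone in the exponent. -/
lemma attainable_mono {c c' : ℝ} (h : c ≤ c') (hc : Att c) : Att c' := by
  obtain ⟨a, h1, h2, h3, n₀, h4⟩ := hc
  refine ⟨a, h1, h2, h3, n₀, fun n hn => (h4 n hn).trans ?_⟩
  apply Real.rpow_le_rpow_of_exponent_le _ h
  have : (0 : ℝ) ≤ n := Nat.cast_nonneg n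
  linarith

/-- The lower bound for attainable exponents. -/
theorem ge_of_attainable {c : ℝ} (hc : Att c) : (5 + Real.sqrt 17) / 2 ≤ c := by
  by_contra hcon
  rw [not_le] at hcon
  have h17 : Real.sqrt 17 ^ 2 = 17 := Real.sq_sqrt (by norm_num)
  have h17b : 4.1 < Real.sqrt 17 := by
    apply Real.lt_sqrt_of_sq_lt; norm_num
  have h1 : (max c (9 / 2)) < (5 + Real.sqrt 17) / 2 := max_lt hcon (by linarith)
  refine not_attainable_aux (c := max c (9 / 2)) (le_max_right _ _) ?_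
    (attainable_mono (le_max_left _ _) hc)
  have h2 : 9 / 2 ≤ max c (9 / 2) := le_max_right _ _
  nlinarith

end Pool.Agent.Gap59
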