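import Mathlib
import Pool.Agent.Lib_helper59.Gap59.Working

set_option autoImplicit false
set_option maxHeartbeats 1000000

namespace Pool.Agent.Gap59

open Finset

/-- `E` realises cell `i`: for some `r`, `r`-element subsets of `E` have sums `t p`
(`p < M`) lying one each in the intervals `[y + 2 p b^i, y + (2 p + 1) b^i)`. -/
def Realises (E : Finset ℕ) (b M i : ℕ) : Prop :=
  ∃ (r y : ℕ) (t : ℕ → ℕ), ∀ p < M, (y + 2 * p * b ^ i ≤ t p ∧ t p < y + (2 * p + 1) * b ^ i) ∧
    ∃ B ⊆ E, B.card = r ∧ ∑ x ∈ B, x = t p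

/-- Robust fillability of cell `i`. -/
def Fillable (A : Set ℕ) (b M i : ℕ) : Prop :=
  ∃ K : ℕ, ∀ V : Finset ℕ, V.card * 4 ≤ b * K → ∃ E : Finset ℕ, (E : Set ℕ) ⊆ A ∧
    Disjoint E V ∧ E.card ≤ 2 * K ∧ Realises E b M i

/-- Greedy choice of pairwise disjoint sets. -/
lemma greedy {ι : Type*} [DecidableEq ι] (K : ι → ℕ) (P : ι → Finset ℕ → Prop) (b : ℕ)
    (s : Finset ι) (hb : 8 * s.card ≤ b)
    (h : ∀ i ∈ s, ∀ V : Finset ℕ, V.card * 4 ≤ b * K i → ∃ E : Finset ℕ, Disjoint E V ∧
      E.card ≤ 2 * K i ∧ P i E) :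
    ∃ E : ι → Finset ℕ, (∀ i ∈ s, P i (E i) ∧ (E i).card ≤ 2 * K i) ∧
      (∀ i ∈ s, ∀ j ∈ s, i ≠ j → Disjoint (E i) (E j)) := by
  induction s using Finset.induction_on_max_value K with
  | empty => exact ⟨fun _ => ∅, by simp, by simp⟩
  | insert a s ha hmax ih =>
    rw [card_insert_of_notMem ha] at hb
    obtain ⟨E, hE1, hE2⟩ := ih (by omega) (fun i hi => h i (mem_insert_of_mem hi))
    set V := s.biUnion E with hV
    have hVcard : V.card ≤ s.card * (2 * K a) := by
      refine card_biUnion_le.trans ?_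
      refine (sum_le_card_nsmul s _ (2 * K a) ?_).trans (by simp)
      intro i hi
      exact (hE1 i hi).2.trans (Nat.mul_le_mul_left 2 (hmax i hi))
    have hV4 : V.card * 4 ≤ b * K a := by
      calc V.card * 4 ≤ s.card * (2 * K a) * 4 := Nat.mul_le_mul_right 4 hVcard
        _ = (8 * s.card) * K a := by ring
        _ ≤ b * K a := Nat.mul_le_mul_right _ (by omega)
    obtain ⟨Ea, hEa1, hEa2, hEa3⟩ := h a (mem_insert_self a s) V hV4
    refine ⟨fun i => if i = a then Ea else E i, ?_, ?_⟩
    · intro i hi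
      by_cases hia : i = a
      · subst hia; simp only [if_true]; exact ⟨hEa3, hEa2⟩
      · simp only [hia, if_false]
        exact hE1 i (mem_of_mem_insert_of_ne hi hia)
    · intro i hi j hj hij
      have hdisV : ∀ k ∈ s, Disjoint Ea (E k) := fun k hk =>
        hEa1.mono_right (subset_biUnion_of_mem E hk)
      by_cases hia : i = a
      · subst hia
        have hja : j ≠ i := fun hh => hij hh.symm
        simp only [if_true, hja, if_false]
        exact hdisV j (mem_of_mem_insert_of_ne hj hja)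
      · by_cases hja : j = a
        · subst hja
          simp only [if_true, hia, if_false]
          exact (hdisV i (mem_of_mem_insert_of_ne hi hia)).symm
        · simp only [hia, hja, if_false]
          exact hE2 i (mem_of_mem_insert_of_ne hi hia) j (mem_of_mem_insert_of_ne hj hja) hij

/-- Packing: the sumset of the realised cells. -/
lemma packing {b M : ℕ} (hb : 4 * M + 1 ≤ b) (F : Finset ℕ) (E : ℕ → Finset ℕ)
    (hE : ∀ i ∈ F, Realises (E i) b M i)
    (hdis : ∀ i ∈ F, ∀ j ∈ F, i ≠ j → Disjoint (E i) (E j)) (n : ℕ) :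
    ∃ (S : Finset ℕ) (R Y : ℕ), (∀ s ∈ S, Y ≤ s ∧ 2 * s < 2 * Y + b ^ n) ∧
      S.card = M ^ (F.filter (fun i => i < n)).card ∧
      ∀ s ∈ S, ∃ B ⊆ (F.filter (fun i => i < n)).biUnion E, B.card = R ∧ ∑ x ∈ B, x = s := by
  induction n with
  | zero =>
    refine ⟨{0}, 0, 0, ?_, ?_, ?_⟩
    · intro s hs; rw [mem_singleton] at hs; subst hs; simp
    · simp
    · intro s hs; rw [mem_singleton] at hs; subst hs
      exact ⟨∅, empty_subset _, by simp, by simp⟩
  | succ n ih =>
    obtain ⟨S, R, Y, h1, h2, h3⟩ := ih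
    have hbpos : 0 < b ^ n := Nat.pow_pos (by omega)
    by_cases hn : n ∈ F
    · obtain ⟨r, y, t, ht⟩ := hE n hn
      have hfil : F.filter (fun i => i < n + 1) = insert n (F.filter (fun i => i < n)) := by
        ext i
        simp only [mem_filter, mem_insert]
        constructor
        · rintro ⟨h4, h5⟩
          rcases Nat.lt_or_ge i n with h6 | h6
          · exact Or.inr ⟨h4, h6⟩
          · exact Or.inl (by omega)
        · rintro (rfl | ⟨h4, h5⟩)
          · exact ⟨hn, by omega⟩
          · exact ⟨h4, by omega⟩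
      have hnot : n ∉ F.filter (fun i => i < n) := by simp
      refine ⟨(S ×ˢ range M).image (fun q => q.1 + t q.2), R + r, Y + y, ?_, ?_, ?_⟩
      · intro s hs
        rw [mem_image] at hs
        obtain ⟨⟨s, p⟩, hq, rfl⟩ := hs
        rw [mem_product, mem_range] at hq
        obtain ⟨hs, hp⟩ := hq
        obtain ⟨h4, h5⟩ := h1 s hs
        obtain ⟨⟨h6, h7⟩, -⟩ := ht p hp
        dsimp only at *
        refine ⟨by omega, ?_⟩
        have h8 : (2 * p + 1) * b ^ n ≤ (2 * M) * b ^ n := Nat.mul_le_mul_right _ (by omega)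
        have h9 : (4 * M + 1) * b ^ n ≤ b * b ^ n := Nat.mul_le_mul_right _ hb
        have h10 : b ^ (n + 1) = b * b ^ n := by ring
        have h11 : (4 * M + 1) * b ^ n = 2 * ((2 * M) * b ^ n) + b ^ n := by ring
        omega
      · rw [card_image_of_injOn, card_product, card_range, h2, hfil, card_insert_of_notMem hnot,
          pow_succ]
        rintro ⟨s, p⟩ hq ⟨s', p'⟩ hq' heq
        rw [mem_coe, mem_product, mem_range] at hq hq'
        dsimp only at *
        obtain ⟨hs, hp⟩ := hq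
        obtain ⟨hs', hp'⟩ := hq'
        obtain ⟨h4, h5⟩ := h1 s hs
        obtain ⟨h4', h5'⟩ := h1 s' hs'
        obtain ⟨⟨h6, h7⟩, -⟩ := ht p hp
        obtain ⟨⟨h6', h7'⟩, -⟩ := ht p' hp'
        have hpp : p = p' := by
          rcases lt_trichotomy p p' with hlt | he | hgt
          · exfalso
            have h8 : (2 * p + 2) * b ^ n ≤ (2 * p') * b ^ n := Nat.mul_le_mul_right _ (by omega)
            have h9 : (2 * p + 2) * b ^ n = (2 * p + 1) * b ^ n + b ^ n := by ring
            omega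
          · exact he
          · exfalso
            have h8 : (2 * p' + 2) * b ^ n ≤ (2 * p) * b ^ n := Nat.mul_le_mul_right _ (by omega)
            have h9 : (2 * p' + 2) * b ^ n = (2 * p' + 1) * b ^ n + b ^ n := by ring
            omega
        subst hpp
        have : s = s' := by omega
        rw [this]
      · intro s hs
        rw [mem_image] at hs
        obtain ⟨⟨s, p⟩, hq, rfl⟩ := hs
        rw [mem_product, mem_range] at hq
        obtain ⟨hs, hp⟩ := hq
        dsimp only at *
        obtain ⟨B, hB1, hB2, hB3⟩ := h3 s hs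
        obtain ⟨-, B', hB1', hB2', hB3'⟩ := ht p hp
        have hd : Disjoint B B' := by
          rw [disjoint_left]
          intro x hx hx'
          have h4 := hB1 hx
          rw [mem_biUnion] at h4
          obtain ⟨i, hi, hxi⟩ := h4
          rw [mem_filter] at hi
          exact disjoint_left.mp (hdis i hi.1 n hn (by omega)) hxi (hB1' hx')
        refine ⟨B ∪ B', ?_, ?_, ?_⟩
        · rw [hfil, biUnion_insert]
          intro x hx
          rw [mem_union] at hx ⊢
          rcases hx with hx | hx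
          · exact Or.inr (hB1 hx)
          · exact Or.inl (hB1' hx)
        · rw [card_union_of_disjoint hd, hB2, hB2']
        · rw [sum_union hd, hB3, hB3']
    · have hfil : F.filter (fun i => i < n + 1) = F.filter (fun i => i < n) := by
        ext i
        simp only [mem_filter]
        constructor
        · rintro ⟨h4, h5⟩
          refine ⟨h4, ?_⟩
          rcases Nat.lt_or_ge i n with h6 | h6
          · exact h6
          · have : i = n := by omega
            subst this; exact absurd h4 hn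
        · rintro ⟨h4, h5⟩; exact ⟨h4, by omega⟩
      refine ⟨S, R, Y, ?_, ?_, ?_⟩
      · intro s hs
        obtain ⟨h4, h5⟩ := h1 s hs
        have h8 : b ^ n ≤ b ^ (n + 1) := Nat.pow_le_pow_right (by omega) (by omega)
        exact ⟨h4, by omega⟩
      · rw [hfil, h2]
      · rw [hfil]; exact h3

/-- The counting consequence of admissibility. -/
lemma count_bound {A : Set ℕ} (hA : Adm A) {b M : ℕ} (hb : 4 * M + 1 ≤ b) (F : Finset ℕ)
    (E : ℕ → Finset ℕ) (hEA : ∀ i ∈ F, (E i : Set ℕ) ⊆ A)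
    (hE : ∀ i ∈ F, Realises (E i) b M i)
    (hdis : ∀ i ∈ F, ∀ j ∈ F, i ≠ j → Disjoint (E i) (E j)) (n : ℕ) (hn : ∀ i ∈ F, i < n)
    (W : Finset ℕ) (hWA : (W : Set ℕ) ⊆ A) (hW : ∀ i ∈ F, Disjoint W (E i)) {X : ℕ}
    (hX : ∀ w ∈ W, w ≤ X) (hWX : 2 * (W.card * X) ≤ b ^ n) :
    W.card * M ^ F.card ≤ b ^ n := by
  obtain ⟨S, R, Y, h1, h2, h3⟩ := packing hb F E hE hdis n
  have hfil : F.filter (fun i => i < n) = F := by
    rw [filter_eq_self]; exact hn
  rw [hfil] at h2 h3
  -- sets of each cardinality in `W`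
  have hC : ∀ r, ∃ C : Finset ℕ, C ⊆ W ∧ (r ≤ W.card → C.card = r) := by
    intro r
    by_cases hr : r ≤ W.card
    · obtain ⟨C, hC1, hC2⟩ := exists_subset_card_eq hr
      exact ⟨C, hC1, fun _ => hC2⟩
    · exact ⟨∅, empty_subset _, fun hh => absurd hh hr⟩
  choose C hC1 hC2 using hC
  choose! B hB1 hB2 hB3 using h3
  have hCsum : ∀ r, ∑ x ∈ C r, x ≤ W.card * X := by
    intro r
    calc ∑ x ∈ C r, x ≤ (C r).card • X := sum_le_card_nsmul _ _ _ (fun x hx => hX x (hC1 r hx))
      _ ≤ W.card * X := by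
        rw [smul_eq_mul]; exact Nat.mul_le_mul_right _ (card_le_card (hC1 r))
  have hdCB : ∀ r, ∀ s ∈ S, Disjoint (C r) (B s) := by
    intro r s hs
    rw [disjoint_left]
    intro x hx hx'
    have h4 := hB1 s hs hx'
    rw [mem_biUnion] at h4
    obtain ⟨i, hi, hxi⟩ := h4
    exact disjoint_left.mp (hW i hi) (hC1 r hx) hxi
  have hsubA : ∀ r, ∀ s ∈ S, ((C r ∪ B s : Finset ℕ) : Set ℕ) ⊆ A := by
    intro r s hs x hx
    rw [mem_coe, mem_union] at hx
    rcases hx with hx | hx
    · exact hWA (hC1 r hx)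
    · have h4 := hB1 s hs hx
      rw [mem_biUnion] at h4
      obtain ⟨i, hi, hxi⟩ := h4
      exact hEA i hi hxi
  have hmaps : ((Icc 1 W.card) ×ˢ S).image (fun q => (∑ x ∈ C q.1, x) + q.2) ⊆
      Ico Y (Y + b ^ n) := by
    intro v hv
    rw [mem_image] at hv
    obtain ⟨⟨r, s⟩, hq, rfl⟩ := hv
    rw [mem_product] at hq
    obtain ⟨h4, h5⟩ := h1 s hq.2
    have h6 := hCsum r
    rw [mem_Ico]
    dsimp only
    constructor
    · omega
    · omega
  have hinj : Set.InjOn (fun q : ℕ × ℕ => (∑ x ∈ C q.1, x) + q.2)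
      ((Icc 1 W.card) ×ˢ S : Finset (ℕ × ℕ)) := by
    rintro ⟨r, s⟩ hq ⟨r', s'⟩ hq' heq
    rw [mem_coe, mem_product, mem_Icc] at hq hq'
    dsimp only at *
    obtain ⟨⟨hr1, hr2⟩, hs⟩ := hq
    obtain ⟨⟨hr1', hr2'⟩, hs'⟩ := hq'
    have hsum : ∑ x ∈ C r ∪ B s, x = ∑ x ∈ C r' ∪ B s', x := by
      rw [sum_union (hdCB r s hs), sum_union (hdCB r' s' hs'), hB3 s hs, hB3 s' hs']
      exact heq
    have hne : ∀ r s, 1 ≤ r → r ≤ W.card → (C r ∪ B s).Nonempty := by
      intro r s h4 h5
      have : (C r).Nonempty := by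
        rw [← Finset.card_pos, hC2 r h5]; omega
      exact this.mono subset_union_left
    have hcard := hA _ _ (hsubA r s hs) (hsubA r' s' hs') (hne r s hr1 hr2) (hne r' s' hr1' hr2') hsum
    rw [card_union_of_disjoint (hdCB r s hs), card_union_of_disjoint (hdCB r' s' hs'),
      hB2 s hs, hB2 s' hs', hC2 r hr2, hC2 r' hr2'] at hcard
    have hrr : r = r' := by omega
    subst hrr
    have : s = s' := by omega
    rw [this]
  have h4 := card_le_card hmaps
  rw [card_image_of_injOn hinj, card_product, Nat.card_Icc, Nat.card_Ico, h2] at h4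
  simpa using h4

end Pool.Agent.Gap59
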