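import Mathlib

set_option autoImplicit false
set_option maxHeartbeats 2000000

namespace Pool.Agent.Gap59

open Finset

/-- The purely numerical part of the lower bound: data of the alive layers. -/
structure Layers (c : ℝ) (K : ℕ) (Δ T : ℕ → ℝ) (L : ℕ → Finset ℕ) : Prop where
  Δnn : ∀ m, 0 ≤ Δ m
  Tpos : ∀ m ≤ K, 0 < T m
  Tmono : ∀ m < K, T m ≤ T (m + 1)
  memL : ∀ m ≤ K, ∀ i, i ∈ L m ↔ i ≤ m ∧ T m < Δ i
  A : ∀ m < K, (∑ i ∈ range (m + 1), Δ i) + (∑ i ∈ range (m + 2), Δ i) / (c + 1) ≤ c * T m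
  selfmem : ∀ m ≤ K, m ∈ L m
  B : ∀ m ≤ K, ((L m).card + 1 : ℝ) * T m ≤ ∑ i ∈ L m, Δ i

lemma c_lt {c : ℝ} (h2 : c ^ 2 - 5 * c + 2 < 0) : c < 4.5616 := by
  by_contra h
  rw [not_lt] at h
  nlinarith

/-- The quantity `ω < 1` measuring how far `c` is below the critical exponent. -/
lemma omega_lt {c : ℝ} (h1 : 9 / 2 ≤ c) (h2 : c ^ 2 - 5 * c + 2 < 0) :
    (c + 1) * (c - 2) ^ 2 / (8 * c) < 1 := by
  rw [div_lt_one (by linarith)]
  nlinarith

lemma key11 {c r δ : ℝ} (h1 : 9 / 2 ≤ c) (h2 : c ^ 2 - 5 * c + 2 < 0)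
    (hr : 0 ≤ r) (hδ0 : 0 ≤ δ) (hδ : 8 * δ ≤ 1 - (c + 1) * (c - 2) ^ 2 / (8 * c))
    (hs : 0 ≤ c * (1 - r) / 2 - 1) :
    (r + δ) * ((c + 1) * (c * (1 - r) / 2 - 1)) ≤ 1 := by
  have hc := c_lt h2
  have hc0 : 0 < c := by linarith
  have e1 : r * ((c + 1) * (c * (1 - r) / 2 - 1)) ≤ (c + 1) * (c - 2) ^ 2 / (8 * c) := by
    rw [le_div_iff₀ (by linarith)]
    nlinarith [mul_nonneg (by linarith : (0:ℝ) ≤ c + 1) (sq_nonneg (2 * c * r - (c - 2)))]
  have e2 : (c + 1) * (c * (1 - r) / 2 - 1) ≤ 8 := by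
    have : c * (1 - r) / 2 - 1 ≤ c / 2 - 1 := by nlinarith
    nlinarith
  have e3 : 0 ≤ (c + 1) * (c * (1 - r) / 2 - 1) := mul_nonneg (by linarith) hs
  nlinarith

lemma key12 {c r : ℝ} (h1 : 9 / 2 ≤ c) (h2 : c ^ 2 - 5 * c + 2 < 0)
    (hr : 0 ≤ r) (hq1 : 1 ≤ (c + 1) * (c * (1 - r) / 2 - 1)) (hr2 : 0.25 < r) :
    (r - 0.25) * ((c + 1) * (c * (1 - r) / 2 - 1)) ≤ 1.2 * r := by
  have hc := c_lt h2
  have e1 : (c + 1) * (c * (1 - r) / 2 - 1) ≤ 7.13 - 12.37 * r := by
    have a1 : (c + 1) * (c / 2 - 1) ≤ 7.13 := by nlinarith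
    have a2 : 12.37 ≤ (c + 1) * (c / 2) := by nlinarith
    have a3 : 12.37 * r ≤ (c + 1) * (c / 2) * r := mul_le_mul_of_nonneg_right a2 hr
    have a4 : (c + 1) * (c * (1 - r) / 2 - 1) = (c + 1) * (c / 2 - 1) - (c + 1) * (c / 2) * r := by
      ring
    linarith
  have e2 : (r - 0.25) * ((c + 1) * (c * (1 - r) / 2 - 1)) ≤ (r - 0.25) * (7.13 - 12.37 * r) :=
    mul_le_mul_of_nonneg_left e1 (by linarith)
  have e3 : (r - 0.25) * (7.13 - 12.37 * r) ≤ 1.2 * r := by
    nlinarith [sq_nonneg (r - 0.36)]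
  linarith

lemma q3_le {c r : ℝ} (h1 : 9 / 2 ≤ c) (h2 : c ^ 2 - 5 * c + 2 < 0) (hr : 0 ≤ r) :
    (c + 1) * (c * (1 - r) / 3 - 1) ≤ 2.896 - 8.25 * r := by
  have hc := c_lt h2
  have a1 : (c + 1) * (c / 3 - 1) ≤ 2.896 := by nlinarith
  have a2 : 8.25 ≤ (c + 1) * (c / 3) := by nlinarith
  have a3 : 8.25 * r ≤ (c + 1) * (c / 3) * r := mul_le_mul_of_nonneg_right a2 hr
  have a4 : (c + 1) * (c * (1 - r) / 3 - 1) = (c + 1) * (c / 3 - 1) - (c + 1) * (c / 3) * r := by
    ring
  linarith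

lemma key21 {r q : ℝ} (hr : 0 ≤ r) (hq2 : q ≤ 2.896 - 8.25 * r) :
    (0.29 + 1.2 * r) * q ≤ 1 := by
  have e1 : (0.29 + 1.2 * r) * q ≤ (0.29 + 1.2 * r) * (2.896 - 8.25 * r) :=
    mul_le_mul_of_nonneg_left hq2 (by linarith)
  nlinarith [sq_nonneg (r - 0.055)]

lemma key22 {r q : ℝ} (hr : 0 ≤ r) (hq2 : q ≤ 2.896 - 8.25 * r) :
    (r + 0.0167) * q ≤ r + 0.2586 := by
  have e1 : (r + 0.0167) * q ≤ (r + 0.0167) * (2.896 - 8.25 * r) :=
    mul_le_mul_of_nonneg_left hq2 (by linarith)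
  nlinarith [sq_nonneg (r - 0.1)]

namespace Layers

variable {c : ℝ} {K : ℕ} {Δ T : ℕ → ℝ} {L : ℕ → Finset ℕ}

lemma U_mono (h : Layers c K Δ T L) (m : ℕ) :
    ∑ i ∈ range (m + 1), Δ i ≤ ∑ i ∈ range (m + 2), Δ i := by
  rw [sum_range_succ _ (m + 1)]
  have := h.Δnn (m + 1)
  linarith

lemma L_sub (h : Layers c K Δ T L) {m : ℕ} (hm : m ≤ K) : L m ⊆ range (m + 1) := by
  intro i hi
  rw [h.memL m hm] at hi
  rw [mem_range]; omega

lemma P_le (h : Layers c K Δ T L) {m : ℕ} (hm : m ≤ K) :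
    ∑ i ∈ L m, Δ i ≤ ∑ i ∈ range (m + 1), Δ i :=
  sum_le_sum_of_subset_of_nonneg (h.L_sub hm) (fun i _ _ => h.Δnn i)

lemma L_succ (h : Layers c K Δ T L) {m : ℕ} (hm : m < K) {i : ℕ} (hi : i ∈ L (m + 1)) :
    i ∈ L m ∨ i = m + 1 := by
  rw [h.memL (m + 1) (by omega)] at hi
  rcases Nat.lt_or_ge i (m + 1) with h1 | h1
  · left
    rw [h.memL m (by omega)]
    exact ⟨by omega, lt_of_le_of_lt (h.Tmono m hm) hi.2⟩
  · right; omega

lemma card_pos (h : Layers c K Δ T L) {m : ℕ} (hm : m ≤ K) : 1 ≤ (L m).card :=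
  Finset.card_pos.mpr ⟨m, h.selfmem m hm⟩

lemma P_pos (h : Layers c K Δ T L) {m : ℕ} (hm : m ≤ K) : 0 < ∑ i ∈ L m, Δ i := by
  have := h.B m hm
  have h2 := h.Tpos m hm
  have : (0:ℝ) < ((L m).card + 1 : ℝ) * T m := by positivity
  linarith

lemma U_pos (h : Layers c K Δ T L) {m : ℕ} (hm : m ≤ K) : 0 < ∑ i ∈ range (m + 1), Δ i :=
  lt_of_lt_of_le (h.P_pos hm) (h.P_le hm)

/-- `U_m (1 + 1/(c+1)) ≤ c T_m`. -/
lemma U_le_T (h : Layers c K Δ T L) (h1 : 9 / 2 ≤ c) {m : ℕ} (hm : m < K) :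
    (∑ i ∈ range (m + 1), Δ i) * (c + 2) ≤ c * (c + 1) * T m := by
  have e1 := h.A m hm
  have e2 := h.U_mono m
  have e3 : (∑ i ∈ range (m + 1), Δ i) / (c + 1) ≤ (∑ i ∈ range (m + 2), Δ i) / (c + 1) :=
    div_le_div_of_nonneg_right e2 (by linarith)
  have e4 : (∑ i ∈ range (m + 1), Δ i) + (∑ i ∈ range (m + 1), Δ i) / (c + 1) ≤ c * T m := by
    linarith
  have hc1 : (c + 1) ≠ 0 := by linarith
  have e5 : (∑ i ∈ range (m + 1), Δ i) + (∑ i ∈ range (m + 1), Δ i) / (c + 1) =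
      (∑ i ∈ range (m + 1), Δ i) * (c + 2) / (c + 1) := by field_simp; ring
  rw [e5, div_le_iff₀ (by linarith)] at e4
  linarith

lemma U_succ_le (h : Layers c K Δ T L) (h1 : 9 / 2 ≤ c) {m : ℕ} (hm : m < K) :
    (∑ i ∈ range (m + 2), Δ i) ≤ (c + 1) * (c * T m - ∑ i ∈ range (m + 1), Δ i) := by
  have e1 := h.A m hm
  have e2 : (∑ i ∈ range (m + 2), Δ i) / (c + 1) ≤ c * T m - ∑ i ∈ range (m + 1), Δ i := by
    linarith
  rw [div_le_iff₀ (by linarith)] at e2
  linarith

lemma card_le_two (h : Layers c K Δ T L) (h1 : 9 / 2 ≤ c) (h2 : c ^ 2 - 5 * c + 2 < 0)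
    {m : ℕ} (hm : m < K) : (L m).card ≤ 2 := by
  by_contra hcon
  have hc := c_lt h2
  have h3 : (3:ℝ) ≤ (L m).card := by
    have : 3 ≤ (L m).card := by omega
    exact_mod_cast this
  have e1 := h.B m hm.le
  have e2 := h.P_le hm.le
  have e3 := h.U_le_T h1 hm
  have e4 := h.Tpos m hm.le
  have e5 : 4 * T m ≤ ∑ i ∈ range (m + 1), Δ i := by nlinarith
  have e6 : 4 * T m * (c + 2) ≤ c * (c + 1) * T m := by nlinarith
  have e7 : 4 * (c + 2) ≤ c * (c + 1) := by
    by_contra hh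
    rw [not_le] at hh
    nlinarith
  nlinarith

/-- dead fraction -/
noncomputable def rr (Δ : ℕ → ℝ) (L : ℕ → Finset ℕ) (m : ℕ) : ℝ :=
  ((∑ i ∈ range (m + 1), Δ i) - ∑ i ∈ L m, Δ i) / ∑ i ∈ range (m + 1), Δ i

lemma rr_nonneg (h : Layers c K Δ T L) {m : ℕ} (hm : m ≤ K) : 0 ≤ rr Δ L m := by
  unfold rr
  exact div_nonneg (by linarith [h.P_le hm]) (h.U_pos hm).le

lemma rr_lt (h : Layers c K Δ T L) {m : ℕ} (hm : m ≤ K) : rr Δ L m < 1 := by
  unfold rr
  rw [div_lt_one (h.U_pos hm)]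
  linarith [h.P_pos hm]

/-- The potential. -/
noncomputable def pot (Δ : ℕ → ℝ) (L : ℕ → Finset ℕ) (m : ℕ) : ℝ :=
  if (L m).card = 1 then rr Δ L m else 0.27 + 1.2 * rr Δ L m

lemma pot_nonneg (h : Layers c K Δ T L) {m : ℕ} (hm : m ≤ K) : 0 ≤ pot Δ L m := by
  unfold pot
  have := h.rr_nonneg hm
  split_ifs <;> linarith

lemma pot_le (h : Layers c K Δ T L) {m : ℕ} (hm : m ≤ K) : pot Δ L m ≤ 1.5 := by
  unfold pot
  have := h.rr_lt hm
  split_ifs <;> linarith


lemma step {δ : ℝ} (h : Layers c K Δ T L) (h1 : 9 / 2 ≤ c) (h2 : c ^ 2 - 5 * c + 2 < 0)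
    (hδ0 : 0 ≤ δ) (hδ1 : δ ≤ 0.02) (hδ : 8 * δ ≤ 1 - (c + 1) * (c - 2) ^ 2 / (8 * c))
    {m : ℕ} (hm : m + 1 < K) : pot Δ L m + δ ≤ pot Δ L (m + 1) := by
  have hc := c_lt h2
  set U := ∑ i ∈ range (m + 1), Δ i with hU
  set U' := ∑ i ∈ range (m + 2), Δ i with hU'
  set P := ∑ i ∈ L m, Δ i with hP
  set P' := ∑ i ∈ L (m + 1), Δ i with hP'
  have hUU' : U' = U + Δ (m + 1) := by rw [hU', hU, sum_range_succ]
  have hUpos : 0 < U := h.U_pos (by omega)
  have hU'pos : 0 < U' := h.U_pos (m := m + 1) (by omega)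
  have hle : U ≤ U' := h.U_mono m
  have hPU : P ≤ U := h.P_le (by omega)
  have hPU' : P' ≤ U' := h.P_le (m := m + 1) (by omega)
  have hPpos : 0 < P := h.P_pos (by omega)
  have hsucc : U' ≤ (c + 1) * (c * T m - U) := h.U_succ_le h1 (by omega)
  have hUT : U * (c + 2) ≤ c * (c + 1) * T m := h.U_le_T h1 (by omega)
  have hTpos := h.Tpos m (by omega)
  have hB := h.B m (by omega)
  rw [← hP] at hB
  set r := rr Δ L m with hr
  set r' := rr Δ L (m + 1) with hr'
  have hrU : r * U = U - P := by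
    rw [hr, rr, ← hU, ← hP, div_mul_cancel₀ _ hUpos.ne']
  have hrU' : r' * U' = U' - P' := by
    rw [hr', rr, ← hU', ← hP', div_mul_cancel₀ _ hU'pos.ne']
  have hr0 : 0 ≤ r := h.rr_nonneg (by omega)
  have hr1 : r < 1 := h.rr_lt (by omega)
  have hc1 := h.card_pos (m := m) (by omega)
  have hc2 := h.card_le_two h1 h2 (m := m) (by omega)
  have hc1' := h.card_pos (m := m + 1) (by omega)
  have hc2' := h.card_le_two h1 h2 (m := m + 1) (by omega)
  have hself := h.selfmem m (by omega)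
  have hself' := h.selfmem (m + 1) (by omega)
  have hnot : ∀ i ∈ L m, i ≠ m + 1 := by
    intro i hi
    have := h.L_sub (by omega) hi
    rw [mem_range] at this; omega
  rcases (show (L m).card = 1 ∨ (L m).card = 2 by omega) with hM | hM
  · -- one alive layer
    have hLm : L m = {m} := by
      obtain ⟨a, ha⟩ := card_eq_one.mp hM
      rw [ha] at hself ⊢
      rw [mem_singleton] at hself
      rw [hself]
    have hPm : P = Δ m := by rw [hP, hLm, sum_singleton]
    rw [hM] at hB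
    have hB' : 2 * T m ≤ P := by push_cast at hB; linarith
    have hq : U' ≤ ((c + 1) * (c * (1 - r) / 2 - 1)) * U := by
      have e1 : c * T m - U ≤ (c * (1 - r) / 2 - 1) * U := by
        have e2 : (c * (1 - r) / 2 - 1) * U = c * P / 2 - U := by
          have : r * U = U - P := hrU
          linear_combination (-c / 2) * this
        rw [e2]; nlinarith
      calc U' ≤ (c + 1) * (c * T m - U) := hsucc
        _ ≤ (c + 1) * ((c * (1 - r) / 2 - 1) * U) := by
            apply mul_le_mul_of_nonneg_left e1; linarith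
        _ = _ := by ring
    set q := (c + 1) * (c * (1 - r) / 2 - 1) with hqdef
    have hq1 : 1 ≤ q := by
      by_contra hcon
      rw [not_le] at hcon
      nlinarith
    have hs : 0 ≤ c * (1 - r) / 2 - 1 := by
      by_contra hcon
      rw [not_le] at hcon
      nlinarith
    rcases (show (L (m + 1)).card = 1 ∨ (L (m + 1)).card = 2 by omega) with hM' | hM'
    · -- 1 → 1
      have hLm' : L (m + 1) = {m + 1} := by
        obtain ⟨a, ha⟩ := card_eq_one.mp hM'
        rw [ha] at hself' ⊢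
        rw [mem_singleton] at hself'
        rw [hself']
      have hPm' : P' = Δ (m + 1) := by rw [hP', hLm', sum_singleton]
      have hD' : r' * U' = U := by rw [hrU', hPm', hUU']; ring
      unfold pot
      rw [if_pos hM, if_pos hM']
      rw [← hr, ← hr']
      have hk := key11 h1 h2 hr0 hδ0 hδ hs
      rw [← hqdef] at hk
      by_contra hcon
      rw [not_le] at hcon
      have e1 : U < (r + δ) * U' := by rw [← hD']; exact mul_lt_mul_of_pos_right hcon hU'pos
      have e2 : (r + δ) * U' ≤ (r + δ) * (q * U) := mul_le_mul_of_nonneg_left hq (by linarith)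
      have e3 : (r + δ) * q * U ≤ 1 * U := mul_le_mul_of_nonneg_right hk hUpos.le
      linarith
    · -- 1 → 2
      have hLm' : L (m + 1) = {m, m + 1} := by
        obtain ⟨a, b, hab, hL⟩ := card_eq_two.mp hM'
        have ha := h.L_succ (m := m) (by omega) (i := a) (by rw [hL]; simp)
        have hb := h.L_succ (m := m) (by omega) (i := b) (by rw [hL]; simp)
        rw [hLm, mem_singleton] at ha hb
        rw [hL]
        rcases ha with ha | ha <;> rcases hb with hb | hb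
        · omega
        · rw [ha, hb]
        · rw [ha, hb, pair_comm]
        · omega
      have hPm' : P' = Δ m + Δ (m + 1) := by
        rw [hP', hLm', sum_pair (by omega)]
      have hD' : r' * U' = r * U := by rw [hrU', hPm', hUU', hrU, hPm]; ring
      unfold pot
      rw [if_pos hM, if_neg (by omega)]
      rw [← hr, ← hr']
      have e1 : (r - 0.25) * U' ≤ 1.2 * (r * U) := by
        rcases le_or_gt r 0.25 with hh | hh
        · have : (r - 0.25) * U' ≤ 0 := mul_nonpos_of_nonpos_of_nonneg (by linarith) (by linarith)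
          have : 0 ≤ r * U := mul_nonneg hr0 hUpos.le
          linarith
        · have e2 : (r - 0.25) * U' ≤ (r - 0.25) * (q * U) :=
            mul_le_mul_of_nonneg_left hq (by linarith)
          have e3 := key12 h1 h2 hr0 hq1 hh
          have e4 : (r - 0.25) * q * U ≤ 1.2 * r * U := mul_le_mul_of_nonneg_right e3 hUpos.le
          linarith
      rw [← hD'] at e1
      have e2 : (r - 0.25 - 1.2 * r') * U' ≤ 0 := by linarith
      have e3 : r - 0.25 - 1.2 * r' ≤ 0 := by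
        by_contra hcon
        rw [not_le] at hcon
        nlinarith
      linarith
  · -- two alive layers
    rw [hM] at hB
    have hB' : 3 * T m ≤ P := by push_cast at hB; linarith
    have hq : U' ≤ ((c + 1) * (c * (1 - r) / 3 - 1)) * U := by
      have e1 : c * T m - U ≤ (c * (1 - r) / 3 - 1) * U := by
        have e2 : (c * (1 - r) / 3 - 1) * U = c * P / 3 - U := by
          have : r * U = U - P := hrU
          linear_combination (-c / 3) * this
        rw [e2]; nlinarith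
      calc U' ≤ (c + 1) * (c * T m - U) := hsucc
        _ ≤ (c + 1) * ((c * (1 - r) / 3 - 1) * U) := by
            apply mul_le_mul_of_nonneg_left e1; linarith
        _ = _ := by ring
    set q := (c + 1) * (c * (1 - r) / 3 - 1) with hqdef
    have hq1 : 1 ≤ q := by
      by_contra hcon
      rw [not_le] at hcon
      nlinarith
    have hq2 : q ≤ 2.896 - 8.25 * r := q3_le h1 h2 hr0
    rcases (show (L (m + 1)).card = 1 ∨ (L (m + 1)).card = 2 by omega) with hM' | hM'
    · -- 2 → 1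
      have hLm' : L (m + 1) = {m + 1} := by
        obtain ⟨a, ha⟩ := card_eq_one.mp hM'
        rw [ha] at hself' ⊢
        rw [mem_singleton] at hself'
        rw [hself']
      have hPm' : P' = Δ (m + 1) := by rw [hP', hLm', sum_singleton]
      have hD' : r' * U' = U := by rw [hrU', hPm', hUU']; ring
      unfold pot
      rw [if_neg (by omega), if_pos hM']
      rw [← hr, ← hr']
      have hk : (0.29 + 1.2 * r) * q ≤ 1 := key21 hr0 hq2
      by_contra hcon
      rw [not_le] at hcon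
      have e1 : U < (0.29 + 1.2 * r) * U' := by
        rw [← hD']
        exact mul_lt_mul_of_pos_right (by linarith) hU'pos
      have e2 : (0.29 + 1.2 * r) * U' ≤ (0.29 + 1.2 * r) * (q * U) :=
        mul_le_mul_of_nonneg_left hq (by linarith)
      have e3 : (0.29 + 1.2 * r) * q * U ≤ 1 * U := mul_le_mul_of_nonneg_right hk hUpos.le
      linarith
    · -- 2 → 2
      obtain ⟨a, b, hab, hL⟩ := card_eq_two.mp hM'
      -- one of `a`, `b` is `m + 1`, the other is in `L m`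
      obtain ⟨l, hl, hLm'⟩ : ∃ l ∈ L m, L (m + 1) = {l, m + 1} := by
        have ha := h.L_succ (m := m) (by omega) (i := a) (by rw [hL]; simp)
        have hb := h.L_succ (m := m) (by omega) (i := b) (by rw [hL]; simp)
        have hs : m + 1 = a ∨ m + 1 = b := by
          rw [hL] at hself'; simpa using hself'
        rcases hs with hs | hs
        · refine ⟨b, ?_, ?_⟩
          · rcases hb with hb | hb
            · exact hb
            · omega
          · rw [hL, hs, pair_comm]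
        · refine ⟨a, ?_, ?_⟩
          · rcases ha with ha | ha
            · exact ha
            · omega
          · rw [hL, hs]
      have hlne : l ≠ m + 1 := hnot l hl
      have hPm' : P' = Δ l + Δ (m + 1) := by
        rw [hP', hLm', sum_pair hlne]
      -- the other element
      obtain ⟨l', hl', hlP⟩ : ∃ l' ∈ L m, P = Δ l + Δ l' := by
        obtain ⟨x, y, hxy, hLx⟩ := card_eq_two.mp hM
        rw [hLx] at hl
        rw [mem_insert, mem_singleton] at hl
        rcases hl with rfl | rfl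
        · exact ⟨y, by rw [hLx]; simp, by rw [hP, hLx, sum_pair hxy]⟩
        · exact ⟨x, by rw [hLx]; simp, by rw [hP, hLx, sum_pair hxy, add_comm]⟩
      have hl'T : T m < Δ l' := ((h.memL m (by omega) l').mp hl').2
      have hD' : r * U + T m ≤ r' * U' := by
        rw [hrU', hPm', hUU', hrU, hlP]; linarith
      unfold pot
      rw [if_neg (by omega), if_neg (by omega)]
      rw [← hr, ← hr']
      have hT' : 0.2586 * U ≤ T m := by
        have e1 : 0.2586 * (c * (c + 1)) ≤ c + 2 := by nlinarith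
        have e2 : 0.2586 * (c * (c + 1)) * U ≤ (c + 2) * U :=
          mul_le_mul_of_nonneg_right e1 hUpos.le
        have e3 : (c * (c + 1)) * (0.2586 * U) ≤ (c * (c + 1)) * T m := by nlinarith
        exact le_of_mul_le_mul_left e3 (by nlinarith)
      have hk : (r + 0.0167) * q ≤ r + 0.2586 := key22 hr0 hq2
      have e1 : (r + 0.0167) * U' ≤ (r + 0.0167) * (q * U) :=
        mul_le_mul_of_nonneg_left hq (by linarith)
      have e2' : (r + 0.0167) * q * U ≤ (r + 0.2586) * U := mul_le_mul_of_nonneg_right hk hUpos.le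
      have e2 : (r + 0.0167) * U' ≤ r' * U' := by linarith
      have e3 : r + 0.0167 ≤ r' := le_of_mul_le_mul_right e2 hU'pos
      linarith

/-- Only boundedly many steps are possible. -/
theorem no_long {c : ℝ} (h1 : 9 / 2 ≤ c) (h2 : c ^ 2 - 5 * c + 2 < 0) :
    ∃ K : ℕ, ∀ (Δ T : ℕ → ℝ) (L : ℕ → Finset ℕ), ¬ Layers c K Δ T L := by
  have hω := omega_lt h1 h2
  set δ : ℝ := min 0.02 ((1 - (c + 1) * (c - 2) ^ 2 / (8 * c)) / 8) with hδ
  have hδpos : 0 < δ := by
    rw [hδ]; apply lt_min (by norm_num); linarith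
  obtain ⟨k, hk⟩ := exists_nat_gt (1.5 / δ)
  refine ⟨k + 2, fun Δ T L h => ?_⟩
  have hδ1 : δ ≤ 0.02 := min_le_left _ _
  have hδ2 : 8 * δ ≤ 1 - (c + 1) * (c - 2) ^ 2 / (8 * c) := by
    have : δ ≤ (1 - (c + 1) * (c - 2) ^ 2 / (8 * c)) / 8 := min_le_right _ _
    linarith
  have key : ∀ m ≤ k, (m : ℝ) * δ ≤ pot Δ L m := by
    intro m
    induction m with
    | zero => intro _; simpa using h.pot_nonneg (m := 0) (by omega)
    | succ m ih =>
      intro hm
      have e1 := ih (by omega)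
      have e2 := h.step h1 h2 hδpos.le hδ1 hδ2 (m := m) (by omega)
      push_cast
      linarith
  have e1 := key k le_rfl
  have e2 := h.pot_le (m := k) (by omega)
  rw [div_lt_iff₀ hδpos] at hk
  linarith

end Layers

end Pool.Agent.Gap59
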