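import Pool.Agent.Lib_helper59.Gap59.Build

set_option autoImplicit false
set_option maxHeartbeats 1000000

namespace Pool.Agent.Gap59


/-- the critical exponent minus one, `x = (3 + √17) / 2` -/
noncomputable def xx : ℝ := (3 + Real.sqrt 17) / 2

lemma xx_sq : xx ^ 2 = 3 * xx + 2 := by
  have h17 : Real.sqrt 17 ^ 2 = 17 := Real.sq_sqrt (by norm_num)
  unfold xx
  nlinarith

lemma xx_lower : 3.5 < xx := by
  have h17b : 4 < Real.sqrt 17 := by
    apply Real.lt_sqrt_of_sq_lt; norm_num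
  unfold xx
  linarith

lemma xx_upper : xx < 3.6 := by
  have h17b : Real.sqrt 17 < 4.2 := by
    rw [Real.sqrt_lt' (by norm_num)]; norm_num
  unfold xx
  linarith

/-- real scale of phase `k` -/
noncomputable def MM (k : ℕ) : ℝ := 100 * xx ^ k

lemma MM_succ (k : ℕ) : MM (k + 1) = xx * MM k := by unfold MM; ring

lemma MM_ge (k : ℕ) : 100 ≤ MM k := by
  unfold MM
  have : 1 ≤ xx ^ k := one_le_pow₀ (by linarith [xx_lower])
  linarith

/-- exponent at the start of phase `k` -/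
noncomputable def ss (k : ℕ) : ℕ := ⌊2 * MM k / xx⌋₊ - 13
/-- exponent of the lengths of the first two progressions -/
noncomputable def mu (k : ℕ) : ℕ := ⌊MM k⌋₊ - 11
/-- exponent of the small gap -/
noncomputable def ee (k : ℕ) : ℕ := ⌊(xx + 1) * (ss k : ℝ)⌋₊
/-- exponent of the big gap -/
noncomputable def ff (k : ℕ) : ℕ := ⌊(xx + 1) * (mu k : ℝ)⌋₊

lemma floor_sub {y : ℝ} {r : ℕ} (h : (r : ℝ) ≤ y) :
    ((⌊y⌋₊ - r : ℕ) : ℝ) ≤ y - r ∧ y - r - 1 < ((⌊y⌋₊ - r : ℕ) : ℝ) := by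
  have h0 : 0 ≤ y := le_trans (Nat.cast_nonneg r) h
  have h1 : r ≤ ⌊y⌋₊ := Nat.le_floor h
  rw [Nat.cast_sub h1]
  have h2 := Nat.floor_le h0
  have h3 := Nat.lt_floor_add_one y
  constructor <;> linarith

lemma ss_bounds (k : ℕ) : (ss k : ℝ) ≤ 2 * MM k / xx - 13 ∧ 2 * MM k / xx - 14 < (ss k : ℝ) := by
  have h1 : ((13 : ℕ) : ℝ) ≤ 2 * MM k / xx := by
    rw [le_div_iff₀ (by linarith [xx_lower])]
    have := MM_ge k
    have := xx_upper
    push_cast
    linarith
  obtain ⟨h2, h3⟩ := floor_sub h1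
  unfold ss
  push_cast at h2 h3
  constructor <;> linarith

lemma mu_bounds (k : ℕ) : (mu k : ℝ) ≤ MM k - 11 ∧ MM k - 12 < (mu k : ℝ) := by
  have h1 : ((11 : ℕ) : ℝ) ≤ MM k := by
    have := MM_ge k
    push_cast; linarith
  obtain ⟨h2, h3⟩ := floor_sub h1
  unfold mu
  push_cast at h2 h3
  constructor <;> linarith

lemma ee_bounds (k : ℕ) : (ee k : ℝ) ≤ (xx + 1) * ss k ∧ (xx + 1) * ss k - 1 < (ee k : ℝ) := by
  have h0 : (0 : ℝ) ≤ (xx + 1) * ss k := by
    have := xx_lower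
    positivity
  have h2 := Nat.floor_le h0
  have h3 := Nat.lt_floor_add_one ((xx + 1) * (ss k : ℝ))
  unfold ee
  constructor <;> linarith

lemma ff_bounds (k : ℕ) : (ff k : ℝ) ≤ (xx + 1) * mu k ∧ (xx + 1) * mu k - 1 < (ff k : ℝ) := by
  have h0 : (0 : ℝ) ≤ (xx + 1) * mu k := by
    have := xx_lower
    positivity
  have h2 := Nat.floor_le h0
  have h3 := Nat.lt_floor_add_one ((xx + 1) * (mu k : ℝ))
  unfold ff
  constructor <;> linarith

lemma ss_succ_bounds (k : ℕ) : (ss (k + 1) : ℝ) ≤ 2 * MM k - 13 ∧ 2 * MM k - 14 < (ss (k + 1) : ℝ) := by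
  have h := ss_bounds (k + 1)
  have hx := xx_lower
  have : 2 * MM (k + 1) / xx = 2 * MM k := by
    rw [MM_succ]; field_simp
  rw [this] at h
  exact h

/-- inequality (I) -/
lemma ineqI (k : ℕ) : 2 * ss (k + 1) + ee k ≤ 2 * mu k + ff k := by
  have h1 := (ss_succ_bounds k).1
  have h2 := (ee_bounds k).1
  have h3 := (ss_bounds k).1
  have h4 := (mu_bounds k).2
  have h5 := (ff_bounds k).2
  have hx := xx_lower
  have hxs := xx_sq
  have h6 : (ee k : ℝ) ≤ (xx + 1) * (2 * MM k / xx - 13) :=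
    h2.trans (mul_le_mul_of_nonneg_left h3 (by linarith))
  have h7 : (xx + 1) * (MM k - 12) ≤ (xx + 1) * mu k :=
    mul_le_mul_of_nonneg_left h4.le (by linarith)
  have h8 : (xx + 1) * (2 * MM k / xx) = (xx - 1) * MM k := by
    have : (xx + 1) * 2 = (xx - 1) * xx := by nlinarith
    field_simp
    linear_combination (MM k) * this
  have h9 : (2 * ss (k + 1) + ee k : ℝ) < 2 * mu k + ff k := by nlinarith
  have h10 : 2 * ss (k + 1) + ee k < 2 * mu k + ff k := by exact_mod_cast h9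
  omega

/-- inequality (II) -/
lemma ineqII (k : ℕ) : mu (k + 1) + mu k + ff k + 6 ≤ ee (k + 1) := by
  have h1 := (mu_bounds (k + 1)).1
  have h2 := (mu_bounds k).1
  have h3 := (ff_bounds k).1
  have h4 := (ee_bounds (k + 1)).2
  have h5 := (ss_succ_bounds k).2
  have hx := xx_lower
  have hx2 := xx_upper
  rw [MM_succ] at h1
  have h6 : (ff k : ℝ) ≤ (xx + 1) * (MM k - 11) :=
    h3.trans (mul_le_mul_of_nonneg_left h2 (by linarith))
  have h7 : (xx + 1) * (2 * MM k - 14) ≤ (xx + 1) * ss (k + 1) :=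
    mul_le_mul_of_nonneg_left h5.le (by linarith)
  have h9 : (mu (k + 1) + mu k + ff k + 6 : ℝ) < ee (k + 1) := by nlinarith
  have h10 : mu (k + 1) + mu k + ff k + 6 < ee (k + 1) := by exact_mod_cast h9
  omega

lemma ss_le_mu (k : ℕ) : ss k + 3 ≤ mu k := by
  have h1 := (ss_bounds k).1
  have h2 := (mu_bounds k).2
  have hx := xx_lower
  have hM := MM_ge k
  have h3 : 2 * MM k / xx ≤ MM k * 0.6 := by
    rw [div_le_iff₀ (by linarith)]
    nlinarith
  have h4 : (ss k + 3 : ℝ) ≤ mu k := by linarith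
  exact_mod_cast h4

lemma mu_le_ss (k : ℕ) : mu k + 3 ≤ ss (k + 1) := by
  have h1 := (ss_succ_bounds k).2
  have h2 := (mu_bounds k).1
  have hM := MM_ge k
  have h4 : (mu k + 3 : ℝ) ≤ ss (k + 1) := by linarith
  exact_mod_cast h4

lemma ee_le_ff (k : ℕ) : ee k ≤ ff k := by
  unfold ee ff
  apply Nat.floor_mono
  have h1 : (ss k : ℝ) ≤ mu k := by
    have := ss_le_mu k
    exact_mod_cast (by omega : ss k ≤ mu k)
  exact mul_le_mul_of_nonneg_left h1 (by linarith [xx_lower])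

lemma start : mu 0 + 2 ≤ ee 0 := by
  have h1 := (mu_bounds 0).1
  have h2 := (ee_bounds 0).2
  have h3 := (ss_bounds 0).2
  have hx := xx_lower
  have hx2 := xx_upper
  have hM : MM 0 = 100 := by unfold MM; simp
  rw [hM] at h1 h3
  have h4 : 55 ≤ 2 * 100 / xx := by
    rw [le_div_iff₀ (by linarith)]; linarith
  have h5 : (41 : ℝ) ≤ ss 0 := by linarith
  have h6 : (mu 0 + 2 : ℝ) ≤ ee 0 := by nlinarith
  exact_mod_cast h6

/-- offsets -/
noncomputable def bb : ℕ → ℕ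
  | 0 => 1
  | k + 1 => bb k + 2 ^ ee k * 2 ^ mu k + 2 ^ ff k * 2 ^ mu k

/-- numbers of elements -/
noncomputable def NN : ℕ → ℕ
  | 0 => 0
  | k + 1 => NN k + 2 * 2 ^ mu k + 2 ^ ss (k + 1)

lemma NN_le (k : ℕ) : NN k ≤ 2 ^ (ss k + 1) := by
  induction k with
  | zero => simp [NN]
  | succ k ih =>
    simp only [NN]
    have h1 := ss_le_mu k
    have h2 := mu_le_ss k
    have e1 : 2 ^ (ss k + 1) ≤ 2 ^ (ss (k + 1) - 1) := Nat.pow_le_pow_right (by norm_num) (by omega)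
    have e2 : 2 * 2 ^ mu k ≤ 2 ^ (ss (k + 1) - 1) := by
      rw [← pow_succ']; exact Nat.pow_le_pow_right (by norm_num) (by omega)
    have e3 : 2 ^ ss (k + 1) = 2 * 2 ^ (ss (k + 1) - 1) := by
      rw [← pow_succ']; congr 1; omega
    have e4 : 2 ^ (ss (k + 1) + 1) = 2 * 2 ^ ss (k + 1) := by rw [← pow_succ']
    omega

lemma bb_le (k : ℕ) : bb k ≤ 2 ^ ee k ∧ bb (k + 1) ≤ 4 * (2 ^ ff k * 2 ^ mu k) := by
  have key : ∀ k, bb k ≤ 2 ^ ee k → bb (k + 1) ≤ 4 * (2 ^ ff k * 2 ^ mu k) := by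
    intro k hk
    simp only [bb]
    have h1 : 2 ^ ee k ≤ 2 ^ ff k := Nat.pow_le_pow_right (by norm_num) (ee_le_ff k)
    have h2 : 2 ^ ee k * 2 ^ mu k ≤ 2 ^ ff k * 2 ^ mu k := Nat.mul_le_mul_right _ h1
    have h3 : 2 ^ ff k * 1 ≤ 2 ^ ff k * 2 ^ mu k := Nat.mul_le_mul_left _ Nat.one_le_two_pow
    omega
  have key2 : ∀ k, bb k ≤ 2 ^ ee k := by
    intro k
    induction k with
    | zero => simp only [bb]; exact Nat.one_le_two_pow
    | succ k ih =>
      refine (key k ih).trans ?_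
      have h1 := ineqII k
      calc 4 * (2 ^ ff k * 2 ^ mu k) = 2 ^ (2 + ff k + mu k) := by
            rw [pow_add, pow_add]; ring
        _ ≤ 2 ^ ee (k + 1) := Nat.pow_le_pow_right (by norm_num) (by omega)
  exact ⟨key2 k, key k (key2 k)⟩

/-- The data of the construction at the critical exponent. -/
noncomputable def theData : Data where
  m := fun k => 2 ^ mu k
  n := fun k => 2 ^ ss (k + 1)
  q := fun k => 2 ^ ee k
  Q := fun k => 2 ^ ff k
  b := bb
  N := NN
  b0 := rfl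
  bs := fun _ => rfl
  N0 := rfl
  Ns := fun _ => rfl
  qdvd := fun k => pow_dvd_pow 2 (by have := ineqII k; have := ee_le_ff k; omega)
  Qdvd := fun k => pow_dvd_pow 2 (ee_le_ff k)
  mpos := fun _ => Nat.one_le_two_pow
  npos := fun _ => Nat.one_le_two_pow
  qpos := fun _ => Nat.one_le_two_pow
  Qpos := fun _ => Nat.one_le_two_pow
  hA := fun k => by
    have h1 := ineqI k
    calc 2 ^ ss (k + 1) * (2 ^ ee k * 2 ^ ss (k + 1)) = 2 ^ (2 * ss (k + 1) + ee k) := by
          rw [← pow_add, ← pow_add]; congr 1; omega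
      _ ≤ 2 ^ (2 * mu k + ff k) := Nat.pow_le_pow_right (by norm_num) h1
      _ = 2 ^ mu k * (2 ^ ff k * 2 ^ mu k) := by
          rw [← pow_add, ← pow_add]; congr 1; omega
      _ ≤ 2 ^ mu k * bb (k + 1) := by
          apply Nat.mul_le_mul_left
          simp only [bb]
          omega
  dec0 := by
    have h1 := start
    calc 3 * 2 ^ mu 0 < 4 * 2 ^ mu 0 := by
          have := Nat.one_le_two_pow (n := mu 0); omega
      _ = 2 ^ (mu 0 + 2) := by rw [pow_add]; ring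
      _ ≤ 2 ^ ee 0 := Nat.pow_le_pow_right (by norm_num) h1
  dec := fun k => by
    have h1 := NN_le k
    have h2 := NN_le (k + 1)
    have h3 := ss_le_mu k
    have h4 := ss_le_mu (k + 1)
    have h5 := mu_le_ss k
    have h6 := (bb_le k).2
    have h7 := ineqII k
    have e1 : 2 ^ (ss k + 1) ≤ 2 ^ mu (k + 1) := Nat.pow_le_pow_right (by norm_num) (by omega)
    have e2 : 2 ^ (ss (k + 1) + 1) ≤ 2 ^ mu (k + 1) := Nat.pow_le_pow_right (by norm_num) (by omega)
    have e3 : 2 ^ mu k ≤ 2 ^ mu (k + 1) := Nat.pow_le_pow_right (by norm_num) (by omega)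
    have e4 : (NN (k + 1) + 3 * 2 ^ mu (k + 1)) + (NN k + 3 * 2 ^ mu k) ≤ 8 * 2 ^ mu (k + 1) := by
      omega
    calc ((NN (k + 1) + 3 * 2 ^ mu (k + 1)) + (NN k + 3 * 2 ^ mu k)) * bb (k + 1)
        ≤ (8 * 2 ^ mu (k + 1)) * (4 * (2 ^ ff k * 2 ^ mu k)) := Nat.mul_le_mul e4 h6
      _ = 2 ^ (mu (k + 1) + mu k + ff k + 5) := by
          rw [pow_add, pow_add, pow_add]; ring
      _ < 2 ^ ee (k + 1) := Nat.pow_lt_pow_right (by norm_num) (by omega)
  big := fun k => by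
    have h1 := ineqII k
    have h2 := ee_le_ff k
    have h3 := ss_le_mu (k + 1)
    rw [← pow_add]
    exact Nat.pow_lt_pow_right (by norm_num) (by omega)

lemma pow_gap {s e : ℕ} (h : (e : ℝ) ≤ (xx + 1) * s) :
    ((2 ^ e : ℕ) : ℝ) ≤ ((2 ^ s : ℕ) : ℝ) ^ (xx + 1) := by
  push_cast
  rw [← Real.rpow_natCast, ← Real.rpow_natCast, ← Real.rpow_mul (by norm_num)]
  apply Real.rpow_le_rpow_of_exponent_le (by norm_num)
  linarith

/-- Every `c ≥ (5 + √17) / 2` is attainable. -/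
theorem attainable_of_ge {c : ℝ} (hc : (5 + Real.sqrt 17) / 2 ≤ c) : Att c := by
  have hxc : xx + 1 ≤ c := by unfold xx; linarith
  refine ⟨theData.a, theData.a_mono, theData.A_pos (theData.a_mem 0), ?_, ?_⟩
  · rw [theData.range_a]; exact theData.admissible
  · refine ⟨theData.b 1 + theData.q 1 + 1, fun i hi => ?_⟩
    have h1 := theData.gap (fun n => (n : ℝ) ^ (xx + 1))
      (fun a b hab => Real.rpow_le_rpow (by positivity) (by exact_mod_cast hab)
        (by linarith [xx_lower]))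
      (fun k => pow_gap (ee_bounds (k + 1)).1) (fun k => pow_gap (ff_bounds k).1)
      (i := i) (by omega)
    refine h1.trans ?_
    simp only [Nat.cast_add, Nat.cast_one]
    exact Real.rpow_le_rpow_of_exponent_le (by linarith [Nat.cast_nonneg (α := ℝ) i]) hxc

end Pool.Agent.Gap59
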